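import Pool.Agent.Lib.MP_f80667_ag.Qs.Lo
import Pool.Agent.Lib.MP_f80667_ag.Pe.Kg

/-! The conditions on the places and on the prime numbers. -/

open ZC BE PE CV Polynomial IntermediateField IsDedekindDomain NumberField

namespace QS

section nf

variable {F : Type} [Field F] [NumberField F]

/-- The conditions on `l`: prime to `n`, to `r` if the degree of `f` is `n r`, to `s` if the degree of `g` is `n s`. -/
structure Pm (D : Dat F) (l : ℕ) : Prop where
  n : ¬ l ∣ D.n
  r : D.f.natDegree + 1 = D.n * D.r ∨ ¬ l ∣ D.r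
  s : D.g.natDegree + 1 = D.n * D.s ∨ ¬ l ∣ D.s

/-- For almost all `v` a separable polynomial is good. -/
theorem gvs_fin {f : F[X]} (hf : f.Separable) :
    {v : HeightOneSpectrum (𝓞 F) | ¬ Gv v f}.Finite := by
  have hf0 : f ≠ 0 := hf.ne_zero
  obtain ⟨a, b, hab⟩ := hf
  have hI : ∀ p : F[X], {v : HeightOneSpectrum (𝓞 F) |
      ∃ i, ¬ v.valuation F (p.coeff i) ≤ 1}.Finite := by
    intro p
    refine (Set.Finite.biUnion p.support.finite_toSet fun i _ => gln_le (p.coeff i)).subset ?_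
    rintro v ⟨i, hi⟩
    refine Set.mem_biUnion (x := i) ?_ hi
    rw [Finset.mem_coe, mem_support_iff]
    intro h0
    exact hi (by rw [h0, map_zero]; exact zero_le)
  have h0 : f.leadingCoeff ≠ 0 := leadingCoeff_ne_zero.2 hf0
  refine (((hI f).union (hI b)).union (gln_one h0)).subset fun v hv => ?_
  by_contra hc
  simp only [Set.mem_union, not_or] at hc
  obtain ⟨⟨h1, h2⟩, h3⟩ := hc
  refine hv ⟨fun i => ?_, ?_, a, b, hab, fun i => ?_⟩
  · by_contra h
    exact h1 ⟨i, h⟩
  · by_contra h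
    exact h3 h
  · by_contra h
    exact h2 ⟨i, h⟩

/-- The bad places. -/
def Bad (D : Dat F) : Set (HeightOneSpectrum (𝓞 F)) :=
  {v | ¬ Gv v D.f} ∪ {v | ¬ Gv v D.g} ∪
    {v | ¬ ((∃ p : ℕ, p.Prime ∧ v.valuation F (p : F) = WithZero.exp (-1 : ℤ)) ∧
      v.valuation F 2 = 1)} ∪ {v | v.valuation F (D.n : F) ≠ 1}

theorem bad_fin {D : Dat F} (hD : D.Ok) : (Bad D).Finite := by
  refine (((gvs_fin hD.sf).union (gvs_fin hD.sg)).union unr_fin).union (gln_one ?_)
  have := hD.hn
  exact Nat.cast_ne_zero.2 (by omega)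

/-- A finite place is above only one prime number. -/
theorem pl_uniq (v : HeightOneSpectrum (𝓞 F)) {l m : ℕ} (hl : l.Prime) (hm : m.Prime)
    (h1 : v.valuation F (l : F) < 1) (h2 : v.valuation F (m : F) < 1) : l = m := by
  by_contra hne
  have hc : Nat.Coprime l m := (Nat.coprime_primes hl hm).2 hne
  have hb := Int.isCoprime_iff_gcd_eq_one.2 (show Int.gcd (l : ℤ) (m : ℤ) = 1 from hc)
  obtain ⟨a, b, hab⟩ := hb
  have hab' : (a : F) * (l : F) + (b : F) * (m : F) = 1 := by exact_mod_cast congrArg (Int.cast (R := F)) hab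
  have hz : ∀ c : ℤ, v.valuation F (c : F) ≤ 1 := by
    intro c
    have h1 : (c : F) = algebraMap (𝓞 F) F (c : 𝓞 F) := (map_intCast _ c).symm
    rw [h1]
    exact v.valuation_le_one _
  have h3 : v.valuation F ((a : F) * (l : F) + (b : F) * (m : F)) < 1 := by
    refine Valuation.map_add_lt _ ?_ ?_
    · rw [map_mul]
      exact (mul_le_of_le_one_left' (hz a)).trans_lt h1
    · rw [map_mul]
      exact (mul_le_of_le_one_left' (hz b)).trans_lt h2
  rw [hab', map_one] at h3
  exact lt_irrefl _ h3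

/-- The valuation of an element of a power of `v`. -/
theorem val_pow {v : HeightOneSpectrum (𝓞 F)} {a : 𝓞 F} {k : ℕ} :
    a ∈ v.asIdeal ^ k ↔ v.valuation F (algebraMap (𝓞 F) F a) ≤ WithZero.exp (-(k : ℤ)) := by
  rw [v.valuation_of_algebraMap, v.intValuation_le_pow_iff_mem]

/-- The condition on the ramification. -/
theorem exists_er (v : HeightOneSpectrum (𝓞 F)) :
    ∃ L : Ld (FK F v) (AlgebraicClosure (FK F v)),
      (∀ x : F, v.valuation F x = 1 → L.nm (algebraMap F _ x) = 1) ∧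
      (∀ x : F, v.valuation F x < 1 → L.nm (algebraMap F _ x) < 1) ∧
      ∀ l : ℕ, l.Prime → (l : 𝓞 F) ∉ v.asIdeal ^ (l - 1) → Er L l := by
  obtain ⟨L, c, hc0, hc1, hL, hL'⟩ := exists_ldE v
  have hval : ∀ x : F, x ≠ 0 → ∃ n : ℤ, v.valuation F x = WithZero.exp (-n) := fun x hx =>
    ⟨-(WithZero.log (v.valuation F x)), by
      rw [neg_neg, WithZero.exp_log ((Valuation.ne_zero_iff _).2 hx)]⟩
  refine ⟨L, fun x hx => ?_, fun x hx => ?_, fun l hl hv x hx => ?_⟩
  · have h0 : v.valuation F x = WithZero.exp (-0 : ℤ) := by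
      rw [hx, neg_zero, WithZero.exp_zero]
    rw [hL x 0 h0, zpow_zero]
  · by_cases h0 : x = 0
    · rw [h0, map_zero, L.zero]
      exact one_pos
    · obtain ⟨n, hn⟩ := hval x h0
      rw [hL x n hn]
      rw [hn, ← WithZero.exp_zero, WithZero.exp_lt_exp] at hx
      rw [← zpow_zero c]
      exact (zpow_lt_zpow_iff_right_of_lt_one₀ hc0 hc1).2 (by omega)
  · have hlpos : 0 < L.nm (l : AlgebraicClosure (FK F v)) := by
      have hc : CharZero (FK F v) :=
        charZero_of_injective_algebraMap (algebraMap F (FK F v)).injective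
      have hc' : CharZero (AlgebraicClosure (FK F v)) :=
        charZero_of_injective_algebraMap (algebraMap (FK F v) (AlgebraicClosure (FK F v))).injective
      exact L.pos (Nat.cast_ne_zero.2 hl.ne_zero)
    by_cases hx0 : x = 0
    · rw [hx0, map_zero, L.zero, zero_pow (by have := hl.two_le; omega)]
      exact hlpos
    · obtain ⟨k, hk⟩ := hL' x hx0
      have hk1 : 1 ≤ k := by
        rw [hk, ← zpow_zero c, zpow_lt_zpow_iff_right_of_lt_one₀ hc0 hc1] at hx
        omega
      obtain ⟨e, he⟩ := hval (l : F) (Nat.cast_ne_zero.2 hl.ne_zero)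
      have he1 : e < ((l - 1 : ℕ) : ℤ) := by
        rw [val_pow, map_natCast, he, WithZero.exp_le_exp, not_le] at hv
        omega
      have h1 : L.nm (l : AlgebraicClosure (FK F v)) = c ^ e := by
        rw [← hL (l : F) e he, map_natCast]
      rw [h1, hk, ← zpow_natCast, ← zpow_mul]
      refine (zpow_lt_zpow_iff_right_of_lt_one₀ hc0 hc1).2 (he1.trans_le ?_)
      have h2 : (0 : ℤ) ≤ ((l - 1 : ℕ) : ℤ) := Int.natCast_nonneg _
      nlinarith

/-- The conditions on the prime number `l` for the family. -/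
structure Fl (n p q : ℕ) (α β : F) (l : ℕ) : Prop where
  pr : l.Prime
  nd : ¬ l ∣ n * (n - 1) * p * (p - 1) * q * (q - 1)
  ram : ∀ v : HeightOneSpectrum (𝓞 F), (l : 𝓞 F) ∉ v.asIdeal ^ (l - 1)
  un : ∀ v : HeightOneSpectrum (𝓞 F), v.valuation F (l : F) < 1 →
    v.valuation F α = 1 ∧ v.valuation F β = 1

/-- The conditions hold for almost all `l`. -/
theorem fl_fin {n p q : ℕ} (hn : 2 ≤ n) (hp : 2 ≤ p) (hq : 2 ≤ q) {α β : F} (hα : α ≠ 0)
    (hβ : β ≠ 0) : {l : ℕ | l.Prime ∧ ¬ Fl n p q α β l}.Finite := by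
  have key : ∀ s : Set (HeightOneSpectrum (𝓞 F)), s.Finite →
      {l : ℕ | l.Prime ∧ ∃ v ∈ s, v.valuation F (l : F) < 1}.Finite := by
    intro s hs
    refine (hs.biUnion (t := fun v => {l : ℕ | l.Prime ∧ v.valuation F (l : F) < 1})
      fun v _ => ?_).subset ?_
    · refine Set.Subsingleton.finite ?_
      rintro l ⟨hl, h1⟩ m ⟨hm, h2⟩
      exact pl_uniq v hl hm h1 h2
    · rintro l ⟨hl, v, h1, h2⟩
      exact Set.mem_biUnion (x := v) h1 ⟨hl, h2⟩
  have hN : n * (n - 1) * p * (p - 1) * q * (q - 1) ≠ 0 := by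
    have h1 : n - 1 ≠ 0 := by omega
    have h2 : p - 1 ≠ 0 := by omega
    have h3 : q - 1 ≠ 0 := by omega
    have h4 : n ≠ 0 := by omega
    have h5 : p ≠ 0 := by omega
    have h6 : q ≠ 0 := by omega
    simp [h1, h2, h3, h4, h5, h6]
  refine ((((Set.finite_Iic (n * (n - 1) * p * (p - 1) * q * (q - 1))).union
    (key _ (gln_one hα))).union (key _ (gln_one hβ))).union (key _ gln_unr)).union
    (Set.finite_Iic 2) |>.subset ?_
  rintro l ⟨hl, hG⟩
  by_contra hc
  simp only [Set.mem_union, not_or] at hc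
  obtain ⟨⟨⟨⟨h1, h2⟩, h3⟩, h4⟩, h5⟩ := hc
  have h5' : 3 ≤ l := by
    by_contra h
    exact h5 (Set.mem_Iic.2 (by omega))
  refine hG ⟨hl, fun hd => h1 (Nat.le_of_dvd (Nat.pos_of_ne_zero hN) hd), fun v hv => ?_,
    fun v hv => ⟨?_, ?_⟩⟩
  · rw [val_pow, map_natCast] at hv
    have h6 : v.valuation F (l : F) < 1 := by
      refine hv.trans_lt ?_
      rw [← WithZero.exp_zero, WithZero.exp_lt_exp]
      omega
    refine h4 ⟨hl, v, ?_, h6⟩
    rintro ⟨p', hp', hpv⟩
    have h7 : v.valuation F (p' : F) < 1 := by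
      rw [hpv, ← WithZero.exp_zero, WithZero.exp_lt_exp]
      omega
    obtain rfl := pl_uniq v hp' hl h7 h6
    rw [hpv, WithZero.exp_le_exp] at hv
    omega
  · by_contra h
    exact h2 ⟨hl, v, h, hv⟩
  · by_contra h
    exact h3 ⟨hl, v, h, hv⟩

end nf

end QS
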