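import Pool.Agent.Lib.MP_f80667_ag.Cv.Defs
import Pool.Agent.Lib.MP_f80667_ag.Qs.Val

/-!
Pointed curves with the equation `u ^ n = a(x)`.

* `Cu C n a`: elements `X`, `U` of the affine ring of the curve `C` with `U ^ n = a(X)`, which generate the ring, with the
  universal property; the pole of `X` at infinity has order `n`.
* `xh P`: homogeneous coordinates of the `x`-coordinate of a point, `eta P`: the coordinate `u` (`0` at infinity), so that
  `eta P ^ n` is the value of the form of degree `n r` of `a` at `xh P` (`a` of degree `n r - 1`).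
* `zm ζ P`: the point `(x, ζ u)` for an `n`-th root of unity `ζ`.
-/

open ZC BE PE CV Polynomial

namespace QS

/-- The equation of the curve `C` is `u ^ n = a(x)`. -/
structure Cu {M : Type} [Field M] (C : Crv M) (n : ℕ) (a : M[X]) where
  /-- the function `x` -/
  X : C.A
  /-- the function `u` -/
  U : C.A
  eq : U ^ n = aeval X a
  gen : Algebra.adjoin M {X, U} = ⊤
  lift : ∀ (B : Type) [CommRing B] [Algebra M B] (x u : B), u ^ n = aeval x a →
    ∃ φ : C.A →ₐ[M] B, φ X = x ∧ φ U = u
  deg : C.G.d X = n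

section form

variable {M L : Type} [Field M] [Field L] [Algebra M L]

/-- The form at `(x, 1)`. Proof: `aeval_eq_sum_range'`. -/
theorem fm_one {d : ℕ} {a : M[X]} (h : a.natDegree ≤ d) (x : L) : fm d a (x, 1) = aeval x a := by
  rw [aeval_eq_sum_range' (Nat.lt_succ_of_le h)]
  unfold fm
  refine Finset.sum_congr rfl fun i _ => ?_
  simp [Algebra.smul_def]

/-- The form at `(1, y)`. -/
theorem fm_inf (d : ℕ) (a : M[X]) : fm d a ((1, 0) : L × L) = algebraMap M L (a.coeff d) := by
  unfold fm
  rw [Finset.sum_eq_single d]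
  · simp
  · intro i hi hid
    have h1 : d - i ≠ 0 := by
      rw [Finset.mem_range] at hi
      omega
    simp [zero_pow h1]
  · intro h
    exact absurd (Finset.mem_range.2 (Nat.lt_succ_self d)) h

end form

namespace Cu

variable {M : Type} [Field M] {C : Crv M} {n : ℕ} {a : M[X]} (c : Cu C n a) {L : Type} [Field L]
  [Algebra M L]

/-- A homomorphism is determined by the values of `X`, `U`. Proof: `gen`, `AlgHom.ext_of_adjoin_eq_top`. -/
theorem hom_ext {B : Type} [CommRing B] [Algebra M B] {φ ψ : C.A →ₐ[M] B} (h : φ c.X = ψ c.X)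
    (h' : φ c.U = ψ c.U) : φ = ψ := by
  refine AlgHom.ext_of_adjoin_eq_top c.gen ?_
  intro x hx
  rcases hx with rfl | hx
  · exact h
  · rw [Set.mem_singleton_iff.1 hx]
    exact h'

/-- Homogeneous coordinates of the `x`-coordinate. -/
def xh (P : C.V.pt L) : L × L :=
  match (P : Option (C.A →ₐ[M] L)) with
  | none => (1, 0)
  | some φ => (φ c.X, 1)

/-- The coordinate `u`. -/
def eta (P : C.V.pt L) : L :=
  match (P : Option (C.A →ₐ[M] L)) with
  | none => 0
  | some φ => φ c.U

theorem ext {P P' : C.V.pt L} (h : c.xh P' = c.xh P) (h' : c.eta P' = c.eta P) : P' = P := by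
  have key : ∀ P P' : Option (C.A →ₐ[M] L), c.xh (L := L) P' = c.xh (L := L) P →
      c.eta (L := L) P' = c.eta (L := L) P → P' = P := by
    intro P P' h h'
    cases P with
    | none =>
      cases P' with
      | none => rfl
      | some φ =>
        have h1 : (1 : L) = 0 := congrArg Prod.snd h
        exact absurd h1 one_ne_zero
    | some φ =>
      cases P' with
      | none =>
        have h1 : (0 : L) = 1 := congrArg Prod.snd h
        exact absurd h1.symm one_ne_zero
      | some ψ =>
        have h1 : ψ c.X = φ c.X := congrArg Prod.fst h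
        have h2 : ψ c.U = φ c.U := h'
        rw [c.hom_ext h1 h2]
  exact key P P' h h'

theorem xh_ne (P : C.V.pt L) : c.xh P ≠ 0 := by
  have key : ∀ P : Option (C.A →ₐ[M] L), c.xh (L := L) P ≠ 0 := by
    intro P
    cases P with
    | none => exact fun h => one_ne_zero (congrArg Prod.fst h)
    | some φ => exact fun h => one_ne_zero (congrArg Prod.snd h)
  exact key P

theorem xh_map {N : Type} [Field N] [Algebra M N] (σ : L →ₐ[M] N) (P : C.V.pt L) :
    c.xh (C.V.map σ P) = (σ (c.xh P).1, σ (c.xh P).2) := by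
  have key : ∀ P : Option (C.A →ₐ[M] L),
      c.xh (L := N) (P.map fun φ => σ.comp φ : Option (C.A →ₐ[M] N)) =
        (σ (c.xh (L := L) P).1, σ (c.xh (L := L) P).2) := by
    intro P
    cases P with
    | none =>
      change ((1, 0) : N × N) = (σ 1, σ 0)
      rw [map_one, map_zero]
    | some φ =>
      change ((σ (φ c.X), 1) : N × N) = (σ (φ c.X), σ 1)
      rw [map_one]
  exact key P

theorem eta_map {N : Type} [Field N] [Algebra M N] (σ : L →ₐ[M] N) (P : C.V.pt L) :
    c.eta (C.V.map σ P) = σ (c.eta P) := by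
  have key : ∀ P : Option (C.A →ₐ[M] L),
      c.eta (L := N) (P.map fun φ => σ.comp φ : Option (C.A →ₐ[M] N)) =
        σ (c.eta (L := L) P) := by
    intro P
    cases P with
    | none =>
      change (0 : N) = σ 0
      rw [map_zero]
    | some φ => rfl
  exact key P

/-- Proof: `fm_one`, `fm_inf` (`a.coeff (n * r) = 0`). -/
theorem eta_pow {r : ℕ} (h : a.natDegree + 1 = n * r) (P : C.V.pt L) :
    c.eta P ^ n = fm (n * r) a (c.xh P) := by
  have hn : n ≠ 0 := by
    rintro rfl
    rw [zero_mul] at h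
    exact Nat.succ_ne_zero _ h
  have key : ∀ P : Option (C.A →ₐ[M] L),
      c.eta (L := L) P ^ n = fm (n * r) a (c.xh (L := L) P) := by
    intro P
    cases P with
    | none =>
      change (0 : L) ^ n = fm (n * r) a ((1, 0) : L × L)
      rw [fm_inf, coeff_eq_zero_of_natDegree_lt (by omega), map_zero, zero_pow hn]
    | some φ =>
      change φ c.U ^ n = fm (n * r) a (φ c.X, (1 : L))
      rw [fm_one (by omega), ← map_pow, c.eq, aeval_algHom_apply]
  exact key P

/-- There is a point with given coordinates. -/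
theorem exists_pt {x u : L} (h : u ^ n = aeval x a) :
    ∃ P : C.V.pt L, c.xh P = (x, 1) ∧ c.eta P = u := by
  obtain ⟨φ, h1, h2⟩ := c.lift L x u h
  refine ⟨(some φ : Option (C.A →ₐ[M] L)), ?_, h2⟩
  change ((φ c.X, 1) : L × L) = (x, 1)
  rw [h1]

/-- The point `(x, ζ u)`. -/
theorem exists_zm (ζ : rootsOfUnity n L) (P : C.V.pt L) :
    ∃ P' : C.V.pt L, c.xh P' = c.xh P ∧ c.eta P' = ((ζ : Lˣ) : L) * c.eta P := by
  have key : ∀ P : Option (C.A →ₐ[M] L), ∃ P' : Option (C.A →ₐ[M] L),
      c.xh (L := L) P' = c.xh (L := L) P ∧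
        c.eta (L := L) P' = ((ζ : Lˣ) : L) * c.eta (L := L) P := by
    intro P
    cases P with
    | none =>
      refine ⟨none, rfl, ?_⟩
      change (0 : L) = ((ζ : Lˣ) : L) * 0
      rw [mul_zero]
    | some φ =>
      have hz : ((ζ : Lˣ) : L) ^ n = 1 := by
        have h1 := (mem_rootsOfUnity n (ζ : Lˣ)).1 ζ.2
        have h2 := congrArg (fun u : Lˣ => (u : L)) h1
        simpa using h2
      obtain ⟨P', h1, h2⟩ := c.exists_pt (x := φ c.X) (u := ((ζ : Lˣ) : L) * φ c.U) (by
        rw [mul_pow, hz, one_mul, ← map_pow, c.eq, aeval_algHom_apply])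
      exact ⟨P', h1, h2⟩
  exact key P

/-- The point `(x, ζ u)`. -/
noncomputable def zm (ζ : rootsOfUnity n L) (P : C.V.pt L) : C.V.pt L := (c.exists_zm ζ P).choose

theorem xh_zm (ζ : rootsOfUnity n L) (P : C.V.pt L) : c.xh (c.zm ζ P) = c.xh P :=
  (c.exists_zm ζ P).choose_spec.1

theorem eta_zm (ζ : rootsOfUnity n L) (P : C.V.pt L) :
    c.eta (c.zm ζ P) = ((ζ : Lˣ) : L) * c.eta P :=
  (c.exists_zm ζ P).choose_spec.2

theorem zm_mul (ζ ζ' : rootsOfUnity n L) (P : C.V.pt L) :
    c.zm (ζ * ζ') P = c.zm ζ (c.zm ζ' P) := by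
  apply c.ext
  · rw [c.xh_zm, c.xh_zm, c.xh_zm]
  · rw [c.eta_zm, c.eta_zm, c.eta_zm]
    push_cast
    ring

theorem zm_one (P : C.V.pt L) : c.zm 1 P = P := by
  apply c.ext
  · rw [c.xh_zm]
  · rw [c.eta_zm]
    simp

theorem zm_map {N : Type} [Field N] [Algebra M N] (σ : L →ₐ[M] N) (ζ : rootsOfUnity n L)
    (P : C.V.pt L) :
    C.V.map σ (c.zm ζ P) = c.zm (restrictRootsOfUnity (σ : L →+* N) n ζ) (C.V.map σ P) := by
  apply c.ext
  · rw [c.xh_zm, c.xh_map, c.xh_map, c.xh_zm]
  · rw [c.eta_zm, c.eta_map, c.eta_map, c.eta_zm, map_mul]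
    rfl

/-- Points with proportional `xh`. -/
theorem xh_eq (hn : n ≠ 0) {P P' : C.V.pt L} {b : L}
    (h : c.xh P' = (b * (c.xh P).1, b * (c.xh P).2)) :
    b = 1 ∧ ∃ ζ : rootsOfUnity n L, P' = c.zm ζ P := by
  have key : ∀ P P' : Option (C.A →ₐ[M] L),
      c.xh (L := L) P' = (b * (c.xh (L := L) P).1, b * (c.xh (L := L) P).2) →
      b = 1 ∧ ∃ ζ : rootsOfUnity n L, P' = c.zm (L := L) ζ P := by
    intro P P' h
    cases P with
    | none =>
      cases P' with
      | none =>
        have h1 : (1 : L) = b * 1 := congrArg Prod.fst h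
        refine ⟨by rw [h1, mul_one], 1, ?_⟩
        exact (c.zm_one (L := L) (none : Option (C.A →ₐ[M] L))).symm
      | some ψ =>
        have h1 : (1 : L) = b * 0 := congrArg Prod.snd h
        rw [mul_zero] at h1
        exact absurd h1 one_ne_zero
    | some φ =>
      cases P' with
      | none =>
        have h1 : (1 : L) = b * φ c.X := congrArg Prod.fst h
        have h2 : (0 : L) = b * 1 := congrArg Prod.snd h
        rw [mul_one] at h2
        rw [← h2, zero_mul] at h1
        exact absurd h1 one_ne_zero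
      | some ψ =>
        have h1 : ψ c.X = b * φ c.X := congrArg Prod.fst h
        have h2 : (1 : L) = b * 1 := congrArg Prod.snd h
        rw [mul_one] at h2
        rw [← h2, one_mul] at h1
        refine ⟨h2.symm, ?_⟩
        have h3 : ψ c.U ^ n = φ c.U ^ n := by
          rw [← map_pow, ← map_pow, c.eq, ← aeval_algHom_apply, ← aeval_algHom_apply, h1]
        by_cases h0 : φ c.U = 0
        · refine ⟨1, ?_⟩
          rw [h0, zero_pow hn] at h3
          have h4 : ψ c.U = 0 := (pow_eq_zero_iff hn).1 h3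
          have h5 := c.zm_one (L := L) (some φ : Option (C.A →ₐ[M] L))
          have h6 : ψ = φ := c.hom_ext h1 (by rw [h4, h0])
          rw [h6]
          exact h5.symm
        · have h4 : ψ c.U ≠ 0 := by
            intro h4
            rw [h4, zero_pow hn] at h3
            exact h0 ((pow_eq_zero_iff hn).1 h3.symm)
          have h5 : (ψ c.U / φ c.U) ^ n = 1 := by
            rw [div_pow, h3, div_self (pow_ne_zero n h0)]
          refine ⟨⟨Units.mk0 (ψ c.U / φ c.U) (div_ne_zero h4 h0), ?_⟩, ?_⟩
          · rw [mem_rootsOfUnity]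
            ext
            simpa using h5
          · refine c.ext (L := L) (P := _) (P' := (some ψ : Option (C.A →ₐ[M] L))) ?_ ?_
            · rw [c.xh_zm]
              change ((ψ c.X, 1) : L × L) = (φ c.X, 1)
              rw [h1]
            · rw [c.eta_zm]
              change ψ c.U = (ψ c.U / φ c.U) * φ c.U
              rw [div_mul_cancel₀ _ h0]
  exact key P P' h

/-- Every point of the projective line is the `x`-coordinate of a point. Proof: `IsAlgClosed.exists_pow_nat_eq`. -/
theorem xh_surj [IsAlgClosed L] (hn : 0 < n) {v : L × L} (hv : v ≠ 0) :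
    ∃ (P : C.V.pt L) (b : L), b ≠ 0 ∧ v = (b * (c.xh P).1, b * (c.xh P).2) := by
  by_cases h2 : v.2 = 0
  · refine ⟨(none : Option (C.A →ₐ[M] L)), v.1, ?_, ?_⟩
    · intro h1
      exact hv (Prod.ext h1 h2)
    · refine Prod.ext ?_ ?_
      · exact (mul_one _).symm
      · exact h2.trans (mul_zero _).symm
  · obtain ⟨u, hu⟩ := IsAlgClosed.exists_pow_nat_eq (aeval (v.1 / v.2) a) hn
    obtain ⟨P, h3, _⟩ := c.exists_pt hu
    refine ⟨P, v.2, h2, ?_⟩
    rw [h3]
    refine Prod.ext ?_ ?_
    · change v.1 = v.2 * (v.1 / v.2)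
      rw [mul_div_cancel₀ _ h2]
    · exact (mul_one _).symm

end Cu

end QS
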