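import Pool.Agent.Lib.MP_f80667_ag.Qs.Kp
import Pool.Agent.Lib.MP_f80667_ag.Cv.SeE

/-! The curves `u ^ n = a(x)` and their good reduction. -/

open ZC BE PE CV Polynomial IntermediateField

namespace QS

section cu

variable {M : Type} [Field M]

/-- The curve `u ^ n = a(x)`. Proof: `Se.crv`, `Se.psRg`, `Se.crv_deg` in `Cv/SeC.lean`. -/
theorem exists_cu [CharZero M] {n : ℕ} (hn : 2 ≤ n) {a : M[X]} (ha : a.Separable)
    (hd : 0 < a.natDegree) (hco : n.Coprime a.natDegree) : ∃ C : Crv M, Nonempty (Cu C n a) := by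
  have hn0 : 0 < n := by omega
  have hM : (n : M) ≠ 0 := Nat.cast_ne_zero.2 hn0.ne'
  exact ⟨Se.crv hn0 hM ha hd hco, ⟨
    { X := Se.gx n a
      U := Se.gu n a
      eq := Se.gu_pow n a
      gen := Se.gen hn0.ne' a
      lift := fun B _ _ x u h => (Se.psRg hn0 a).lift B x u h
      deg := Se.crv_deg hn0 hM ha hd hco }⟩⟩

/-- The presentation in the letters of `Cv/SeC.lean`. -/
def Cu.ps {C : Crv M} {n : ℕ} {a : M[X]} (c : Cu C n a) : Se.Ps M C.A n a where
  x := c.X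
  u := c.U
  eq := c.eq
  gen := c.gen
  lift := c.lift

end cu

private theorem gdA_cop {n r d : ℕ} (hn : 2 ≤ n) (h : d + 1 = n * r) : 0 < d ∧ n.Coprime d := by
  have hr : 0 < r := by
    rcases Nat.eq_zero_or_pos r with h0 | h0
    · rw [h0, Nat.mul_zero] at h
      omega
    · exact h0
  have h1 : n * 1 ≤ n * r := Nat.mul_le_mul_left n hr
  refine ⟨by omega, ?_⟩
  have h2 : n.gcd d ∣ 1 := by
    have h3 : n.gcd d ∣ d + 1 := by
      rw [h]
      exact (Nat.gcd_dvd_left n d).trans (dvd_mul_right n r)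
    exact (Nat.dvd_add_right (Nat.gcd_dvd_right n d)).1 h3
  exact Nat.dvd_one.1 h2

private theorem gdA_deg {O M : Type} [CommRing O] [Field M] [Algebra O M] {a₀ : O[X]}
    (la : IsUnit a₀.leadingCoeff) :
    (a₀.map (algebraMap O M)).natDegree = a₀.natDegree :=
  natDegree_map_of_leadingCoeff_ne_zero _ (la.map (algebraMap O M)).ne_zero

private theorem gdA_sep {O M : Type} [CommRing O] [Field M] [Algebra O M] {a₀ : O[X]}
    (sa : ∃ b c : O[X], b * a₀ + c * derivative a₀ = 1) :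
    (a₀.map (algebraMap O M)).Separable := by
  obtain ⟨b, c, h⟩ := sa
  refine ⟨b.map (algebraMap O M), c.map (algebraMap O M), ?_⟩
  rw [derivative_map, ← Polynomial.map_mul, ← Polynomial.map_mul, ← Polynomial.map_add, h,
    Polynomial.map_one]

section kdt

variable {F M : Type} [Field F] [Field M] [CharZero M] [Algebra F M] {D : Dat F} {O : Type}
  [CommRing O] [IsLocalRing O] [Algebra O M]

/-- The data of two good polynomials. Proof: `exists_cu` (`n` is prime to `n r - 1`), `Se.mod_good`; a relation `b a₀ + c a₀' = 1` gives the separability. -/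
theorem kdt_good (hn : 2 ≤ D.n) (hu : IsUnit (D.n : O)) {a₀ b₀ : O[X]}
    (ha : a₀.natDegree + 1 = D.n * D.r) (hb : b₀.natDegree + 1 = D.n * D.s)
    (la : IsUnit a₀.leadingCoeff) (lb : IsUnit b₀.leadingCoeff)
    (sa : ∃ b c : O[X], b * a₀ + c * derivative a₀ = 1)
    (sb : ∃ b c : O[X], b * b₀ + c * derivative b₀ = 1)
    (qa : Nonempty (Qa (D.n * D.r) D.f (a₀.map (algebraMap O M))))
    (qb : Nonempty (Qa (D.n * D.s) D.g (b₀.map (algebraMap O M)))) :
    ∃ κ : Kdt D M, Nonempty (Mod κ.C₁ O M) ∧ Nonempty (Mod κ.C₂ O M) := by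
  obtain ⟨hda, hca⟩ := gdA_cop hn ha
  obtain ⟨hdb, hcb⟩ := gdA_cop hn hb
  obtain ⟨Q₁⟩ := qa
  obtain ⟨Q₂⟩ := qb
  obtain ⟨C₁, ⟨c₁⟩⟩ := exists_cu hn (gdA_sep (M := M) sa) (by rw [gdA_deg la]; exact hda)
    (by rw [gdA_deg la]; exact hca)
  obtain ⟨C₂, ⟨c₂⟩⟩ := exists_cu hn (gdA_sep (M := M) sb) (by rw [gdA_deg lb]; exact hdb)
    (by rw [gdA_deg lb]; exact hcb)
  refine ⟨{
    hn := hn
    C₁ := C₁
    C₂ := C₂
    a := a₀.map (algebraMap O M)
    b := b₀.map (algebraMap O M)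
    c₁ := c₁
    c₂ := c₂
    sa := gdA_sep sa
    sb := gdA_sep sb
    da := (congrArg (· + 1) (gdA_deg la)).trans ha
    db := (congrArg (· + 1) (gdA_deg lb)).trans hb
    m₁ := Q₁
    m₂ := Q₂ },
    ?_, ?_⟩
  · exact Se.mod_good c₁.ps (by omega) hu la hda hca sa
  · exact Se.mod_good c₂.ps (by omega) hu lb hdb hcb sb

end kdt

end QS
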