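import Pool.Agent.Lib.MP_f80667_ag.Qs.Fam

/-! The surfaces `(x ^ p + α) s ^ n = (y ^ q + β) t ^ n`: good reduction at the places above `l`. -/

open ZC BE PE CV Polynomial IntermediateField

namespace QS

variable {F : Type} [Field F] {n p q : ℕ} {α β : F}

variable {K Ω : Type} [Field K] [CharZero K] [Field Ω] [Algebra K Ω]
  [Algebra F K] [Algebra F Ω] [IsScalarTower F K Ω] [IsAlgClosure K Ω]

private theorem famG_mem {M Ω' : Type} [Field M] [Field Ω'] [Algebra M Ω'] {L' : Ld M Ω'} {x : M}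
    (h : L'.nm (algebraMap M Ω' x) ≤ 1) : x ∈ Ok L' := h

private theorem famG_unit {M Ω' : Type} [Field M] [Field Ω'] [Algebra M Ω'] {L' : Ld M Ω'}
    (x : Ok L') (h : L'.nm (algebraMap M Ω' (x : M)) = 1) : IsUnit x := by
  have hx : (x : M) ≠ 0 := by
    intro h0
    rw [h0, map_zero, L'.zero] at h
    exact zero_ne_one h
  have hi : (x : M)⁻¹ ∈ Ok L' := by
    refine famG_mem ?_
    rw [map_inv₀, L'.inv, h, inv_one]
  exact IsUnit.of_mul_eq_one (⟨(x : M)⁻¹, hi⟩ : Ok L') (Subtype.ext (mul_inv_cancel₀ hx))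

private theorem famG_nat {M Ω' : Type} [Field M] [Field Ω'] [Algebra M Ω'] {L' : Ld M Ω'} {m : ℕ}
    (h : L'.nm (m : Ω') = 1) : IsUnit (m : Ok L') := by
  refine famG_unit _ ?_
  have e : (((m : Ok L') : Ok L') : M) = (m : M) := by
    exact map_natCast (Ok L').subtype m
  rw [e, map_natCast]
  exact h

/-- The polynomial `X ^ p + α` over a ring in which `p` and `α` are units. -/
private theorem famG_bz {O : Type} [CommRing O] {m : ℕ} (hm : m ≠ 0) {a : O} (ha : IsUnit a)
    (hu : IsUnit (m : O)) : ∃ b c : O[X], b * (X ^ m + C a) + c * derivative (X ^ m + C a) = 1 := by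
  obtain ⟨a', ha'⟩ := ha.exists_left_inv
  obtain ⟨u, hu'⟩ := hu.exists_left_inv
  refine ⟨C a', -(C (a' * u) * X), ?_⟩
  obtain ⟨k, rfl⟩ := Nat.exists_eq_succ_of_ne_zero hm
  have e1 : derivative (X ^ (k + 1) + C a : O[X]) = C ((k + 1 : ℕ) : O) * X ^ k := by
    rw [derivative_add, derivative_C, add_zero, derivative_X_pow, Nat.add_sub_cancel]
  have e2 : (C u * C ((k + 1 : ℕ) : O) : O[X]) = 1 := by
    rw [← C_mul, hu', C_1]
  have e3 : (C a' * C a : O[X]) = 1 := by
    rw [← C_mul, ha', C_1]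
  rw [Nat.succ_eq_add_one, e1, C_mul]
  linear_combination e3 - C a' * X ^ (k + 1) * e2

private theorem famG_deg {O : Type} [CommRing O] [Nontrivial O] {m : ℕ} (hm : m ≠ 0) (a : O) :
    (X ^ m + C a : O[X]).natDegree = m ∧ IsUnit (X ^ m + C a : O[X]).leadingCoeff := by
  refine ⟨natDegree_X_pow_add_C, ?_⟩
  rw [leadingCoeff_X_pow_add_C (Nat.pos_of_ne_zero hm)]
  exact isUnit_one

/-- **Good reduction** at the places above `l`. Proof: `M = ⊥`, `exists_bsL`; `n`, `p`, `q` are units (`nat_unit`, `l = L.p`), `α`, `β` are units: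
`kdt_good` for the polynomials `X ^ p + α`, `X ^ q + β` over `Ok L'` (`α⁻¹ (a - X a' / p) = 1`); the elements of `⊥` come from `K`, so `Er L' l`. -/
theorem fam_good (L : Ld K Ω) (hn : n.Prime) (hp : p.Prime) (hq : q.Prime) (hnp : n ∣ p + 1)
    (hnq : n ∣ q + 1) {l : ℕ} (hl : l.Prime) (hd : ¬ l ∣ n * p * q) (hlp : l = L.p)
    (hα : L.nm (algebraMap F Ω α) = 1) (hβ : L.nm (algebraMap F Ω β) = 1) (he : Er L l) :
    Pgd (fam n p q α β) L l := by
  obtain ⟨L', -, hL'⟩ := L.exists_bsL (⊥ : IntermediateField K Ω)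
  have hu : ∀ m : ℕ, ¬ l ∣ m → IsUnit (m : Ok L') := by
    intro m hm
    refine famG_nat ?_
    rw [hL']
    refine L.nat_unit ?_
    rw [← hlp]
    exact hm
  have hun : IsUnit (n : Ok L') := hu n fun h => hd (Dvd.dvd.mul_right (Dvd.dvd.mul_right h p) q)
  have hup : IsUnit (p : Ok L') := hu p fun h => hd (Dvd.dvd.mul_right (Dvd.dvd.mul_left h n) q)
  have huq : IsUnit (q : Ok L') := hu q fun h => hd (Dvd.dvd.mul_left h (n * p))
  have htow : IsScalarTower F (⊥ : IntermediateField K Ω) Ω := IsScalarTower.of_algebraMap_eq fun _ => rfl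
  have hx : ∀ x : F, L.nm (algebraMap F Ω x) = 1 → ∃ y : Ok L', IsUnit y ∧
      algebraMap (Ok L') (⊥ : IntermediateField K Ω) y = algebraMap F (⊥ : IntermediateField K Ω) x := by
    intro x hx
    have h1 : L'.nm (algebraMap (⊥ : IntermediateField K Ω) Ω
        (algebraMap F (⊥ : IntermediateField K Ω) x)) = 1 := by
      rw [hL', ← IsScalarTower.algebraMap_apply F (⊥ : IntermediateField K Ω) Ω]
      exact hx
    exact ⟨⟨algebraMap F (⊥ : IntermediateField K Ω) x, h1.le⟩, famG_unit _ h1, rfl⟩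
  obtain ⟨a, ha, ea⟩ := hx α hα
  obtain ⟨b, hb, eb⟩ := hx β hβ
  have hpol : ∀ (m : ℕ) (x : F) (y : Ok L'),
      algebraMap (Ok L') (⊥ : IntermediateField K Ω) y = algebraMap F (⊥ : IntermediateField K Ω) x →
      (X ^ m + C x : F[X]).map (algebraMap F (⊥ : IntermediateField K Ω)) =
        (X ^ m + C y : Polynomial (Ok L')).map (algebraMap (Ok L') (⊥ : IntermediateField K Ω)) := by
    intro m x y h
    rw [Polynomial.map_add, Polynomial.map_add, Polynomial.map_pow, Polynomial.map_pow, map_X, map_X,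
      map_C, map_C, h]
  have hdp := famG_deg hp.ne_zero a
  have hdq := famG_deg hq.ne_zero b
  obtain ⟨κ, h1, h2⟩ := kdt_good (M := (⊥ : IntermediateField K Ω)) (D := fam n p q α β) (O := Ok L')
    hn.two_le hun (a₀ := X ^ p + C a) (b₀ := X ^ q + C b)
    (by rw [hdp.1]; exact (Nat.mul_div_cancel' hnp).symm)
    (by rw [hdq.1]; exact (Nat.mul_div_cancel' hnq).symm) hdp.2 hdq.2
    (famG_bz hp.ne_zero ha hup) (famG_bz hq.ne_zero hb huq)
    (by rw [← hpol p α a ea]; exact id_qa _ _) (by rw [← hpol q β b eb]; exact id_qa _ _)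
  refine ⟨⊥, inferInstance, L', κ, ?_, hL', ?_, h1, h2⟩
  · rw [IntermediateField.finrank_bot]
    exact hl.one_lt.ne' ∘ Nat.dvd_one.1
  · intro x hx1
    obtain ⟨k, hk⟩ := IntermediateField.mem_bot.1 x.2
    have e : algebraMap (⊥ : IntermediateField K Ω) Ω x = algebraMap K Ω k := hk.symm
    rw [e, hL'] at hx1 ⊢
    rw [hL']
    exact he k hx1

end QS
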