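import Pool.Agent.Lib.MP_f80667_ag.Qs.GlA
import Pool.Agent.Lib.MP_f80667_ag.Qs.FamG

/-! The surfaces `(x ^ p + α) s ^ n = (y ^ q + β) t ^ n` at the places of a number field. -/

open ZC BE PE CV Polynomial IntermediateField IsDedekindDomain NumberField

namespace QS

section nf

variable {F : Type} [Field F] [NumberField F]

/-- **The family.** -/
theorem fam_pl (hcp : Cpl) {n p q : ℕ} (hn : n.Prime) (hp : p.Prime) (hq : q.Prime)
    (hnp : n ∣ p + 1) (hnq : n ∣ q + 1) {α β : F} (hα : α ≠ 0) (hβ : β ≠ 0) {l : ℕ}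
    (h : Fl n p q α β l) (v : HeightOneSpectrum (𝓞 F)) :
    Dq (Sv (fam n p q α β)) (FK F v) (AlgebraicClosure (FK F v)) l := by
  have hc : CharZero (FK F v) := charZero_of_injective_algebraMap (algebraMap F (FK F v)).injective
  obtain ⟨L, h1, h2, h3⟩ := exists_er v
  have hle : v.valuation F (l : F) ≤ 1 := by
    have h4 : (l : F) = algebraMap (𝓞 F) F (l : 𝓞 F) := (map_natCast _ l).symm
    rw [h4]
    exact v.valuation_le_one _
  have hd : n * (n - 1) * p * (p - 1) * q * (q - 1) = n * p * q * ((n - 1) * (p - 1) * (q - 1)) := by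
    ring
  have hnd : ¬ l ∣ n * p * q := fun h4 => h.nd (hd ▸ h4.mul_right _)
  have hn' : ¬ l ∣ (fam n p q α β).n := fun h4 =>
    hnd (((h4 : l ∣ n).mul_right p).mul_right q)
  rcases hle.lt_or_eq with hv | hv
  · have h4 : L.nm (l : AlgebraicClosure (FK F v)) < 1 := by
      rw [← map_natCast (algebraMap F (AlgebraicClosure (FK F v))) l]
      exact h2 _ hv
    have hlp : l = L.p := by
      by_contra hne
      have h5 : ¬ L.p ∣ l := fun h6 => hne ((Nat.prime_dvd_prime_iff_eq L.pp h.pr).1 h6).symm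
      rw [L.nat_unit h5] at h4
      exact lt_irrefl _ h4
    obtain ⟨ha, hb⟩ := h.un v hv
    exact dq_pgd hcp h.pr hn' (fam_good L hn hp hq hnp hnq h.pr hnd hlp (h1 α ha) (h1 β hb)
      (h3 l h.pr (h.ram v)))
  · have hlp : l ≠ L.p := by
      intro e
      have h5 := h1 (l : F) hv
      rw [map_natCast, e] at h5
      exact absurd L.lt (not_lt.2 h5.ge)
    exact dq_pgd hcp h.pr hn' (fam_pot L hn hp hq hnp hnq hα hβ h.pr h.nd hlp)

end nf

end QS
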