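import Pool.Agent.Lib.MP_f80667_ag.Qs.GlP
import Pool.Agent.Lib.MP_f80667_ag.Qs.GlF

/-! Zero-cycles on the surfaces `f(x) s ^ n = g(y) t ^ n` over number fields. -/

open ZC BE PE CV Polynomial IntermediateField IsDedekindDomain NumberField

namespace QS

section nf

variable {F : Type} [Field F] [NumberField F]

/-- From the local statements to the completion. -/
theorem glob {V : Vr F} {Λ : Set ℕ} (h2 : 2 ∉ Λ)
    (h : ∀ l ∈ Λ, l.Prime → ∀ v : HeightOneSpectrum (𝓞 F),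
      Dq V (FK F v) (AlgebraicClosure (FK F v)) l) :
    (∀ m : ℕ, m ≠ 0 → Sf Λ m → ∀ c : Fam V, ∃ c' : Fam V, c.cl = m • c'.cl) ∧
      ∀ z : LHat (FA V), ImDeS Λ z := by
  have key : ∀ m : ℕ, m ≠ 0 → Sf Λ m → ∀ c : Fam V, ∃ c' : Fam V, c.cl = m • c'.cl := by
    intro m hm hS
    have hodd : Odd m := by
      rw [← Nat.not_even_iff_odd, even_iff_two_dvd]
      exact fun h' => h2 (hS 2 Nat.prime_two h')
    exact fam_m hodd fun v => dm_cl (dq_prime hm fun l hl hd => h l (hS l hl hd) hl v)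
  exact ⟨key, im_m key⟩

/-- **Theorem**, all surfaces. -/
theorem main_S (hcp : Cpl) {D : Dat F} (hD : D.Ok) :
    ∃ B : Set (HeightOneSpectrum (𝓞 F)), B.Finite ∧
      (∀ v ∉ B, ∀ m : ℕ, m ≠ 0 → (∀ l : ℕ, l.Prime → l ∣ m → Pm D l) →
        Dq (Sv D) (FK F v) (AlgebraicClosure (FK F v)) m) ∧
      ∀ Λ : Set ℕ, (∀ l ∈ Λ, l.Prime ∧ l ≠ 2 ∧ Pm D l ∧ ∀ v ∈ B,
          Dq (Sv D) (FK F v) (AlgebraicClosure (FK F v)) l) →
        (∀ m : ℕ, m ≠ 0 → Sf Λ m → ∀ c : Fam (Sv D), ∃ c' : Fam (Sv D), c.cl = m • c'.cl) ∧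
          ∀ z : LHat (FA (Sv D)), ImDeS Λ z := by
  refine ⟨Bad D, bad_fin hD, fun v hv m hm h => dq_prime hm fun l hl hd =>
    good_pl hcp hD hv hl (h l hl hd), fun Λ h => glob (fun h2 => (h 2 h2).2.1 rfl) ?_⟩
  intro l hl hp v
  by_cases hv : v ∈ Bad D
  · exact (h l hl).2.2.2 v hv
  · exact good_pl hcp hD hv hp (h l hl).2.2.1

/-- **Theorem**, the family. -/
theorem main_fam (hcp : Cpl) {n p q : ℕ} (hn : n.Prime) (hp : p.Prime) (hq : q.Prime)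
    (hnp : n ∣ p + 1) (hnq : n ∣ q + 1) {α β : F} (hα : α ≠ 0) (hβ : β ≠ 0) :
    (∀ m : ℕ, m ≠ 0 → Sf {l | Fl n p q α β l} m → ∀ c : Fam (Sv (fam n p q α β)),
      ∃ c' : Fam (Sv (fam n p q α β)), c.cl = m • c'.cl) ∧
      ∀ z : LHat (FA (Sv (fam n p q α β))), ImDeS {l | Fl n p q α β l} z := by
  refine glob (fun h => h.nd ?_) fun l hl _ v => fam_pl hcp hn hp hq hnp hnq hα hβ hl v
  have h1 : 2 ∣ p * (p - 1) := by
    rw [← even_iff_two_dvd]
    exact Nat.even_mul_pred_self p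
  have h2 : n * (n - 1) * p * (p - 1) * q * (q - 1) = p * (p - 1) * (n * (n - 1) * q * (q - 1)) := by
    ring
  rw [h2]
  exact h1.mul_right _

end nf

end QS
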