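import Pool.Agent.Lib.MP_f80667_ag.Qs.BrA
import Pool.Agent.Lib.MP_f80667_ag.Cv.LocN

/-! The local theorem for two curves. -/

open ZC BE PE CV Polynomial IntermediateField

namespace QS

/-- The local theorem for two curves. -/
theorem cpl : Cpl := by
  intro K Ω _ _ _ _ _ L C₁ C₂ ⟨m₁⟩ ⟨m₂⟩ l hl he z hz h1 h2
  obtain ⟨z', h3, -, -, h4⟩ := loc₂ m₁ m₂ hl (er_nmem L he) z hz h1 h2
  exact ⟨z', h3, h4⟩

end QS
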