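import Pool.Agent.Lib.MP_f80667_ag.Qs.Gl

/-!
Quotients by an involution.

* `Invo V`: an involution of `V`, `Qv ι`: the quotient (the points over an algebraically closed field are the orbits).
* `dq_qv`: for odd `m` divisibility for `V` implies divisibility for the quotient.
* `sq n r f`: the surface `f(x) s ^ n = f(y) t ^ n`, `swp`: the involution `(x, y, [s : t]) ↦ (y, x, [t : s])`, `Sw n r f`: the
  quotient. For `n = 2` and `f` of degree `5` or `6` it is birational to the Kummer surface of the Jacobian of the curve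
  `y² = f(x)`.
-/

open ZC BE PE CV Polynomial IntermediateField IsDedekindDomain NumberField

namespace QS

section quo

variable {F : Type} [Field F]

/-- An involution. -/
structure Invo (V : Vr F) where
  /-- the morphism -/
  t : Mo V V
  tt : ∀ (L : Type) [Field L] [Algebra F L] (x : V.pt L), t.f L (t.f L x) = x

variable {V : Vr F} (ι : Invo V)

/-- The orbits. -/
def Invo.sd (L : Type) [Field L] [Algebra F L] : Setoid (V.pt L) where
  r x y := y = x ∨ y = ι.t.f L x
  iseqv := by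
    refine ⟨fun x => Or.inl rfl, ?_, ?_⟩
    · rintro x y (rfl | rfl)
      · exact Or.inl rfl
      · exact Or.inr (ι.tt L x).symm
    · rintro x y z (rfl | rfl) (rfl | rfl)
      · exact Or.inl rfl
      · exact Or.inr rfl
      · exact Or.inr rfl
      · exact Or.inl (ι.tt L x)

/-- The quotient. -/
def Qv : Vr F where
  pt L _ _ := Quotient (ι.sd L)
  map {L M} _ _ _ _ σ := Quotient.map' (V.map σ) fun x y h => by
    rcases h with rfl | rfl
    · exact Or.inl rfl
    · exact Or.inr (ι.t.nat L M σ x)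
  red w x y := ∃ P Q, x = Quotient.mk _ P ∧ y = Quotient.mk _ Q ∧ V.red w P Q

/-- The quotient map. -/
def qmo : Mo V (Qv ι) where
  f L _ _ x := Quotient.mk (ι.sd L) x
  nat _ _ _ _ _ _ _ _ := rfl
  red _ _ _ _ _ _ _ _ _ _ _ x y h := ⟨x, y, rfl, rfl, h⟩

section pull

variable {Ω : Type} [Field Ω] [Algebra F Ω]

/-- The inverse image of a point. -/
noncomputable def qpt (x : (Qv ι).pt Ω) : V.pt Ω →₀ ℤ :=
  Quotient.lift (s := ι.sd Ω) (fun P => Finsupp.single P 1 + Finsupp.single (ι.t.f Ω P) 1)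
    (by
      rintro a b (rfl | rfl)
      · rfl
      · rw [ι.tt, add_comm]) x

/-- The inverse image of a cycle. -/
noncomputable def qpl : ((Qv ι).pt Ω →₀ ℤ) →+ (V.pt Ω →₀ ℤ) :=
  Finsupp.liftAddHom fun x => (smulAddHom ℤ (V.pt Ω →₀ ℤ)).flip (qpt ι x)

theorem qpl_single (x : (Qv ι).pt Ω) (n : ℤ) : qpl ι (Finsupp.single x n) = n • qpt ι x := by
  unfold qpl
  rw [Finsupp.liftAddHom_apply_single]
  rfl

theorem push_qpl (z : (Qv ι).pt Ω →₀ ℤ) :
    Finsupp.mapDomain ((qmo ι).f Ω) (qpl ι z) = 2 • z := by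
  induction z using Finsupp.induction_linear with
  | zero => rw [map_zero, Finsupp.mapDomain_zero, smul_zero]
  | add f g hf hg => rw [map_add, Finsupp.mapDomain_add, hf, hg, smul_add]
  | single a n =>
    rw [qpl_single]
    have h1 : Finsupp.mapDomain ((qmo ι).f Ω) (n • qpt ι a) =
        n • Finsupp.mapDomain ((qmo ι).f Ω) (qpt ι a) :=
      (Finsupp.mapDomain.addMonoidHom (M := ℤ) ((qmo ι).f Ω)).map_zsmul _ _
    rw [h1]
    induction a using Quotient.inductionOn with
    | h P =>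
      have h2 : qpt ι (Quotient.mk (ι.sd Ω) P) =
          Finsupp.single P 1 + Finsupp.single (ι.t.f Ω P) 1 := rfl
      have h3 : (qmo ι).f Ω (ι.t.f Ω P) = (qmo ι).f Ω P :=
        Quotient.sound (s := ι.sd Ω) (Or.inr (ι.tt Ω P).symm)
      rw [h2, Finsupp.mapDomain_add, Finsupp.mapDomain_single, Finsupp.mapDomain_single, h3,
        ← Finsupp.single_add, Finsupp.smul_single, Finsupp.smul_single]
      congr 1
      simp only [smul_eq_mul, nsmul_eq_mul]
      ring

variable {K : Type} [Field K] [Algebra F K] [Algebra K Ω] [IsScalarTower F K Ω]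

theorem qpl_act (γ : Ω ≃ₐ[K] Ω) (z : (Qv ι).pt Ω →₀ ℤ) :
    Finsupp.mapDomain (V.act γ) (qpl ι z) = qpl ι (Finsupp.mapDomain ((Qv ι).act γ) z) := by
  induction z using Finsupp.induction_linear with
  | zero => rw [map_zero, Finsupp.mapDomain_zero, Finsupp.mapDomain_zero, map_zero]
  | add f g hf hg => rw [map_add, Finsupp.mapDomain_add, Finsupp.mapDomain_add, map_add, hf, hg]
  | single a n =>
    rw [Finsupp.mapDomain_single, qpl_single, qpl_single]
    have h1 : Finsupp.mapDomain (V.act γ) (n • qpt ι a) =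
        n • Finsupp.mapDomain (V.act γ) (qpt ι a) :=
      (Finsupp.mapDomain.addMonoidHom (M := ℤ) (V.act γ)).map_zsmul _ _
    rw [h1]
    congr 1
    induction a using Quotient.inductionOn with
    | h P =>
      have h2 : qpt ι (Quotient.mk (ι.sd Ω) P) =
          Finsupp.single P 1 + Finsupp.single (ι.t.f Ω P) 1 := rfl
      have h3 : qpt ι ((Qv ι).act γ (Quotient.mk (ι.sd Ω) P)) =
          Finsupp.single (V.act γ P) 1 + Finsupp.single (ι.t.f Ω (V.act γ P)) 1 := rfl
      rw [h2, h3, Finsupp.mapDomain_add, Finsupp.mapDomain_single, Finsupp.mapDomain_single,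
        ι.t.act]

/-- Divisibility for the quotient. -/
theorem dq_qv {m : ℕ} (hm : Odd m) (h : Dq V K Ω m) : Dq (Qv ι) K Ω m := by
  intro z hz
  have h1 : qpl ι z ∈ V.D0 K Ω := by
    refine ⟨fun σ => ?_, ?_⟩
    · rw [qpl_act, hz.1 σ]
    · have h2 := Mo.deg (V := V) (V' := Qv ι) ((qmo ι).f Ω) (qpl ι z)
      rw [push_qpl, map_nsmul, show (Qv ι).deg Ω z = 0 from hz.2, smul_zero] at h2
      exact h2.symm
  obtain ⟨y, hy, hr⟩ := h _ h1
  have h3 := (qmo ι).ratEq K Ω hr
  have h4 : Finsupp.mapDomain ((qmo ι).f Ω) (qpl ι z - m • y) =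
      2 • z - m • Finsupp.mapDomain ((qmo ι).f Ω) y := by
    rw [← push_qpl]
    have e := map_sub (Finsupp.mapDomain.addMonoidHom (M := ℤ) ((qmo ι).f Ω)) (qpl ι z) (m • y)
    rw [map_nsmul] at e
    exact e
  rw [h4] at h3
  obtain ⟨k, rfl⟩ := hm
  refine ⟨z - k • Finsupp.mapDomain ((qmo ι).f Ω) y, sub_mem hz
    (nsmul_mem ((qmo ι).D0 hy) k), ?_⟩
  have h5 : z - (2 * k + 1) • (z - k • Finsupp.mapDomain ((qmo ι).f Ω) y) =
      -(k • (2 • z - (2 * k + 1) • Finsupp.mapDomain ((qmo ι).f Ω) y)) := by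
    simp only [← natCast_zsmul]
    push_cast
    module
  rw [h5]
  exact neg_mem (nsmul_mem h3 k)

end pull

end quo

section swap

variable {F : Type} [Field F] (n r : ℕ) (f : F[X])

/-- The data with `g = f`, `s = r`. -/
def sq : Dat F where
  n := n
  r := r
  s := r
  f := f
  g := f

variable {n r f} {L : Type} [Field L] [Algebra F L]

/-- The involution on coordinates. -/
def Qc.swp (P : Qc (sq n r f) L) : Qc (sq n r f) L where
  x := P.y
  y := P.x
  t := (P.t.2, P.t.1)
  hx := P.hy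
  hy := P.hx
  ht := fun h => P.ht (Prod.ext (congrArg Prod.snd h) (congrArg Prod.fst h))
  eq := P.eq.symm

theorem Qc.swp_rel {P Q : Qc (sq n r f) L} (h : P.Rel Q) : P.swp.Rel Q.swp := by
  obtain ⟨a, b, c, ha, hb, hc, h1, h2, h3⟩ := h
  refine ⟨b, a, c, hb, ha, hc, h2, h1, ?_⟩
  change (Q.t.2, Q.t.1) = _
  rw [h3]
  rfl

variable (n r f) in
/-- The involution `(x, y, [s : t]) ↦ (y, x, [t : s])`. -/
def swp : Invo (Sv (sq n r f)) where
  t := {
    f := fun L _ _ => Quotient.map' Qc.swp fun _ _ h => Qc.swp_rel h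
    nat := fun L M _ _ _ _ σ x => by
      induction x using Quotient.inductionOn with
      | h P => rfl
    red := by
      rintro K L Ω _ _ _ _ _ _ _ w x y ⟨P, Q, rfl, rfl, h1, h2, h3, h4, h5, h6⟩
      exact ⟨P.swp, Q.swp, rfl, rfl, h2, h1, h4, h3, h6, h5⟩ }
  tt L _ _ x := by
    induction x using Quotient.inductionOn with
    | h P => rfl

variable (n r f) in
/-- The quotient by the involution. -/
def Sw : Vr F := Qv (swp n r f)

end swap

section nf

variable {F : Type} [Field F] [NumberField F]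

/-- **Theorem**, the quotients by the involution. -/
theorem main_Sw (hcp : Cpl) {n r : ℕ} {f : F[X]} (hD : (sq n r f).Ok) :
    ∃ B : Set (HeightOneSpectrum (𝓞 F)), B.Finite ∧
      (∀ v ∉ B, ∀ m : ℕ, Odd m → (∀ l : ℕ, l.Prime → l ∣ m → Pm (sq n r f) l) →
        Dq (Sw n r f) (FK F v) (AlgebraicClosure (FK F v)) m) ∧
      ∀ Λ : Set ℕ, (∀ l ∈ Λ, l.Prime ∧ l ≠ 2 ∧ Pm (sq n r f) l ∧ ∀ v ∈ B,
          Dq (Sw n r f) (FK F v) (AlgebraicClosure (FK F v)) l) →
        (∀ m : ℕ, m ≠ 0 → Sf Λ m → ∀ c : Fam (Sw n r f),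
          ∃ c' : Fam (Sw n r f), c.cl = m • c'.cl) ∧
          ∀ z : LHat (FA (Sw n r f)), ImDeS Λ z := by
  refine ⟨Bad (sq n r f), bad_fin hD, fun v hv m hm h => dq_qv _ hm (dq_prime ?_ fun l hl hd =>
    good_pl hcp hD hv hl (h l hl hd)), fun Λ h => glob (fun h2 => (h 2 h2).2.1 rfl) ?_⟩
  · rintro rfl
    exact absurd hm (by decide)
  · intro l hl hp v
    by_cases hv : v ∈ Bad (sq n r f)
    · exact (h l hl).2.2.2 v hv
    · exact dq_qv _ (hp.odd_of_ne_two (h l hl).2.1) (good_pl hcp hD hv hp (h l hl).2.2.1)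

/-- **Theorem**, the family. -/
theorem main_famSw (hcp : Cpl) {n p : ℕ} (hn : n.Prime) (hp : p.Prime) (hnp : n ∣ p + 1) {α : F}
    (hα : α ≠ 0) :
    (∀ m : ℕ, m ≠ 0 → Sf {l | Fl n p p α α l} m →
      ∀ c : Fam (Sw n ((p + 1) / n) (X ^ p + C α)),
        ∃ c' : Fam (Sw n ((p + 1) / n) (X ^ p + C α)), c.cl = m • c'.cl) ∧
      ∀ z : LHat (FA (Sw n ((p + 1) / n) (X ^ p + C α))), ImDeS {l | Fl n p p α α l} z := by
  have h2 : ∀ l : ℕ, Fl n p p α α l → l ≠ 2 := by
    rintro l h rfl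
    refine h.nd ?_
    have h1 : 2 ∣ p * (p - 1) := by
      rw [← even_iff_two_dvd]
      exact Nat.even_mul_pred_self p
    have h3 : n * (n - 1) * p * (p - 1) * p * (p - 1) = p * (p - 1) * (n * (n - 1) * p * (p - 1)) := by
      ring
    rw [h3]
    exact h1.mul_right _
  refine glob (fun h => h2 2 h rfl) fun l hl hp' v => ?_
  exact dq_qv _ (hp'.odd_of_ne_two (h2 l hl)) (fam_pl hcp hn hp hp hnp hnp hα hα hl v)

end nf

end QS
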