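import Mathlib
import Pool.Agent.Lib.MP_f80667_ag.Qs.Gl
import Pool.Agent.Lib.MP_f80667_ag.Qs.Sw

/-!
The form of the statement of the hand-in.

* `Dvl V v m`: the group `A₀(V_v)` is divisible by `m`.
* `Ex V Λ`: the group `F^1_A(V)` is divisible by all `m ≠ 0` with prime factors in `Λ`, and the components at the primes
  `l ∈ Λ` of every element of the completion of `F^1_A(V)` are in the image of `Δ`.
* `Loc V P`: there is a finite set `B` of finite places such that the group `A₀(V_v)` is divisible by all `m ≠ 0` whose prime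
  factors satisfy `P` for `v ∉ B`, and such that `Ex V Λ` holds for all sets `Λ` of odd primes `l` with `P l` for which
  `A₀(V_v)` is divisible by all `l ∈ Λ` for `v ∈ B`.
-/

open PE BE ZC IsDedekindDomain NumberField Polynomial

namespace QS

variable {F : Type} [Field F] [NumberField F]

/-- The group `A₀(V_v)` is divisible by `m`. -/
def Dvl (V : Vr F) (v : HeightOneSpectrum (𝓞 F)) (m : ℕ) : Prop :=
  Dq V (FK F v) (AlgebraicClosure (FK F v)) m

/-- The group `F^1_A(V)` is divisible by all `m ≠ 0` with prime factors in `Λ`, and the components at the `l ∈ Λ` of all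
elements of its completion are in the image of `Δ`. -/
def Ex (V : Vr F) (Λ : Set ℕ) : Prop :=
  (∀ m : ℕ, m ≠ 0 → Sf Λ m → ∀ c : Fam V, ∃ c' : Fam V, c.cl = m • c'.cl) ∧
    ∀ z : LHat (FA V), ImDeS Λ z

/-- The local statement outside a finite set of places, and `Ex` for the sets of odd primes for which it holds everywhere. -/
def Loc (V : Vr F) (P : ℕ → Prop) : Prop :=
  ∃ B : Set (HeightOneSpectrum (𝓞 F)), B.Finite ∧
    (∀ v ∉ B, ∀ m : ℕ, m ≠ 0 → (∀ l : ℕ, l.Prime → l ∣ m → P l) → Dvl V v m) ∧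
    ∀ Λ : Set ℕ, (∀ l ∈ Λ, l.Prime ∧ l ≠ 2 ∧ P l ∧ ∀ v ∈ B, Dvl V v l) → Ex V Λ

/-- The surfaces `S`. -/
theorem loc_S (hcp : Cpl) {D : Dat F} (hD : D.Ok) : Loc (Sv D) (Pm D) :=
  main_S hcp hD

/-- The surfaces `S'`. -/
theorem loc_Sw (hcp : Cpl) {n r : ℕ} {f : F[X]} (hn : Even n) (hD : (sq n r f).Ok) :
    Loc (Sw n r f) (Pm (sq n r f)) := by
  obtain ⟨B, h1, h2, h3⟩ := main_Sw hcp hD
  refine ⟨B, h1, fun v hv m hm h => h2 v hv m ?_ h, h3⟩
  by_contra ho
  rw [Nat.not_odd_iff_even] at ho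
  exact (h 2 Nat.prime_two ho.two_dvd).n hn.two_dvd

/-- The families of surfaces `S`. -/
theorem ex_fam (hcp : Cpl) {n p q : ℕ} {α β : F} (hn : n.Prime) (hp : p.Prime) (hq : q.Prime)
    (hnp : n ∣ p + 1) (hnq : n ∣ q + 1) (hα : α ≠ 0) (hβ : β ≠ 0) :
    {l : ℕ | l.Prime ∧ ¬ Fl n p q α β l}.Finite ∧ Ex (Sv (fam n p q α β)) {l | Fl n p q α β l} :=
  ⟨fl_fin hn.two_le hp.two_le hq.two_le hα hβ, main_fam hcp hn hp hq hnp hnq hα hβ⟩

/-- The families of surfaces `S'`. -/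
theorem ex_famSw (hcp : Cpl) {p : ℕ} {α : F} (hp : p.Prime) (h2 : p ≠ 2) (hα : α ≠ 0) :
    Ex (Sw 2 ((p + 1) / 2) (X ^ p + C α)) {l | Fl 2 p p α α l} :=
  main_famSw hcp Nat.prime_two hp (by have := hp.eq_two_or_odd; omega) hα

end QS
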