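import Pool.Agent.Lib.MP_f80667_ag.Qs.Lo
import Pool.Agent.Lib.MP_f80667_ag.Cv.RamA

/-! The condition on the ramification and the powers of the maximal ideal. -/

open ZC BE PE CV Polynomial IntermediateField

namespace QS

/-- The condition on the ramification. -/
theorem er_nmem {K Ω : Type} [Field K] [CharZero K] [Field Ω] [Algebra K Ω] [IsAlgClosure K Ω]
    (L : Ld K Ω) {l : ℕ} (h : Er L l) :
    ((l : ℕ) : Ok L) ∉ IsLocalRing.maximalIdeal (Ok L) ^ (l - 1) := by
  obtain ⟨π, h0, h1, hπ⟩ := exists_pi L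
  rw [mem_mpow h0 h1 hπ, not_le]
  have h2 : algebraMap K Ω (((l : ℕ) : Ok L) : K) = (l : Ω) := by
    have h3 : (((l : ℕ) : Ok L) : K) = (l : K) := map_natCast (Ok L).subtype l
    rw [h3, map_natCast]
  rw [h2]
  exact h π h1

end QS
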