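import Pool.Agent.Lib.MP_f80667_ag.Qs.Cu
import Pool.Agent.Lib.MP_f80667_ag.Qs.Val

/-! The values of the coordinates of the points of the curve `u ^ n = a(x)`. -/

open ZC BE PE CV Polynomial

namespace QS

section hv

variable {K L Ω : Type} [Field K] [Field L] [Field Ω] [Algebra K L] [Algebra K Ω]

private theorem cuR_mem_of_pow {w : Place K L Ω} {x : L} {n : ℕ} (hn : 0 < n)
    (h : x ^ n ∈ w.V) : x ∈ w.V := by
  by_contra hx
  have h2 := (Hv.of_not_mem hx).pow n
  have hx0 : x ≠ 0 := by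
    rintro rfl
    exact hx (zero_mem _)
  have h3 := (Hv.of_mem h).mul h2
  rw [← mul_pow, mul_inv_cancel₀ hx0, one_pow, zero_pow hn.ne', mul_zero] at h3
  exact one_ne_zero (Hv.one.uniq h3)

/-- An element with a power of value `0` has value `0`. -/
private theorem cuR_of_pow {w : Place K L Ω} {x : L} {n : ℕ} (hn : 0 < n)
    (h : Hv w (x ^ n) 0) : Hv w x 0 := by
  have h1 : x ∈ w.V := cuR_mem_of_pow hn h.mem
  have h2 := (Hv.of_mem h1).pow n
  have h3 := h2.uniq h
  exact ⟨h1, (pow_eq_zero_iff hn.ne').1 h3⟩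

end hv

section val

variable {M : Type} [Field M] {C : Crv M} {n : ℕ} {a : M[X]} (c : Cu C n a)
  {K L Ω : Type} [Field K] [Field L] [Field Ω] [Algebra K L] [Algebra K Ω] [Algebra M K]
  [Algebra M L] [Algebra M Ω] [IsScalarTower M K L] [IsScalarTower M K Ω]

include c in
/-- A homomorphism is integral at a place if the value of `X` is. -/
private theorem cuR_mem (hn : 0 < n) (w : Place K L Ω) (φ : C.A →ₐ[M] L) (h : φ c.X ∈ w.V)
    (z : C.A) : φ z ∈ w.V := by
  have hM : ∀ m : M, algebraMap M L m ∈ w.V := fun m => by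
    rw [IsScalarTower.algebraMap_apply M K L]
    exact w.mem _
  have hU : φ c.U ∈ w.V := by
    refine cuR_mem_of_pow hn ?_
    rw [← map_pow, c.eq, ← Polynomial.aeval_algHom_apply, Polynomial.aeval_eq_sum_range]
    refine sum_mem fun i _ => ?_
    rw [Algebra.smul_def]
    exact mul_mem (hM _) (pow_mem h i)
  let T : Subalgebra M C.A :=
    { carrier := {z | φ z ∈ w.V}
      mul_mem' := fun {x y} hx hy => by
        change φ (x * y) ∈ w.V
        rw [map_mul]
        exact mul_mem hx hy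
      add_mem' := fun {x y} hx hy => by
        change φ (x + y) ∈ w.V
        rw [map_add]
        exact add_mem hx hy
      algebraMap_mem' := fun m => by
        change φ (algebraMap M C.A m) ∈ w.V
        rw [AlgHom.commutes]
        exact hM m }
  have h1 : Algebra.adjoin M {c.X, c.U} ≤ T := by
    rw [Algebra.adjoin_le_iff]
    rintro y (rfl | hy)
    · exact h
    · rw [Set.mem_singleton_iff] at hy
      rw [hy]
      exact hU
  rw [c.gen] at h1
  exact h1 (Algebra.mem_top (x := z))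

/-- The value of the coordinates. Proof: as `xh_red` in `Pe/Kr.lean`. If `P = some φ` and `φ X` is not in the valuation ring: `b = (φ X)⁻¹` has value `0`,
`(b ^ r * eta P) ^ n = fm (n r) a (1, b)` (`eta_pow`, `fm_mul`) has the value `fm (n r) a (1, 0) = 0` (`rd_fm`), so `b ^ r * eta P` has the value `0`
(`Hv.of_sq` for `n`). If `φ X` is in the valuation ring then so is `φ U` (integrally closed) and all `φ a` (`gen`). In the other cases `b = 1`. -/
theorem Cu.red (hn : 0 < n) {r : ℕ} (hr : a.natDegree + 1 = n * r) (w : Place K L Ω) {P : C.V.pt L}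
    {Q : C.V.pt Ω} (h : C.V.red w P Q) :
    ∃ b : L, b ≠ 0 ∧ Rd w (b * (c.xh P).1, b * (c.xh P).2) (c.xh Q) ∧
      Hv w (b ^ r * c.eta P) (c.eta Q) := by
  rcases h with ⟨rfl, rfl⟩ | ⟨φ, rfl, ⟨z, hz⟩, rfl⟩ | ⟨φ, ψ, rfl, rfl, h⟩
  · refine ⟨1, one_ne_zero, (rd_iff _ _ _).2 ⟨?_, ?_⟩, ?_⟩
    · change Hv w (1 * 1 : L) (1 : Ω)
      rw [mul_one]
      exact Hv.one
    · change Hv w (1 * 0 : L) (0 : Ω)
      rw [mul_zero]
      exact Hv.zero
    · change Hv w (1 ^ r * 0 : L) (0 : Ω)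
      rw [mul_zero]
      exact Hv.zero
  · have hX : φ c.X ∉ w.V := fun hX => hz (cuR_mem c hn w φ hX z)
    have hx0 : φ c.X ≠ 0 := by
      intro h0
      rw [h0] at hX
      exact hX (zero_mem _)
    have hi : Hv w (φ c.X)⁻¹ (0 : Ω) := Hv.of_not_mem hX
    refine ⟨(φ c.X)⁻¹, inv_ne_zero hx0, (rd_iff _ _ _).2 ⟨?_, ?_⟩, ?_⟩
    · change Hv w ((φ c.X)⁻¹ * φ c.X : L) (1 : Ω)
      rw [inv_mul_cancel₀ hx0]
      exact Hv.one
    · change Hv w ((φ c.X)⁻¹ * 1 : L) (0 : Ω)
      rw [mul_one]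
      exact hi
    · change Hv w ((φ c.X)⁻¹ ^ r * φ c.U : L) (0 : Ω)
      refine cuR_of_pow hn ?_
      have e1 : φ c.U ^ n = fm (n * r) a (φ c.X, 1) :=
        c.eta_pow hr (some φ : Option (C.A →ₐ[M] L))
      have e2 : ((φ c.X)⁻¹ ^ r * φ c.U) ^ n = fm (n * r) a ((1 : L), (φ c.X)⁻¹) := by
        have e3 := fm_mul (n * r) a (φ c.X)⁻¹ ((φ c.X, 1) : L × L)
        dsimp only at e3
        rw [inv_mul_cancel₀ hx0, mul_one] at e3
        rw [e3, mul_pow, e1, ← pow_mul, mul_comm r n]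
      rw [e2]
      have e4 : Rd w ((1 : L), (φ c.X)⁻¹) ((1 : Ω), 0) := (rd_iff _ _ _).2 ⟨Hv.one, hi⟩
      have e5 := rd_fm w (n * r) a e4
      have e6 : a.coeff (n * r) = 0 := Polynomial.coeff_eq_zero_of_natDegree_lt (by omega)
      rw [fm_inf, e6, map_zero] at e5
      exact e5
  · obtain ⟨hX, hX'⟩ := h c.X
    obtain ⟨hU, hU'⟩ := h c.U
    refine ⟨1, one_ne_zero, (rd_iff _ _ _).2 ⟨?_, ?_⟩, ?_⟩
    · change Hv w (1 * φ c.X : L) (ψ c.X)
      rw [one_mul]
      exact ⟨hX, hX'.symm⟩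
    · change Hv w (1 * 1 : L) (1 : Ω)
      rw [mul_one]
      exact Hv.one
    · change Hv w (1 ^ r * φ c.U : L) (ψ c.U)
      rw [one_pow, one_mul]
      exact ⟨hU, hU'.symm⟩

end val

end QS
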