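import Pool.Agent.Lib.MP_f80667_ag.Pe.Kd

/-!
The surfaces `A(x) s ^ n = B(y) t ^ n` (the smooth model of the quotient `a(x) = w ^ n b(y)` of the product of the
curves `u ^ n = a(x)`, `v ^ n = b(y)` by the group of the `n`-th roots of unity, `w = u / v`).

* `fm d f v`: the value at `v` of the binary form `∑ c_i X₀ ^ i X₁ ^ (d - i)` of degree `d` of `f = ∑ c_i X ^ i`.
* `Dat F`: the exponent `n`, the polynomials `f`, `g` and the degrees `n r`, `n s` of the forms.
* `Qc D L`: homogeneous coordinates of the `L`-points: `x`, `y`, `t` in `L² \ 0` with `f(x) t₀ ^ n = g(y) t₁ ^ n`.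
* `Qc.Rel`: the same point: `x`, `y` are multiplied by `a`, `b`, and `t₀`, `t₁` by `c b ^ s`, `c a ^ r`.
* `Dat.Ok`: `n ≥ 2`, `r, s ≥ 1`, `f`, `g` are separable of degree `n r` or `n r - 1`, respectively `n s` or `n s - 1`.
* `Sv D`: the surface. The reduction of a point at a place: all coordinates are integral and the residues are the
  coordinates of the value (`PE.Rd`).
-/

open ZC PE Polynomial

namespace QS

/-- The value of the binary form of degree `d`. -/
noncomputable def fm {F L : Type} [Field F] [Field L] [Algebra F L] (d : ℕ) (f : F[X]) (v : L × L) : L :=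
  ∑ i ∈ Finset.range (d + 1), algebraMap F L (f.coeff i) * v.1 ^ i * v.2 ^ (d - i)

theorem fm_map {F L M : Type} [Field F] [Field L] [Field M] [Algebra F L] [Algebra F M]
    (d : ℕ) (f : F[X]) (σ : L →ₐ[F] M) (v : L × L) : fm d f (σ v.1, σ v.2) = σ (fm d f v) := by
  unfold fm
  rw [map_sum]
  refine Finset.sum_congr rfl fun i _ => ?_
  rw [map_mul, map_mul, map_pow, map_pow, AlgHom.commutes]

theorem fm_mul {F L : Type} [Field F] [Field L] [Algebra F L] (d : ℕ) (f : F[X]) (a : L) (v : L × L) :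
    fm d f (a * v.1, a * v.2) = a ^ d * fm d f v := by
  unfold fm
  rw [Finset.mul_sum]
  refine Finset.sum_congr rfl fun i hi => ?_
  have h : i + (d - i) = d := by
    have := Finset.mem_range.1 hi
    omega
  have e : a ^ d = a ^ i * a ^ (d - i) := by rw [← pow_add, h]
  rw [e, mul_pow, mul_pow]
  ring

/-- The data of a surface. -/
structure Dat (F : Type) [Field F] where
  /-- the exponent -/
  n : ℕ
  /-- the degree of the first form is `n r` -/
  r : ℕ
  /-- the degree of the second form is `n s` -/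
  s : ℕ
  /-- the first polynomial -/
  f : F[X]
  /-- the second polynomial -/
  g : F[X]

/-- The surface is smooth. -/
structure Dat.Ok {F : Type} [Field F] (D : Dat F) : Prop where
  hn : 2 ≤ D.n
  hr : 0 < D.r
  hs : 0 < D.s
  sf : D.f.Separable
  sg : D.g.Separable
  df : D.f.natDegree = D.n * D.r ∨ D.f.natDegree + 1 = D.n * D.r
  dg : D.g.natDegree = D.n * D.s ∨ D.g.natDegree + 1 = D.n * D.s

/-- Homogeneous coordinates. -/
structure Qc {F : Type} [Field F] (D : Dat F) (L : Type) [Field L] [Algebra F L] where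
  /-- the coordinates `x` -/
  x : L × L
  /-- the coordinates `y` -/
  y : L × L
  /-- the coordinates `s`, `t` -/
  t : L × L
  hx : x ≠ 0
  hy : y ≠ 0
  ht : t ≠ 0
  eq : fm (D.n * D.r) D.f x * t.1 ^ D.n = fm (D.n * D.s) D.g y * t.2 ^ D.n

namespace Qc

variable {F : Type} [Field F] {D : Dat F} {L : Type} [Field L] [Algebra F L]

/-- Coordinates of the same point. -/
def Rel (P Q : Qc D L) : Prop := ∃ a b c : L, a ≠ 0 ∧ b ≠ 0 ∧ c ≠ 0 ∧
  Q.x = (a * P.x.1, a * P.x.2) ∧ Q.y = (b * P.y.1, b * P.y.2) ∧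
  Q.t = (c * b ^ D.s * P.t.1, c * a ^ D.r * P.t.2)

theorem rel_refl (P : Qc D L) : P.Rel P :=
  ⟨1, 1, 1, one_ne_zero, one_ne_zero, one_ne_zero, by simp, by simp, by simp⟩

theorem rel_symm {P Q : Qc D L} (h : P.Rel Q) : Q.Rel P := by
  obtain ⟨a, b, c, ha, hb, hc, h1, h2, h3⟩ := h
  refine ⟨a⁻¹, b⁻¹, c⁻¹, inv_ne_zero ha, inv_ne_zero hb, inv_ne_zero hc, ?_, ?_, ?_⟩
  · rw [h1]
    exact Prod.ext (inv_mul_cancel_left₀ ha _).symm (inv_mul_cancel_left₀ ha _).symm
  · rw [h2]
    exact Prod.ext (inv_mul_cancel_left₀ hb _).symm (inv_mul_cancel_left₀ hb _).symm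
  · rw [h3]
    refine Prod.ext ?_ ?_
    · dsimp only
      rw [inv_pow]
      field_simp
    · dsimp only
      rw [inv_pow]
      field_simp

theorem rel_trans {P Q R : Qc D L} (h : P.Rel Q) (h' : Q.Rel R) : P.Rel R := by
  obtain ⟨a, b, c, ha, hb, hc, h1, h2, h3⟩ := h
  obtain ⟨a', b', c', ha', hb', hc', h1', h2', h3'⟩ := h'
  refine ⟨a' * a, b' * b, c' * c, mul_ne_zero ha' ha, mul_ne_zero hb' hb, mul_ne_zero hc' hc,
    ?_, ?_, ?_⟩
  · rw [h1', h1]
    exact Prod.ext (mul_assoc _ _ _).symm (mul_assoc _ _ _).symm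
  · rw [h2', h2]
    exact Prod.ext (mul_assoc _ _ _).symm (mul_assoc _ _ _).symm
  · rw [h3', h3]
    refine Prod.ext ?_ ?_
    · dsimp only
      ring
    · dsimp only
      ring

variable (D L) in
/-- The equality of points. -/
def sd : Setoid (Qc D L) where
  r := Rel
  iseqv := ⟨rel_refl, rel_symm, rel_trans⟩

/-- The map induced by a homomorphism. -/
def mp {M : Type} [Field M] [Algebra F M] (σ : L →ₐ[F] M) (P : Qc D L) : Qc D M where
  x := (σ P.x.1, σ P.x.2)
  y := (σ P.y.1, σ P.y.2)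
  t := (σ P.t.1, σ P.t.2)
  hx := Kc.mp_ne σ P.hx
  hy := Kc.mp_ne σ P.hy
  ht := Kc.mp_ne σ P.ht
  eq := by rw [fm_map, fm_map, ← map_pow, ← map_pow, ← map_mul, ← map_mul, P.eq]

theorem mp_rel {M : Type} [Field M] [Algebra F M] (σ : L →ₐ[F] M) {P Q : Qc D L}
    (h : P.Rel Q) : (P.mp σ).Rel (Q.mp σ) := by
  obtain ⟨a, b, c, ha, hb, hc, h1, h2, h3⟩ := h
  refine ⟨σ a, σ b, σ c, (map_ne_zero σ).2 ha, (map_ne_zero σ).2 hb, (map_ne_zero σ).2 hc,
    ?_, ?_, ?_⟩
  · change (σ Q.x.1, σ Q.x.2) = (σ a * σ P.x.1, σ a * σ P.x.2)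
    rw [h1, map_mul, map_mul]
  · change (σ Q.y.1, σ Q.y.2) = (σ b * σ P.y.1, σ b * σ P.y.2)
    rw [h2, map_mul, map_mul]
  · change (σ Q.t.1, σ Q.t.2) = (σ c * σ b ^ D.s * σ P.t.1, σ c * σ a ^ D.r * σ P.t.2)
    rw [h3, map_mul, map_mul, map_mul, map_mul, map_pow, map_pow]

end Qc

/-- The surface `f(x) s ^ n = g(y) t ^ n`. -/
def Sv {F : Type} [Field F] (D : Dat F) : BE.Vr F where
  pt L _ _ := Quotient (Qc.sd D L)
  map σ := Quotient.map (Qc.mp σ) fun _ _ h => Qc.mp_rel σ h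
  red w x y := ∃ P Q, x = Quotient.mk _ P ∧ y = Quotient.mk _ Q ∧ Rd w P.x Q.x ∧ Rd w P.y Q.y ∧
    Rd w P.t Q.t

section act

variable {F : Type} [Field F] {K : Type} [Field K] [Algebra F K] {Ω : Type} [Field Ω] [Algebra K Ω]
  [Algebra F Ω] [IsScalarTower F K Ω]

/-- The action on the points. -/
noncomputable instance Sv.mact (D : Dat F) : MulAction (Ω ≃ₐ[K] Ω) ((Sv D).pt Ω) where
  smul σ x := (Sv D).act σ x
  one_smul x := by
    induction x using Quotient.inductionOn with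
    | h P => rfl
  mul_smul σ τ x := by
    induction x using Quotient.inductionOn with
    | h P => rfl

theorem Sv.smul_def (D : Dat F) (σ : Ω ≃ₐ[K] Ω) (x : (Sv D).pt Ω) :
    σ • x = (Sv D).act σ x := rfl

end act

end QS
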