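import Pool.Agent.Lib.MP_f80667_ag.Qs.Rt

/-! Radicals in an extension of degree prime to `l`. -/

open IntermediateField

namespace QS

section rad

variable {K Ω : Type} [Field K] [CharZero K] [Field Ω] [Algebra K Ω] [IsAlgClosure K Ω] {l : ℕ}

/-- The radicals for `Se.mod_pot`. Proof: `exists_rad` eight times. -/
theorem exists_rads (hl : l.Prime) (M : IntermediateField K Ω) [FiniteDimensional K M]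
    (hM : ¬ l ∣ Module.finrank K M) {α : Ω} (hα : α ∈ M) {n m : ℕ} (hn : ¬ l ∣ n) (hm : ¬ l ∣ m)
    (hn' : ¬ l ∣ n - 1) (hm' : ¬ l ∣ m - 1) :
    ∃ M' : IntermediateField K Ω, M ≤ M' ∧ FiniteDimensional K M' ∧
      ¬ l ∣ Module.finrank K M' ∧ (∃ y ∈ M', y ^ (n * m) = α) ∧
      (∃ β ∈ M', ∃ c ∈ M', ∃ d ∈ M', β ^ m = -α ∧ c ^ (m - 1) = (m : Ω) ∧ d ^ n = β * c) ∧
      ∃ γ ∈ M', ∃ c ∈ M', ∃ d ∈ M', γ ^ n = α ∧ c ^ (n - 1) = (n : Ω) ∧ d ^ m = γ * c := by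
  have hnm : ¬ l ∣ n * m := fun h => (hl.dvd_mul.1 h).elim hn hm
  obtain ⟨M₁, l₁, f₁, d₁, y, hy, ey⟩ := exists_rad hl M hM hα hnm
  obtain ⟨M₂, l₂, f₂, d₂, β, hβ, eβ⟩ := exists_rad hl M₁ d₁ (neg_mem (l₁ hα)) hm
  obtain ⟨M₃, l₃, f₃, d₃, c, hc, ec⟩ := exists_rad hl M₂ d₂ (_root_.natCast_mem M₂ m) hm'
  obtain ⟨M₄, l₄, f₄, d₄, d, hd, ed⟩ := exists_rad hl M₃ d₃ (mul_mem (l₃ hβ) hc) hn
  obtain ⟨M₅, l₅, f₅, d₅, γ, hγ, eγ⟩ := exists_rad hl M₄ d₄ (l₄ (l₃ (l₂ (l₁ hα)))) hn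
  obtain ⟨M₆, l₆, f₆, d₆, c', hc', ec'⟩ := exists_rad hl M₅ d₅ (_root_.natCast_mem M₅ n) hn'
  obtain ⟨M₇, l₇, f₇, d₇, d', hd', ed'⟩ := exists_rad hl M₆ d₆ (mul_mem (l₆ hγ) hc') hm
  exact ⟨M₇, l₁.trans (l₂.trans (l₃.trans (l₄.trans (l₅.trans (l₆.trans l₇))))), f₇, d₇,
    ⟨y, l₇ (l₆ (l₅ (l₄ (l₃ (l₂ hy))))), ey⟩,
    ⟨β, l₇ (l₆ (l₅ (l₄ (l₃ hβ)))), c, l₇ (l₆ (l₅ (l₄ hc))), d, l₇ (l₆ (l₅ hd)), eβ, ec, ed⟩,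
    ⟨γ, l₇ (l₆ hγ), c', l₇ hc', d', hd', eγ, ec', ed'⟩⟩

end rad

end QS
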