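import Pool.Agent.Lib.MP_f80667_ag.Qs.Gd
import Pool.Agent.Lib.MP_f80667_ag.Qs.FamA

/-! The surfaces `(x ^ p + α) s ^ n = (y ^ q + β) t ^ n` for prime numbers `n`, `p`, `q`: potentially good reduction everywhere. -/

open ZC BE PE CV Polynomial IntermediateField

namespace QS

/-- The data: `p + 1 = n r`, `q + 1 = n s`. -/
noncomputable def fam {F : Type} [Field F] (n p q : ℕ) (α β : F) : Dat F where
  n := n
  r := (p + 1) / n
  s := (q + 1) / n
  f := X ^ p + C α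
  g := X ^ q + C β

section fam

variable {F : Type} [Field F] {n p q : ℕ} {α β : F}

private theorem fam_sep {M : Type} [Field M] [CharZero M] {m : ℕ} (hm : m ≠ 0) {x : M}
    (hx : x ≠ 0) : (X ^ m + C x : M[X]).Separable := by
  have h := separable_X_pow_sub_C (-x) (Nat.cast_ne_zero.2 hm : (m : M) ≠ 0) (neg_ne_zero.2 hx)
  rwa [C_neg, sub_neg_eq_add] at h

private theorem fam_deg {M : Type} [Field M] {m k : ℕ} (h : k ∣ m + 1) (x : M) :
    (X ^ m + C x : M[X]).natDegree + 1 = k * ((m + 1) / k) := by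
  rw [natDegree_X_pow_add_C, Nat.mul_div_cancel' h]

private theorem fam_cop {m k : ℕ} (h : k ∣ m + 1) : k.Coprime m := by
  have h1 : k.gcd m ∣ 1 :=
    (Nat.dvd_add_right (Nat.gcd_dvd_right k m)).1 ((Nat.gcd_dvd_left k m).trans h)
  exact Nat.dvd_one.1 h1

/-- The data are admissible. -/
theorem fam_ok [CharZero F] (hn : n.Prime) (hp : p.Prime) (hq : q.Prime) (hnp : n ∣ p + 1)
    (hnq : n ∣ q + 1) (hα : α ≠ 0) (hβ : β ≠ 0) : (fam n p q α β).Ok where
  hn := hn.two_le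
  hr := Nat.div_pos (Nat.le_of_dvd (Nat.succ_pos p) hnp) hn.pos
  hs := Nat.div_pos (Nat.le_of_dvd (Nat.succ_pos q) hnq) hn.pos
  sf := fam_sep hp.ne_zero hα
  sg := fam_sep hq.ne_zero hβ
  df := Or.inr (fam_deg hnp α)
  dg := Or.inr (fam_deg hnq β)

variable {K Ω : Type} [Field K] [CharZero K] [Field Ω] [Algebra K Ω]
  [Algebra F K] [Algebra F Ω] [IsScalarTower F K Ω] [IsAlgClosure K Ω]

/-- **Potentially good reduction** at the places not above `l`. Proof: `exists_rads` for `α` (`M = ⊥`) and `β`, `exists_bsL`, `exists_cu`, `Cu.ps`, `Se.mod_pot` (`n ≠ p` because `n ∣ p + 1`; `Ok L'` is a valuation ring, so it is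
integrally closed); `Er`: `L'.nm l = 1` (`nat_unit`). The changes of coordinates are the identity (`id_qa`). -/
theorem fam_pot (L : Ld K Ω) (hn : n.Prime) (hp : p.Prime) (hq : q.Prime) (hnp : n ∣ p + 1)
    (hnq : n ∣ q + 1) (hα : α ≠ 0) (hβ : β ≠ 0) {l : ℕ} (hl : l.Prime)
    (hd : ¬ l ∣ n * (n - 1) * p * (p - 1) * q * (q - 1)) (hlp : l ≠ L.p) :
    Pgd (fam n p q α β) L l := by
  have d1 : ¬ l ∣ n := fun h => hd (by
    simp only [mul_assoc]
    exact h.mul_right _)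
  have d2 : ¬ l ∣ n - 1 := fun h => hd (by
    simp only [mul_assoc]
    exact (h.mul_right _).mul_left _)
  have d3 : ¬ l ∣ p := fun h => hd (by
    simp only [mul_assoc]
    exact ((h.mul_right _).mul_left _).mul_left _)
  have d4 : ¬ l ∣ p - 1 := fun h => hd (by
    simp only [mul_assoc]
    exact (((h.mul_right _).mul_left _).mul_left _).mul_left _)
  have d5 : ¬ l ∣ q := fun h => hd (by
    simp only [mul_assoc]
    exact ((((h.mul_right _).mul_left _).mul_left _).mul_left _).mul_left _)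
  have d6 : ¬ l ∣ q - 1 := fun h => hd (h.mul_left _)
  have hb : ¬ l ∣ Module.finrank K (⊥ : IntermediateField K Ω) := by
    rw [IntermediateField.finrank_bot]
    exact hl.one_lt.ne' ∘ Nat.dvd_one.1
  have hmem : ∀ (x : F) (N : IntermediateField K Ω), algebraMap F Ω x ∈ N := fun x N => by
    rw [IsScalarTower.algebraMap_apply F K Ω]
    exact N.algebraMap_mem _
  obtain ⟨M₁, -, f₁, e₁, ⟨y, hy, ey⟩, ⟨β₁, hβ₁, c₁, hc₁, d₁, hd₁, eβ₁, ec₁, ed₁⟩,
    γ₁, hγ₁, c₁', hc₁', d₁', hd₁', eγ₁, ec₁', ed₁'⟩ :=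
    exists_rads hl (⊥ : IntermediateField K Ω) hb (hmem α ⊥) d1 d3 d2 d4
  obtain ⟨M, hle, f₂, e₂, ⟨z, hz, ez⟩, ⟨β₂, hβ₂, c₂, hc₂, d₂, hd₂, eβ₂, ec₂, ed₂⟩,
    γ₂, hγ₂, c₂', hc₂', d₂', hd₂', eγ₂, ec₂', ed₂'⟩ :=
    exists_rads hl M₁ e₁ (hmem β M₁) d1 d5 d2 d6
  have htow : IsScalarTower F M Ω := IsScalarTower.of_algebraMap_eq fun _ => rfl
  have hcM : CharZero M := charZero_of_injective_algebraMap (algebraMap K M).injective
  obtain ⟨L', -, hL'⟩ := L.exists_bsL M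
  have hαM : algebraMap F M α ≠ 0 := (_root_.map_ne_zero _).2 hα
  have hβM : algebraMap F M β ≠ 0 := (_root_.map_ne_zero _).2 hβ
  obtain ⟨C₁, ⟨k₁⟩⟩ := exists_cu (M := M) hn.two_le (fam_sep hp.ne_zero hαM)
    (by rw [natDegree_X_pow_add_C]; exact hp.pos) (by rw [natDegree_X_pow_add_C]; exact fam_cop hnp)
  obtain ⟨C₂, ⟨k₂⟩⟩ := exists_cu (M := M) hn.two_le (fam_sep hq.ne_zero hβM)
    (by rw [natDegree_X_pow_add_C]; exact hq.pos) (by rw [natDegree_X_pow_add_C]; exact fam_cop hnq)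
  have hmap : ∀ (m : ℕ) (x : F), (X ^ m + C x : F[X]).map (algebraMap F M) =
      X ^ m + C (algebraMap F M x) := fun m x => by
    rw [Polynomial.map_add, Polynomial.map_pow, map_X, map_C]
  have q₁ : Nonempty (Qa (n * ((p + 1) / n)) (X ^ p + C α : F[X]) (X ^ p + C (algebraMap F M α))) := by
    rw [← hmap]
    exact id_qa _ _
  have q₂ : Nonempty (Qa (n * ((q + 1) / n)) (X ^ q + C β : F[X]) (X ^ q + C (algebraMap F M β))) := by
    rw [← hmap]
    exact id_qa _ _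
  obtain ⟨Q₁⟩ := q₁
  obtain ⟨Q₂⟩ := q₂
  have hne : ∀ {m : ℕ}, m.Prime → n ∣ m + 1 → n ≠ m := by
    rintro m hm h rfl
    have := fam_cop h
    rw [Nat.coprime_self] at this
    exact hm.one_lt.ne' this
  have hinj := (algebraMap M Ω).injective
  refine ⟨M, f₂, L', {
    hn := hn.two_le
    C₁ := C₁
    C₂ := C₂
    a := X ^ p + C (algebraMap F M α)
    b := X ^ q + C (algebraMap F M β)
    c₁ := k₁
    c₂ := k₂
    sa := fam_sep hp.ne_zero hαM
    sb := fam_sep hq.ne_zero hβM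
    da := fam_deg hnp _
    db := fam_deg hnq _
    m₁ := Q₁
    m₂ := Q₂ }, e₂, hL', ?_, ?_, ?_⟩
  · intro x hx
    have h3 : L'.nm (l : Ω) = 1 := by
      rw [hL']
      exact L.nat_unit fun h6 => hlp ((Nat.prime_dvd_prime_iff_eq L.pp hl).1 h6).symm
    rw [h3]
    exact pow_lt_one₀ (L'.nonneg _) hx (by have := hl.two_le; omega)
  · refine Se.mod_pot k₁.ps hn hp (hne hp hnp) hαM ⟨⟨y, hle hy⟩, hinj ?_⟩
      ⟨⟨β₁, hle hβ₁⟩, ⟨c₁, hle hc₁⟩, ⟨d₁, hle hd₁⟩, hinj ?_, hinj ?_, hinj ?_⟩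
      ⟨⟨γ₁, hle hγ₁⟩, ⟨c₁', hle hc₁'⟩, ⟨d₁', hle hd₁'⟩, hinj ?_, hinj ?_, hinj ?_⟩
    · rw [map_pow, ← IsScalarTower.algebraMap_apply F M Ω]
      exact ey
    · rw [map_pow, map_neg, ← IsScalarTower.algebraMap_apply F M Ω]
      exact eβ₁
    · rw [map_pow, map_natCast]
      exact ec₁
    · rw [map_pow, map_mul]
      exact ed₁
    · rw [map_pow, ← IsScalarTower.algebraMap_apply F M Ω]
      exact eγ₁
    · rw [map_pow, map_natCast]
      exact ec₁'
    · rw [map_pow, map_mul]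
      exact ed₁'
  · refine Se.mod_pot k₂.ps hn hq (hne hq hnq) hβM ⟨⟨z, hz⟩, hinj ?_⟩
      ⟨⟨β₂, hβ₂⟩, ⟨c₂, hc₂⟩, ⟨d₂, hd₂⟩, hinj ?_, hinj ?_, hinj ?_⟩
      ⟨⟨γ₂, hγ₂⟩, ⟨c₂', hc₂'⟩, ⟨d₂', hd₂'⟩, hinj ?_, hinj ?_, hinj ?_⟩
    · rw [map_pow, ← IsScalarTower.algebraMap_apply F M Ω]
      exact ez
    · rw [map_pow, map_neg, ← IsScalarTower.algebraMap_apply F M Ω]
      exact eβ₂
    · rw [map_pow, map_natCast]
      exact ec₂
    · rw [map_pow, map_mul]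
      exact ed₂
    · rw [map_pow, ← IsScalarTower.algebraMap_apply F M Ω]
      exact eγ₂
    · rw [map_pow, map_natCast]
      exact ec₂'
    · rw [map_pow, map_mul]
      exact ed₂'

end fam

end QS
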