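import Pool.Agent.Lib.MP_f80667_ag.Cv.PlD

/-! The local rings of the curve `u ^ n = a(x)`. -/

open CV Polynomial

namespace QS

section reg

variable {K A : Type} [Field K] [CharZero K] [CommRing A] [Algebra K A] {Ω : Type} [Field Ω]
  [Algebra K Ω] [IsAlgClosure K Ω]

omit [CharZero K] in
private theorem fibA_gen {X U : A} (gen : Algebra.adjoin K {X, U} = ⊤) (e : K) (x : A) :
    ∃ (p : K[X]) (r : A), x = aeval U p + (X - algebraMap K A e) * r := by
  have hx : x ∈ Algebra.adjoin K ({X, U} : Set A) := by rw [gen]; trivial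
  induction hx using Algebra.adjoin_induction with
  | mem x hx =>
    rcases hx with rfl | hx
    · exact ⟨C e, 1, by rw [aeval_C]; ring⟩
    · rw [Set.mem_singleton_iff] at hx
      exact ⟨Polynomial.X, 0, by rw [hx, aeval_X]; ring⟩
  | algebraMap c => exact ⟨C c, 0, by rw [aeval_C]; ring⟩
  | add x y _ _ hx hy =>
    obtain ⟨p, r, h⟩ := hx
    obtain ⟨p', r', h'⟩ := hy
    exact ⟨p + p', r + r', by rw [map_add]; linear_combination h + h'⟩
  | mul x y _ _ hx hy =>
    obtain ⟨p, r, h⟩ := hx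
    obtain ⟨p', r', h'⟩ := hy
    refine ⟨p * p', aeval U p * r' + aeval U p' * r + (X - algebraMap K A e) * r * r', ?_⟩
    rw [map_mul, h, h']
    ring

/-- The local rings of `A = K[X, U]`, `U ^ n = a(X)`, at the points with `x = e ∈ K`, `a(e) ≠ 0`: `X - e` is a parameter. Proof: `u = φ U`, `q` the minimal polynomial of
`u` over `K`, `T ^ n - a(e) = q q'` (a separable polynomial, so `q'(u) ≠ 0`); `s = q'(U)`. Every `x ∈ A` is `p(U)` modulo `X - e` (`gen`), if `φ x = 0` then
`q ∣ p`, so `s x` is in the ideal generated by `X - e` and `U ^ n - a(e) = a(X) - a(e)`. -/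
theorem rg_one {n : ℕ} (hn : 0 < n) {a : K[X]} {X U : A} (eq : U ^ n = aeval X a)
    (gen : Algebra.adjoin K {X, U} = ⊤) (φ : A →ₐ[K] Ω) {e : K} (hX : φ X = algebraMap K Ω e)
    (hU : φ U ≠ 0) : Rg φ (X - algebraMap K A e) := by
  have hchar : CharZero Ω := charZero_of_injective_algebraMap (algebraMap K Ω).injective
  have h0 : φ (X - algebraMap K A e) = 0 := by rw [map_sub, hX, φ.commutes, sub_self]
  have hroot : aeval (φ U) (Polynomial.X ^ n - C (a.eval e)) = 0 := by
    rw [map_sub, map_pow, aeval_X, aeval_C, ← map_pow, eq, ← aeval_algHom_apply, hX,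
      aeval_algebraMap_apply, coe_aeval_eq_eval, sub_self]
  obtain ⟨q', hq'⟩ := minpoly.dvd K (φ U) hroot
  have hs : aeval (φ U) q' ≠ 0 := by
    intro hz
    have h1 := congrArg (fun f => aeval (φ U) (derivative f)) hq'
    simp only [derivative_mul, derivative_sub, derivative_X_pow, derivative_C, map_add, map_mul,
      minpoly.aeval, hz, mul_zero, zero_mul, add_zero, sub_zero, map_pow, aeval_X,
      map_natCast] at h1
    rcases mul_eq_zero.1 h1 with h2 | h2
    · exact hn.ne' (Nat.cast_eq_zero.1 h2)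
    · exact hU (eq_zero_of_pow_eq_zero h2)
  obtain ⟨b, hb⟩ := X_sub_C_dvd_sub_C_eval (a := e) (p := a)
  refine ⟨h0, aeval U q', ?_, fun x hx => ?_⟩
  · rw [← aeval_algHom_apply]
    exact hs
  · obtain ⟨p, r, h⟩ := fibA_gen gen e x
    have h1 : aeval (φ U) p = 0 := by
      rw [h, map_add, map_mul, h0, zero_mul, add_zero, ← aeval_algHom_apply] at hx
      exact hx
    obtain ⟨p1, hp1⟩ := minpoly.dvd K (φ U) h1
    have h2 : U ^ n - algebraMap K A (a.eval e) =
        aeval U (minpoly K (φ U)) * aeval U q' := by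
      rw [← map_mul, ← hq', map_sub, map_pow, aeval_X, aeval_C]
    have h3 : aeval X a - algebraMap K A (a.eval e) = (X - algebraMap K A e) * aeval X b := by
      have h4 := congrArg (aeval X) hb
      rw [map_sub, map_mul, map_sub, aeval_X, aeval_C, aeval_C] at h4
      exact h4
    refine ⟨aeval X b * aeval U p1 + aeval U q' * r, ?_⟩
    rw [h, hp1, map_mul]
    linear_combination (-(aeval U p1)) * h2 + aeval U p1 * eq + aeval U p1 * h3

/-- At the points with `x = e ∈ K`, `a(e) = 0`, `a` separable, `U` is a parameter and `X - e` is `U ^ n` up to a unit. Proof: `a = (T - e) a₁`, `s = a₁(X)`,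
`φ s = a₁(e) ≠ 0`; `ker φ` is generated by `X - e`, `U` (`gen`). -/
theorem rg_two {n : ℕ} (hn : 0 < n) {a : K[X]} (ha : a.Separable) {X U : A}
    (eq : U ^ n = aeval X a) (gen : Algebra.adjoin K {X, U} = ⊤) (φ : A →ₐ[K] Ω) {e : K}
    (hX : φ X = algebraMap K Ω e) (hU : φ U = 0) :
    Rg φ U ∧ Lu φ (X - algebraMap K A e) (U ^ n) := by
  have h0 : φ (X - algebraMap K A e) = 0 := by rw [map_sub, hX, φ.commutes, sub_self]
  have hphi : ∀ b : K[X], φ (aeval X b) = algebraMap K Ω (b.eval e) := by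
    intro b
    rw [← aeval_algHom_apply, hX, aeval_algebraMap_apply, coe_aeval_eq_eval]
  have hae : a.eval e = 0 := by
    have h1 := hphi a
    rw [← eq, map_pow, hU, zero_pow hn.ne'] at h1
    exact (map_eq_zero_iff _ (algebraMap K Ω).injective).1 h1.symm
  obtain ⟨a₁, ha₁⟩ := dvd_iff_isRoot.2 hae
  have hs : a₁.eval e ≠ 0 := by
    intro hz
    obtain ⟨u, v, huv⟩ := ha
    have h1 := congrArg (eval e) huv
    rw [ha₁, derivative_mul, derivative_sub, derivative_X, derivative_C] at h1
    simp only [eval_add, eval_mul, eval_sub, eval_X, eval_C, hz, sub_self, mul_zero, zero_mul,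
      add_zero, eval_one] at h1
    exact zero_ne_one h1
  have hn' : U ^ n = (X - algebraMap K A e) * aeval X a₁ := by
    rw [eq, ha₁, map_mul, map_sub, aeval_X, aeval_C]
  have hφs : φ (aeval X a₁) ≠ 0 := by
    rw [hphi, Ne, map_eq_zero_iff _ (algebraMap K Ω).injective]
    exact hs
  refine ⟨⟨hU, aeval X a₁, hφs, fun x hx => ?_⟩, aeval X a₁, 1, hφs, ?_, ?_⟩
  · obtain ⟨p, r, h⟩ := fibA_gen gen e x
    have h1 : aeval U p = aeval U p.divX * U + algebraMap K A (p.coeff 0) := by
      conv_lhs => rw [← divX_mul_X_add p]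
      rw [map_add, map_mul, aeval_X, aeval_C]
    have h2 : p.coeff 0 = 0 := by
      rw [h, h1, map_add, map_add, map_mul, map_mul, h0, hU, mul_zero, zero_mul, zero_add,
        add_zero, φ.commutes] at hx
      exact (map_eq_zero_iff _ (algebraMap K Ω).injective).1 hx
    obtain ⟨m, rfl⟩ := Nat.exists_eq_succ_of_ne_zero hn.ne'
    refine ⟨aeval X a₁ * aeval U p.divX + U ^ m * r, ?_⟩
    rw [h, h1, h2, map_zero]
    rw [Nat.succ_eq_add_one, pow_succ] at hn'
    linear_combination (-r) * hn'
  · rw [map_one]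
    exact one_ne_zero
  · rw [hn', one_mul, mul_comm]

end reg

end QS
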