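import Pool.Agent.Lib.MP_f80667_ag.Qs.Cu
import Pool.Agent.Lib.MP_f80667_ag.Qs.FibA
import Pool.Agent.Lib.MP_f80667_ag.Cv.PlR
import Pool.Agent.Lib.MP_f80667_ag.Cv.DgT
import Pool.Agent.Lib.MP_f80667_ag.Cv.Lc
import Pool.Agent.Lib.MP_f80667_ag.Cv.XpV

/-! The fibres of the function `x` on the curve `u ^ n = a(x)`. -/

open ZC BE PE CV Polynomial TensorProduct

namespace QS

section fib

variable {M : Type} [Field M] {C : Crv M} {n : ℕ} {a : M[X]} (c : Cu C n a) {K : Type} [Field K]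
  [CharZero K] [Algebra M K]

omit [CharZero K] in
/-- `K ⊗ A` is generated by `X`, `U`. -/
theorem bc_gen : Algebra.adjoin K {(1 : K) ⊗ₜ[M] c.X, (1 : K) ⊗ₜ[M] c.U} = ⊤ := by
  rw [eq_top_iff]
  rintro z -
  have h1 : ∀ y : C.A, (1 : K) ⊗ₜ[M] y ∈
      Algebra.adjoin K {(1 : K) ⊗ₜ[M] c.X, (1 : K) ⊗ₜ[M] c.U} := by
    intro y
    have hy : y ∈ Algebra.adjoin M ({c.X, c.U} : Set C.A) := by rw [c.gen]; trivial
    induction hy using Algebra.adjoin_induction with
    | mem y hy =>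
      rcases hy with rfl | hy
      · exact Algebra.subset_adjoin (Set.mem_insert _ _)
      · rw [Set.mem_singleton_iff] at hy
        subst hy
        exact Algebra.subset_adjoin (Set.mem_insert_of_mem _ rfl)
    | algebraMap m =>
      have h2 : (1 : K) ⊗ₜ[M] algebraMap M C.A m = algebraMap K (K ⊗[M] C.A) (algebraMap M K m) := by
        rw [Algebra.TensorProduct.algebraMap_apply, Algebra.algebraMap_self, RingHom.id_apply,
          Algebra.algebraMap_eq_smul_one, Algebra.algebraMap_eq_smul_one, TensorProduct.smul_tmul]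
      rw [h2]
      exact Subalgebra.algebraMap_mem _ _
    | add x y _ _ hx hy =>
      rw [TensorProduct.tmul_add]
      exact add_mem hx hy
    | mul x y _ _ hx hy =>
      have h2 : (1 : K) ⊗ₜ[M] (x * y) = ((1 : K) ⊗ₜ[M] x) * ((1 : K) ⊗ₜ[M] y) := by
        rw [Algebra.TensorProduct.tmul_mul_tmul, one_mul]
      rw [h2]
      exact mul_mem hx hy
  induction z using TensorProduct.induction_on with
  | zero => exact zero_mem _
  | tmul k y =>
    have h2 : k ⊗ₜ[M] y = k • ((1 : K) ⊗ₜ[M] y) := by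
      rw [TensorProduct.smul_tmul', smul_eq_mul, mul_one]
    rw [h2]
    exact Subalgebra.smul_mem _ (h1 y) k
  | add x y hx hy => exact add_mem hx hy

omit [CharZero K] in
theorem bc_eq : ((1 : K) ⊗ₜ[M] c.U) ^ n = aeval ((1 : K) ⊗ₜ[M] c.X) (a.map (algebraMap M K)) := by
  have h1 : ∀ y : C.A, (1 : K) ⊗ₜ[M] y =
      (Algebra.TensorProduct.includeRight : C.A →ₐ[M] K ⊗[M] C.A) y := fun y => rfl
  rw [aeval_map_algebraMap, h1, h1, ← map_pow, c.eq, ← aeval_algHom_apply]

variable {Ω : Type} [Field Ω] [Algebra K Ω] [Algebra M Ω] [IsScalarTower M K Ω] [IsAlgClosure K Ω]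

variable (C Ω) in
/-- The point at infinity. -/
private def fibN : C.V.pt Ω := (none : Option (C.A →ₐ[M] Ω))

/-- An affine point. -/
private def fibS (φ : C.A →ₐ[M] Ω) : C.V.pt Ω := (some φ : Option (C.A →ₐ[M] Ω))

omit [Algebra K Ω] [IsScalarTower M K Ω] [IsAlgClosure K Ω] [CharZero K] [Algebra M K] [Field K] in
private theorem fib_cases (P : C.V.pt Ω) : P = fibN C Ω ∨ ∃ φ, P = fibS φ := by
  rcases P with _ | φ
  · exact Or.inl rfl
  · exact Or.inr ⟨φ, rfl⟩

omit [Algebra K Ω] [IsScalarTower M K Ω] [IsAlgClosure K Ω] [CharZero K] [Algebra M K] [Field K] in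
private theorem fibS_inj {φ ψ : C.A →ₐ[M] Ω} (h : fibS φ = fibS ψ) : φ = ψ := Option.some.inj h

omit [Algebra K Ω] [IsScalarTower M K Ω] [IsAlgClosure K Ω] [CharZero K] [Algebra M K] [Field K] in
private theorem fib_xhN : c.xh (fibN C Ω) = (1, 0) := rfl

omit [Algebra K Ω] [IsScalarTower M K Ω] [IsAlgClosure K Ω] [CharZero K] [Algebra M K] [Field K] in
private theorem fib_xhS (φ : C.A →ₐ[M] Ω) : c.xh (fibS φ) = (φ c.X, 1) := rfl

omit [Algebra K Ω] [IsScalarTower M K Ω] [IsAlgClosure K Ω] [CharZero K] [Algebra M K] [Field K] in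
private theorem fib_etaS (φ : C.A →ₐ[M] Ω) : c.eta (fibS φ) = φ c.U := rfl

open Classical in
/-- The fibre of `x` over a `K`-rational point. Proof: if `P = none` the sum is `n [∞]`. Let `P = some φ₀`, `φ₀ X = e ∈ K`. `Dg.div_ratEq` for `A = K ⊗ C.A`, `G = C.G.bc K`,
`E = FractionRing A`, `x = 1 ⊗ X - e` (degree `n`: `bc_one_tmul`, `c.deg`), `y = 1` (degree `0`), `S` the set of the homomorphisms `K ⊗ C.A → Ω` of the points `zm ζ P`
(every `φ` with `φ (1 ⊗ X) = e` is one of them: `Cu.xh_eq`), the generic point `some (a ↦ 1 ⊗ a)`, `f φ` the point of `φ`, `o = none`. If `eta P ≠ 0` then the points `zm ζ P` are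
different, `rg_one`, orders `1`, `0`; if `eta P = 0` then they are all `P`, `rg_two`, orders `n`, `0` (there are `n` roots of unity in `Ω`). The values at the places:
`exists_above`; at infinity `X` is not in the valuation ring (`non_vi`). -/
theorem fib_ratEq (hn : 2 ≤ n) (ha : a.Separable) (P : C.V.pt Ω)
    (hP : ∃ (v : K × K) (b : Ω), v ≠ 0 ∧
      (algebraMap K Ω v.1, algebraMap K Ω v.2) = (b * (c.xh P).1, b * (c.xh P).2)) :
    (∑ᶠ ζ : rootsOfUnity n Ω, Finsupp.single (c.zm ζ P) 1 : C.V.pt Ω →₀ ℤ) -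
      n • Finsupp.single (C.bp.o Ω) 1 ∈ C.V.ratEq K Ω := by
  have hn0 : n ≠ 0 := by omega
  have : NeZero n := ⟨hn0⟩
  have hac : IsAlgClosed Ω := IsAlgClosure.isAlgClosed K
  have hchar : CharZero Ω := charZero_of_injective_algebraMap (algebraMap K Ω).injective
  have hnz : NeZero (n : Ω) := ⟨Nat.cast_ne_zero.2 hn0⟩
  have hft : Fintype (rootsOfUnity n Ω) := Fintype.ofFinite _
  have hcard : Fintype.card (rootsOfUnity n Ω) = n := by
    rw [← Nat.card_eq_fintype_card]
    exact HasEnoughRootsOfUnity.natCard_rootsOfUnity Ω n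
  have hfin : (∑ᶠ ζ : rootsOfUnity n Ω, Finsupp.single (c.zm ζ P) 1 : C.V.pt Ω →₀ ℤ) =
      ∑ ζ : rootsOfUnity n Ω, Finsupp.single (c.zm ζ P) 1 := finsum_eq_sum_of_fintype _
  rw [hfin]
  -- if all points are equal
  have hconst : (∀ ζ : rootsOfUnity n Ω, c.zm ζ P = P) →
      (∑ ζ : rootsOfUnity n Ω, Finsupp.single (c.zm ζ P) 1 : C.V.pt Ω →₀ ℤ) =
        Finsupp.single P (n : ℤ) := by
    intro h
    rw [Finset.sum_congr rfl fun ζ _ => by rw [h ζ], Finset.sum_const, Finset.card_univ, hcard,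
      Finsupp.smul_single, nsmul_eq_mul, mul_one]
  have hbp : C.bp.o Ω = fibN C Ω := rfl
  rw [hbp]
  rcases fib_cases P with hPn | ⟨φ₀, hPs⟩
  · -- the point at infinity
    have h1 : ∀ ζ : rootsOfUnity n Ω, c.zm ζ P = P := by
      intro ζ
      have h2 := c.xh_zm ζ P
      rw [hPn, fib_xhN, ← hPn] at h2
      rcases fib_cases (c.zm ζ P) with h3 | ⟨ψ, h3⟩
      · rw [h3, hPn]
      · rw [h3, fib_xhS] at h2
        exact absurd (congrArg Prod.snd h2) one_ne_zero
    rw [hconst h1, hPn, Finsupp.smul_single, nsmul_eq_mul, mul_one, sub_self]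
    exact zero_mem _
  · rw [hPs] at hP
    obtain ⟨v, b, hv, hvb⟩ := hP
    rw [fib_xhS] at hvb
    have hv1 : algebraMap K Ω v.1 = b * φ₀ c.X := congrArg Prod.fst hvb
    have hv2 : algebraMap K Ω v.2 = b := by
      have h := congrArg Prod.snd hvb
      change algebraMap K Ω v.2 = b * 1 at h
      rw [h, mul_one]
    have hv20 : v.2 ≠ 0 := by
      intro h
      rw [h, map_zero] at hv2
      rw [← hv2, zero_mul] at hv1
      exact hv (Prod.ext ((map_eq_zero _).1 hv1) h)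
    have he : φ₀ c.X = algebraMap K Ω (v.1 / v.2) := by
      rw [map_div₀, hv1, hv2, mul_div_cancel_left₀]
      rw [← hv2, Ne, map_eq_zero]
      exact hv20
    generalize v.1 / v.2 = e at he
    clear hv hvb hv1 hv2 hv20 v b
    -- the points of the fibre
    have hz : ∀ ζ : rootsOfUnity n Ω, ∃ φ : C.A →ₐ[M] Ω, c.zm ζ P = fibS φ ∧
        φ c.X = φ₀ c.X ∧ φ c.U = ((ζ : Ωˣ) : Ω) * φ₀ c.U := by
      intro ζ
      have h2 := c.xh_zm ζ P
      have h3 := c.eta_zm ζ P
      rw [hPs, fib_xhS, ← hPs] at h2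
      rw [hPs, fib_etaS, ← hPs] at h3
      rcases fib_cases (c.zm ζ P) with h4 | ⟨ψ, h4⟩
      · rw [h4, fib_xhN] at h2
        exact absurd (congrArg Prod.snd h2).symm one_ne_zero
      · rw [h4, fib_xhS] at h2
        rw [h4, fib_etaS] at h3
        exact ⟨ψ, h4, congrArg Prod.fst h2, h3⟩
    choose Φ hΦ hΦX hΦU using hz
    -- homomorphisms of the base change
    let A' := K ⊗[M] C.A
    let G' : Dg K A' := C.G.bc K
    have hdom : IsDomain A' := G'.isDomain
    let E := FractionRing A'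
    let inc : C.A →ₐ[M] A' := Algebra.TensorProduct.includeRight
    let lf : (C.A →ₐ[M] Ω) → (A' →ₐ[K] Ω) := fun φ =>
      Algebra.TensorProduct.lift (Algebra.ofId K Ω) φ fun _ _ => Commute.all _ _
    have hlf : ∀ φ y, lf φ ((1 : K) ⊗ₜ[M] y) = φ y := by
      intro φ y
      change Algebra.TensorProduct.lift (Algebra.ofId K Ω) φ _ _ = _
      rw [Algebra.TensorProduct.lift_tmul, map_one, one_mul]
    let rs : (A' →ₐ[K] Ω) → (C.A →ₐ[M] Ω) := fun ψ => (ψ.restrictScalars M).comp inc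
    have hrs : ∀ ψ y, rs ψ y = ψ ((1 : K) ⊗ₜ[M] y) := fun ψ y => rfl
    have hrl : ∀ φ, rs (lf φ) = φ := fun φ => AlgHom.ext fun y => by rw [hrs, hlf]
    have hlr : ∀ ψ, lf (rs ψ) = ψ := by
      intro ψ
      apply AlgHom.ext
      intro z
      induction z using TensorProduct.induction_on with
      | zero => rw [map_zero, map_zero]
      | tmul k y =>
        have h2 : k ⊗ₜ[M] y = k • ((1 : K) ⊗ₜ[M] y) := by
          rw [TensorProduct.smul_tmul', smul_eq_mul, mul_one]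
        rw [h2, map_smul, map_smul, hlf, hrs]
      | add x y hx hy => rw [map_add, map_add, hx, hy]
    have hlinj : Function.Injective lf := Function.LeftInverse.injective hrl
    -- the functions
    have hdX : G'.d ((1 : K) ⊗ₜ[M] c.X) = (n : ℕ) := by rw [C.G.bc_one_tmul K, c.deg]
    have hde : G'.d (-algebraMap K A' e) < (n : ℕ) := by
      rw [G'.neg]
      have hpos : (0 : WithBot ℕ) < (n : ℕ) := by exact_mod_cast Nat.pos_of_ne_zero hn0
      by_cases h0 : e = 0
      · rw [h0, map_zero, G'.zero]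
        exact WithBot.bot_lt_coe _
      · rw [G'.d_cst h0]
        exact hpos
    let x : A' := (1 : K) ⊗ₜ[M] c.X - algebraMap K A' e
    have hdx : G'.d x = (n : ℕ) := by
      have h1 : x = -algebraMap K A' e + (1 : K) ⊗ₜ[M] c.X := by
        change (1 : K) ⊗ₜ[M] c.X - algebraMap K A' e = _
        ring
      rw [h1, G'.add_eq (by rw [hdX]; exact hde), hdX]
    have hdy : G'.d (1 : A') = (0 : ℕ) := by rw [G'.one]; rfl
    let S : Finset (A' →ₐ[K] Ω) := Finset.univ.image fun ζ => lf (Φ ζ)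
    have hSX : ∀ ψ ∈ S, ψ ((1 : K) ⊗ₜ[M] c.X) = algebraMap K Ω e := by
      intro ψ hψ
      obtain ⟨ζ, -, rfl⟩ := Finset.mem_image.1 hψ
      rw [hlf, hΦX, he]
    have hSU : ∀ ψ ∈ S, (ψ ((1 : K) ⊗ₜ[M] c.U) = 0 ↔ φ₀ c.U = 0) := by
      intro ψ hψ
      obtain ⟨ζ, -, rfl⟩ := Finset.mem_image.1 hψ
      rw [hlf, hΦU, mul_eq_zero]
      exact or_iff_right (Units.ne_zero _)
    have hnS : ∀ ψ, ψ ∉ S → Lu ψ x 1 := by
      intro ψ hψ
      refine ⟨1, x, by rw [map_one]; exact one_ne_zero, ?_, by ring⟩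
      intro h0
      apply hψ
      have h1 : ψ ((1 : K) ⊗ₜ[M] c.X) = algebraMap K Ω e := by
        have h2 : ψ x = ψ ((1 : K) ⊗ₜ[M] c.X) - ψ (algebraMap K A' e) := map_sub _ _ _
        rw [h2, ψ.commutes, sub_eq_zero] at h0
        exact h0
      have h2 : c.xh (fibS (rs ψ)) = (1 * (c.xh P).1, 1 * (c.xh P).2) := by
        rw [one_mul, one_mul, hPs, fib_xhS, fib_xhS, hrs, h1, he]
      obtain ⟨-, ζ, hζ⟩ := c.xh_eq hn0 h2
      rw [hΦ] at hζ
      have h3 : rs ψ = Φ ζ := fibS_inj hζ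
      exact Finset.mem_image.2 ⟨ζ, Finset.mem_univ _, by rw [← h3, hlr]⟩
    -- the generic point
    let ψ' : C.A →ₐ[M] E := (IsScalarTower.toAlgHom M A' E).comp inc
    have hψ' : ∀ y, ψ' y = algebraMap A' E ((1 : K) ⊗ₜ[M] y) := fun y => rfl
    have hval : ∀ φ ∈ S, ∀ w : Place K E Ω, Ab w φ →
        C.V.IsVal w (vpt ψ') (fibS (rs φ)) := by
      intro φ _ w hw
      refine vpt_val ψ' w (rs φ) fun y => ?_
      obtain ⟨h1, h2⟩ := hw ((1 : K) ⊗ₜ[M] y)
      exact ⟨h1, h2⟩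
    have hinf : ∀ w : Place K E Ω, w.V = G'.vi → C.V.IsVal w (vpt ψ') (fibN C Ω) := by
      intro w hw
      refine vpt_vi G' (inc : C.A →+* A') ψ' hψ' ⟨c.X, ?_⟩ w hw
      change 0 < G'.d ((1 : K) ⊗ₜ[M] c.X)
      rw [hdX]
      exact_mod_cast Nat.pos_of_ne_zero hn0
    by_cases hU : φ₀ c.U = 0
    · -- the point is a zero of `U`
      have hS : ∀ φ ∈ S, ∃ t, Rg φ t ∧ Lu φ x (t ^ n) ∧ Lu φ 1 (t ^ 0) := by
        intro φ hφ
        have h1 := rg_two (Nat.pos_of_ne_zero hn0) (ha.map (f := algebraMap M K)) (bc_eq c (K := K))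
          (bc_gen c (K := K)) φ (hSX φ hφ) ((hSU φ hφ).2 hU)
        refine ⟨_, h1.1, h1.2, 1, 1, ?_, ?_, ?_⟩
        · rw [map_one]; exact one_ne_zero
        · rw [map_one]; exact one_ne_zero
        · rw [pow_zero]
      have key := G'.div_ratEq (F := M) (E := E) (Ω := Ω) C.V hdx hdy S (fun _ => n) (fun _ => 0) hS
        hnS (vpt ψ') (vpt_rat ψ') (fun φ => fibS (rs φ)) (fibN C Ω) hval hinf
      have hall : ∀ ζ : rootsOfUnity n Ω, c.zm ζ P = P := by
        intro ζ
        rw [hΦ, hPs]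
        congr 1
        refine c.hom_ext (hΦX ζ) ?_
        rw [hΦU, hU, mul_zero]
      have hS1 : S = {lf φ₀} := by
        ext ψ
        rw [Finset.mem_singleton]
        constructor
        · intro hψ
          obtain ⟨ζ, -, rfl⟩ := Finset.mem_image.1 hψ
          congr 1
          refine c.hom_ext (hΦX ζ) ?_
          rw [hΦU, hU, mul_zero]
        · rintro rfl
          refine Finset.mem_image.2 ⟨1, Finset.mem_univ _, ?_⟩
          congr 1
          refine c.hom_ext (hΦX 1) ?_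
          rw [hΦU, hU, mul_zero]
      rw [hS1, Finset.sum_singleton, hrl, ← hPs] at key
      rw [hconst hall]
      refine (congrArg (· ∈ C.V.ratEq K Ω) ?_).mp key
      rw [Finsupp.smul_single, nsmul_eq_mul, mul_one]
      simp
    · -- `U` does not vanish
      have hS : ∀ φ ∈ S, ∃ t, Rg φ t ∧ Lu φ x (t ^ 1) ∧ Lu φ 1 (t ^ 0) := by
        intro φ hφ
        have h1 := rg_one (Nat.pos_of_ne_zero hn0) (bc_eq c (K := K))
          (bc_gen c (K := K)) φ (hSX φ hφ) (fun h => hU ((hSU φ hφ).1 h))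
        refine ⟨_, h1, ⟨1, 1, ?_, ?_, ?_⟩, 1, 1, ?_, ?_, ?_⟩
        · rw [map_one]; exact one_ne_zero
        · rw [map_one]; exact one_ne_zero
        · rw [pow_one]
        · rw [map_one]; exact one_ne_zero
        · rw [map_one]; exact one_ne_zero
        · rw [pow_zero]
      have key := G'.div_ratEq (F := M) (E := E) (Ω := Ω) C.V hdx hdy S (fun _ => 1) (fun _ => 0) hS
        hnS (vpt ψ') (vpt_rat ψ') (fun φ => fibS (rs φ)) (fibN C Ω) hval hinf
      have hinj : ∀ ζ ∈ (Finset.univ : Finset (rootsOfUnity n Ω)),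
          ∀ ζ' ∈ (Finset.univ : Finset (rootsOfUnity n Ω)), lf (Φ ζ) = lf (Φ ζ') → ζ = ζ' := by
        intro ζ _ ζ' _ h
        have h1 := congrArg (fun φ => φ c.U) (hlinj h)
        simp only [hΦU] at h1
        exact Subtype.ext (Units.ext (mul_right_cancel₀ hU h1))
      have hsum : ∑ φ ∈ S, Finsupp.single (fibS (rs φ)) (((1 : ℕ) : ℤ) - ((0 : ℕ) : ℤ)) =
          ∑ ζ : rootsOfUnity n Ω, Finsupp.single (c.zm ζ P) 1 := by
        rw [Finset.sum_image hinj]
        refine Finset.sum_congr rfl fun ζ _ => ?_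
        rw [hrl, ← hΦ]
        simp
      rw [hsum] at key
      refine (congrArg (· ∈ C.V.ratEq K Ω) ?_).mp key
      rw [Finsupp.smul_single, nsmul_eq_mul, mul_one]
      simp

end fib

end QS
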