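import Pool.Agent.Lib.MP_f80667_ag.Qs.Sh

/-! Moving a root of `f` to infinity: the change of coordinates. -/

open Polynomial

namespace QS

section form

variable {F M : Type} [Field F] [Field M] [Algebra F M]

private theorem fm_base {L : Type} [Field L] [Algebra F L] [Algebra M L] [IsScalarTower F M L]
    (d : ℕ) (f : F[X]) (v : L × L) : fm d (f.map (algebraMap F M)) v = fm d f v := by
  unfold fm
  refine Finset.sum_congr rfl fun i _ => ?_
  rw [coeff_map, ← IsScalarTower.algebraMap_apply F M L]

private theorem fm_div {L : Type} [Field L] [Algebra F L] {d : ℕ} {f : F[X]}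
    (hf : f.natDegree ≤ d) (x : L) {y : L} (hy : y ≠ 0) :
    fm d f (x, y) = y ^ d * aeval (x / y) f := by
  have e : ((x, y) : L × L) = (y * ((x / y, 1) : L × L).1, y * ((x / y, 1) : L × L).2) :=
    Prod.ext (mul_div_cancel₀ x hy).symm (mul_one y).symm
  rw [e, fm_mul, fm_one hf]

private theorem fm_zero {L : Type} [Field L] [Algebra F L] (d : ℕ) (f : F[X]) (x : L) :
    fm d f (x, 0) = x ^ d * algebraMap F L (f.coeff d) := by
  have e : ((x, 0) : L × L) = (x * ((1, 0) : L × L).1, x * ((1, 0) : L × L).2) :=
    Prod.ext (mul_one x).symm (mul_zero x).symm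
  rw [e, fm_mul, fm_inf]

private theorem coeff_shift {O : Type} [CommRing O] {N : ℕ} {f : O[X]} (hf : f.natDegree ≤ N)
    (e : O) : (f.comp (X + C e)).coeff N = f.coeff N := by
  rw [← taylor_apply]
  rcases hf.eq_or_lt with h | h
  · rw [← h, coeff_taylor_natDegree]
    rfl
  · rw [coeff_eq_zero_of_natDegree_lt h, coeff_eq_zero_of_natDegree_lt]
    rw [natDegree_taylor]
    exact h

private theorem fm_shift {L : Type} [Field L] [Algebra F L] {N : ℕ} {f : F[X]}
    (hf : f.natDegree ≤ N) (e : F) (x y : L) :
    fm N f (x + algebraMap F L e * y, y) = fm N (f.comp (X + C e)) (x, y) := by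
  by_cases hy : y = 0
  · rw [hy, mul_zero, add_zero, fm_zero, fm_zero, coeff_shift hf]
  · have hg : (f.comp (X + C e)).natDegree ≤ N := by
      rw [← taylor_apply, natDegree_taylor]
      exact hf
    rw [fm_div hf _ hy, fm_div hg _ hy]
    have e1 : (x + algebraMap F L e * y) / y = x / y + algebraMap F L e := by
      rw [add_div, mul_div_cancel_right₀ _ hy]
    have e2 : aeval (x / y) (f.comp (X + C e)) = aeval (x / y + algebraMap F L e) f := by
      rw [aeval_comp, map_add, aeval_X, aeval_C]
    rw [e1, e2]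

private theorem fm_reflect {L : Type} [Field L] [Algebra F L] (N : ℕ) (g : F[X]) (x y : L) :
    fm N (g.reflect N) (x, y) = fm N g (y, x) := by
  unfold fm
  rw [← Finset.sum_range_reflect]
  refine Finset.sum_congr rfl fun i hi => ?_
  have hi' : i ≤ N := Nat.lt_succ_iff.1 (Finset.mem_range.1 hi)
  have h1 : N + 1 - 1 - i = N - i := by omega
  have h2 : N - (N - i) = i := by omega
  rw [h1, coeff_reflect, revAt_le (Nat.sub_le N i), h2]
  ring

/-- The change of coordinates. Proof: the matrix is `(e, 1; 1, 0)`: `fm N f (e v₁ + v₂, v₁) = fm N (sh N f e) (v₁, v₂)` (compare coefficients: `f(e + v₂ / v₁) v₁ ^ N`;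
both sides are polynomial in `v₁`, `v₂`, so one may take `v₁ ≠ 0` in the fraction field of the polynomial ring, or expand `taylor`). -/
theorem sh_qa {N : ℕ} {f : F[X]} (hf : f.natDegree ≤ N) (e : M) :
    Nonempty (Qa N f (sh N (f.map (algebraMap F M)) e)) := by
  refine ⟨⟨e, 1, 1, 0, ?_, ?_⟩⟩
  · rw [mul_zero, one_mul, zero_sub]
    exact neg_ne_zero.2 one_ne_zero
  · intro L _ _ _ _ v
    have hf' : (f.map (algebraMap F M)).natDegree ≤ N := natDegree_map_le.trans hf
    obtain ⟨x, y⟩ := v
    change fm N f (algebraMap M L e * x + algebraMap M L 1 * y,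
      algebraMap M L 1 * x + algebraMap M L 0 * y) = _
    have e1 : algebraMap M L e * x + algebraMap M L 1 * y = y + algebraMap M L e * x := by
      rw [map_one, one_mul, add_comm]
    have e2 : algebraMap M L 1 * x + algebraMap M L 0 * y = x := by
      rw [map_one, map_zero, one_mul, zero_mul, add_zero]
    rw [e1, e2, ← fm_base (M := M), fm_shift hf', sh, fm_reflect]

/-- The identity. -/
theorem id_qa (N : ℕ) (f : F[X]) : Nonempty (Qa N f (f.map (algebraMap F M))) := by
  refine ⟨⟨1, 0, 0, 1, ?_, ?_⟩⟩
  · rw [mul_one, mul_zero, sub_zero]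
    exact one_ne_zero
  · intro L _ _ _ _ v
    obtain ⟨x, y⟩ := v
    change fm N f (algebraMap M L 1 * x + algebraMap M L 0 * y,
      algebraMap M L 0 * x + algebraMap M L 1 * y) = _
    have e1 : algebraMap M L 1 * x + algebraMap M L 0 * y = x := by
      rw [map_one, map_zero, one_mul, zero_mul, add_zero]
    have e2 : algebraMap M L 0 * x + algebraMap M L 1 * y = y := by
      rw [map_one, map_zero, one_mul, zero_mul, zero_add]
    rw [e1, e2, fm_base]

end form

end QS
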