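import Pool.Agent.Lib.MP_f80667_ag.Qs.ShS
import Pool.Agent.Lib.MP_f80667_ag.Qs.ShQ
import Pool.Agent.Lib.MP_f80667_ag.Cv.Lc
import Pool.Agent.Lib.MP_f80667_ag.Pe.KeR

/-! Good polynomials. -/

open ZC BE PE CV Polynomial IntermediateField

namespace QS

/-- The polynomial `f` is good: integral coefficients, the leading coefficient is a unit, `a f + b f' = 1` with `b` integral. -/
structure Gf {F : Type} [Field F] {K Ω : Type} [Field K] [Field Ω] [Algebra K Ω] [Algebra F Ω]
    (L : Ld K Ω) (f : F[X]) : Prop where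
  co : ∀ i, L.nm (algebraMap F Ω (f.coeff i)) ≤ 1
  lc : L.nm (algebraMap F Ω f.leadingCoeff) = 1
  bz : ∃ a b : F[X], a * f + b * derivative f = 1 ∧ ∀ i, L.nm (algebraMap F Ω (b.coeff i)) ≤ 1

private theorem gdB_lift {F M : Type} [Field F] [Field M] [Algebra F M] (O : ValuationSubring M)
    {p : F[X]} (h : ∀ i, algebraMap F M (p.coeff i) ∈ O) :
    ∃ q : Polynomial O, q.map (algebraMap O M) = p.map (algebraMap F M) := by
  have h1 : p.map (algebraMap F M) ∈ lifts (algebraMap O M) := by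
    rw [lifts_iff_coeff_lifts]
    intro i
    rw [coeff_map]
    exact ⟨⟨_, h i⟩, rfl⟩
  exact (mem_lifts _).1 h1

/-- The relation is integral. -/
private theorem gdB_bz {O M : Type} [CommRing O] [IsDomain O] [Field M] [Algebra O M]
    (hi : Function.Injective (algebraMap O M)) {f₀ b₀ : O[X]} (hl : IsUnit f₀.leadingCoeff)
    {a : M[X]} (h : a * f₀.map (algebraMap O M) +
      b₀.map (algebraMap O M) * (derivative f₀).map (algebraMap O M) = 1) :
    ∃ b c : O[X], b * f₀ + c * derivative f₀ = 1 := by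
  obtain ⟨u, hu⟩ := hl
  have hm : (f₀ * C ((u⁻¹ : Oˣ) : O)).Monic := by
    rw [Monic, leadingCoeff_mul, leadingCoeff_C, ← hu, Units.mul_inv]
  obtain ⟨g₀, hg⟩ : ∃ g₀ : O[X], g₀ = f₀ * C ((u⁻¹ : Oˣ) : O) := ⟨_, rfl⟩
  rw [← hg] at hm
  have hf : f₀ = g₀ * C (u : O) := by
    rw [hg, mul_assoc, ← C_mul, Units.inv_mul, C_1, mul_one]
  obtain ⟨h₀, hh⟩ : ∃ h₀ : O[X], h₀ = 1 - b₀ * derivative f₀ := ⟨_, rfl⟩
  have hd : g₀.map (algebraMap O M) ∣ h₀.map (algebraMap O M) := by
    refine ⟨a * C (algebraMap O M (u : O)), ?_⟩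
    have e1 : f₀.map (algebraMap O M) = g₀.map (algebraMap O M) * C (algebraMap O M (u : O)) := by
      conv_lhs => rw [hf]
      rw [Polynomial.map_mul, map_C]
    rw [hh, Polynomial.map_sub, Polynomial.map_one, Polynomial.map_mul, ← h, e1]
    ring
  have hz : h₀ %ₘ g₀ = 0 := by
    refine map_injective _ hi ?_
    rw [map_modByMonic _ hm, Polynomial.map_zero]
    exact (modByMonic_eq_zero_iff_dvd (hm.map _)).2 hd
  have hq : h₀ = g₀ * (h₀ /ₘ g₀) := by
    have h1 := modByMonic_add_div h₀ g₀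
    rw [hz, zero_add] at h1
    exact h1.symm
  refine ⟨C ((u⁻¹ : Oˣ) : O) * (h₀ /ₘ g₀), b₀, ?_⟩
  have e2 : C ((u⁻¹ : Oˣ) : O) * (h₀ /ₘ g₀) * f₀ = h₀ := by
    conv_rhs => rw [hq]
    rw [hg]
    ring
  rw [e2, hh]
  ring

section loc

variable {F : Type} [Field F] {K Ω : Type} [Field K] [CharZero K] [Field Ω] [Algebra K Ω]
  [Algebra F K] [Algebra F Ω] [IsScalarTower F K Ω] [IsAlgClosure K Ω]

omit [CharZero K] [Algebra F K] [Algebra F Ω] [IsScalarTower F K Ω] [IsAlgClosure K Ω] in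
private theorem gdB_unit {M : IntermediateField K Ω} {L' : Ld M Ω} {x : Ok L'}
    (h : L'.nm (algebraMap M Ω (algebraMap (Ok L') M x)) = 1) : IsUnit x := by
  have h0 : (x : M) ≠ 0 := by
    intro h1
    have h2 : algebraMap M Ω (algebraMap (Ok L') M x) = 0 := by
      change algebraMap M Ω (x : M) = 0
      rw [h1, map_zero]
    rw [h2, L'.zero] at h
    exact zero_ne_one h
  have h3 : (x : M)⁻¹ ∈ Ok L' := by
    change L'.nm (algebraMap M Ω (x : M)⁻¹) ≤ 1
    rw [map_inv₀, L'.inv]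
    change L'.nm (algebraMap M Ω (x : M)) = 1 at h
    rw [h, inv_one]
  exact IsUnit.of_mul_eq_one (⟨(x : M)⁻¹, h3⟩ : Ok L') (Subtype.ext (mul_inv_cancel₀ h0))

omit [CharZero K] [IsAlgClosure K Ω] in
private theorem gdB_alg (M : IntermediateField K Ω) (x : F) :
    algebraMap M Ω (algebraMap F M x) = algebraMap F Ω x := by
  rw [IsScalarTower.algebraMap_apply F K M, IsScalarTower.algebraMap_apply F K Ω]
  rfl

/-- A good polynomial over the integers of `M`. Proof: `a f = 1 - b f'` is integral and the leading coefficient of `f` is a unit, so `a` is integral. -/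
theorem gf_int {L : Ld K Ω} {f : F[X]} (hf : Gf L f) {M : IntermediateField K Ω} {L' : Ld M Ω}
    (hL : ∀ x, L'.nm x = L.nm x) : ∃ f₀ : Polynomial (Ok L'),
      f₀.map (algebraMap (Ok L') M) = f.map (algebraMap F M) ∧ f₀.natDegree = f.natDegree ∧
      IsUnit f₀.leadingCoeff ∧ ∃ b c : Polynomial (Ok L'), b * f₀ + c * derivative f₀ = 1 := by
  have hc : ∀ x : F, algebraMap M Ω (algebraMap F M x) = algebraMap F Ω x := gdB_alg M
  have hmem : ∀ x : F, L.nm (algebraMap F Ω x) ≤ 1 → algebraMap F M x ∈ Ok L' := by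
    intro x hx
    change L'.nm (algebraMap M Ω (algebraMap F M x)) ≤ 1
    rw [hL, hc]
    exact hx
  have hi : Function.Injective (algebraMap (Ok L') M) := Subtype.val_injective
  obtain ⟨f₀, hf₀⟩ := gdB_lift (Ok L') (p := f) fun i => hmem _ (hf.co i)
  obtain ⟨a, b, hab, hb⟩ := hf.bz
  obtain ⟨b₀, hb₀⟩ := gdB_lift (Ok L') (p := b) fun i => hmem _ (hb i)
  have hdeg : f₀.natDegree = f.natDegree := by
    rw [← natDegree_map_eq_of_injective hi f₀, hf₀,
      natDegree_map_eq_of_injective (algebraMap F M).injective]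
  have hlc : algebraMap (Ok L') M f₀.leadingCoeff = algebraMap F M f.leadingCoeff := by
    rw [← leadingCoeff_map_of_injective hi, hf₀,
      leadingCoeff_map_of_injective (algebraMap F M).injective]
  have hu : IsUnit f₀.leadingCoeff := by
    refine gdB_unit ?_
    rw [hlc, hL, hc]
    exact hf.lc
  refine ⟨f₀, hf₀, hdeg, hu, gdB_bz hi hu (a := a.map (algebraMap F M)) (b₀ := b₀) ?_⟩
  rw [← derivative_map, hf₀, hb₀, derivative_map, ← Polynomial.map_mul, ← Polynomial.map_mul,
    ← Polynomial.map_add, hab, Polynomial.map_one]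

/-- The pointed equation of a good polynomial with a root in `M` or of degree `N - 1`. Proof: `gf_int`; `a₀ = f₀` and `id_qa` for degree `N - 1`; for degree `N` the root `e` is integral
(`keR_root` in `Pe/KeR.lean`), `a₀ = sh N f₀ e`, `sh_deg` (`f'(e)` is a unit: `keR_root`), `sh_sep`, `sh_map`, `sh_qa`. -/
theorem gf_one {L : Ld K Ω} {f : F[X]} (hf : Gf L f) {N : ℕ} (hN : 1 ≤ N)
    (hd : f.natDegree = N ∨ f.natDegree + 1 = N) {M : IntermediateField K Ω} {L' : Ld M Ω}
    (hL : ∀ x, L'.nm x = L.nm x) (he : f.natDegree = N → ∃ e ∈ M, aeval e f = 0) :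
    ∃ a₀ : Polynomial (Ok L'), a₀.natDegree + 1 = N ∧ IsUnit a₀.leadingCoeff ∧
      (∃ b c : Polynomial (Ok L'), b * a₀ + c * derivative a₀ = 1) ∧
      Nonempty (Qa N f (a₀.map (algebraMap (Ok L') M))) := by
  obtain ⟨f₀, hf₀, hdeg, hu, hbc⟩ := gf_int hf hL
  rcases hd with hd | hd
  · obtain ⟨e, heM, he0⟩ := he hd
    obtain ⟨he1, he2⟩ := Ld.keR_root hf.co hf.lc hf.bz he0
    obtain ⟨ε, hε⟩ : ∃ ε : Ok L', ((ε : M) : Ω) = e :=
      ⟨⟨⟨e, heM⟩, by
        change L'.nm e ≤ 1
        rw [hL]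
        exact he1⟩, rfl⟩
    have hj : Function.Injective (algebraMap M Ω) := (algebraMap M Ω).injective
    have hi : Function.Injective (algebraMap (Ok L') M) := Subtype.val_injective
    have key : ∀ (g : Polynomial (Ok L')) (g₁ : F[X]),
        g.map (algebraMap (Ok L') M) = g₁.map (algebraMap F M) →
        algebraMap M Ω (algebraMap (Ok L') M (g.eval ε)) = aeval e g₁ := by
      intro g g₁ h
      have h1 : algebraMap (Ok L') M (g.eval ε) =
          (g₁.map (algebraMap F M)).eval (algebraMap (Ok L') M ε) := by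
        rw [← h, eval_map, eval₂_at_apply]
      rw [h1, ← eval₂_at_apply (algebraMap M Ω), ← eval_map, Polynomial.map_map]
      have h2 : (algebraMap M Ω).comp (algebraMap F M) = algebraMap F Ω :=
        RingHom.ext fun x => gdB_alg M x
      rw [h2, eval_map_algebraMap]
      have h3 : algebraMap M Ω (algebraMap (Ok L') M ε) = e := hε
      rw [h3]
    have h1 : f₀.eval ε = 0 := by
      refine hi (hj ?_)
      rw [key f₀ f hf₀, he0, map_zero, map_zero]
    have h2 : IsUnit ((derivative f₀).eval ε) := by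
      refine gdB_unit ?_
      rw [key (derivative f₀) (derivative f) (by rw [← derivative_map, hf₀, derivative_map]), hL]
      exact he2
    have hN' : f₀.natDegree = N := by rw [hdeg, hd]
    obtain ⟨h3, h4⟩ := sh_deg hN hN'.le h1 h2.ne_zero
    refine ⟨sh N f₀ ε, h3, ?_, sh_sep hN hN' hu hbc h1, ?_⟩
    · rw [h4]
      exact h2
    · rw [sh_map _ hN'.le, hf₀]
      exact sh_qa hd.le _
  · refine ⟨f₀, by rw [hdeg, hd], hu, hbc, ?_⟩
    rw [hf₀]
    exact id_qa N f

end loc

end QS
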