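import Mathlib

/-! Extensions of degree prime to `l`. -/

open Polynomial IntermediateField

namespace QS

/-- Proof: a product of polynomials of degree divisible by `l` has degree divisible by `l` (induction on the factorization). -/
theorem exists_fac {K : Type} [Field K] {f : K[X]} {l : ℕ} (h : ¬ l ∣ f.natDegree) :
    ∃ g : K[X], Irreducible g ∧ g ∣ f ∧ ¬ l ∣ g.natDegree := by
  by_contra hcon
  push Not at hcon
  have key : ∀ f : K[X], (∀ g : K[X], Irreducible g → g ∣ f → l ∣ g.natDegree) →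
      l ∣ f.natDegree := by
    intro f
    refine WfDvdMonoid.induction_on_irreducible
      (motive := fun f : K[X] => (∀ g : K[X], Irreducible g → g ∣ f → l ∣ g.natDegree) →
        l ∣ f.natDegree) f ?_ ?_ ?_
    · intro _
      rw [natDegree_zero]
      exact dvd_zero l
    · intro u hu _
      rw [natDegree_eq_zero_of_isUnit hu]
      exact dvd_zero l
    · intro a i ha hi ih hall
      rw [natDegree_mul hi.ne_zero ha]
      exact dvd_add (hall i hi (dvd_mul_right i a))
        (ih fun g hg hga => hall g hg (hga.mul_left i))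
  exact h (key f hcon)

section ext

variable {K Ω : Type} [Field K] [Field Ω] [Algebra K Ω] [IsAlgClosure K Ω] {l : ℕ}

/-- A polynomial over `M` of degree prime to `l` has a root `θ` with `[M(θ) : K]` prime to `l`. Proof: `exists_fac` over `M`, the degree of `M(θ)` over `M` is
the degree of the irreducible factor; `M ⊔ K⟮θ⟯` is `M⟮θ⟯` restricted to `K` (`restrictScalars_adjoin`, ..), `Module.finrank_mul_finrank`. -/
theorem exists_root (hl : l.Prime) (M : IntermediateField K Ω) [FiniteDimensional K M]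
    (hM : ¬ l ∣ Module.finrank K M) {f : Polynomial Ω} (hf : ∀ i, f.coeff i ∈ M)
    (hd : ¬ l ∣ f.natDegree) :
    ∃ θ : Ω, f.eval θ = 0 ∧ FiniteDimensional K (M ⊔ K⟮θ⟯ : IntermediateField K Ω) ∧
      ¬ l ∣ Module.finrank K (M ⊔ K⟮θ⟯ : IntermediateField K Ω) := by
  have hlift : f ∈ Polynomial.lifts (algebraMap M Ω) := by
    rw [Polynomial.lifts_iff_coeff_lifts]
    exact fun n => ⟨⟨f.coeff n, hf n⟩, rfl⟩
  obtain ⟨f', hf'⟩ := (Polynomial.mem_lifts f).1 hlift
  have hd' : ¬ l ∣ f'.natDegree := by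
    rwa [← hf', natDegree_map] at hd
  obtain ⟨g, hg, hgf, hgd⟩ := exists_fac hd'
  have hclosed : IsAlgClosed Ω := IsAlgClosure.isAlgClosed K
  have hg0 : g.degree ≠ 0 := by
    intro h0
    apply hgd
    rw [natDegree_eq_of_degree_eq_some h0]
    exact dvd_zero l
  obtain ⟨θ, hθ⟩ := IsAlgClosed.exists_aeval_eq_zero Ω g hg0
  refine ⟨θ, ?_, ?_⟩
  · obtain ⟨q, rfl⟩ := hgf
    rw [← hf', eval_map, ← aeval_def, map_mul, hθ, zero_mul]
  · have hmin := minpoly.eq_of_irreducible hg hθ
    have hint : IsIntegral M θ := by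
      by_contra hc
      rw [minpoly.eq_zero hc] at hmin
      have h1 : g.leadingCoeff⁻¹ ≠ 0 := inv_ne_zero (leadingCoeff_ne_zero.2 hg.ne_zero)
      exact (mul_ne_zero hg.ne_zero (C_ne_zero.2 h1)) hmin
    have hdeg : (minpoly M θ).natDegree = g.natDegree := by
      rw [← hmin, natDegree_mul_C (inv_ne_zero (leadingCoeff_ne_zero.2 hg.ne_zero))]
    have h1 : Module.finrank M M⟮θ⟯ = g.natDegree := by
      rw [IntermediateField.adjoin.finrank hint, hdeg]
    have h2 : Module.finrank K M * Module.finrank M M⟮θ⟯ = Module.finrank K M⟮θ⟯ :=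
      Module.finrank_mul_finrank K M M⟮θ⟯
    have h3 : Module.finrank K (M ⊔ K⟮θ⟯ : IntermediateField K Ω) = Module.finrank K M⟮θ⟯ := by
      rw [← IntermediateField.restrictScalars_adjoin_eq_sup]
      rfl
    have h4 : ¬ l ∣ Module.finrank K (M ⊔ K⟮θ⟯ : IntermediateField K Ω) := by
      rw [h3, ← h2, h1, hl.dvd_mul]
      exact not_or.2 ⟨hM, hgd⟩
    refine ⟨?_, h4⟩
    apply Module.finite_of_finrank_pos
    apply Nat.pos_of_ne_zero
    intro h0
    rw [h0] at h4
    exact h4 (dvd_zero l)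

/-- The `N`-th root of `x`. Proof: `exists_root` for `X ^ N - C x`. -/
theorem exists_rad (hl : l.Prime) (M : IntermediateField K Ω) [FiniteDimensional K M]
    (hM : ¬ l ∣ Module.finrank K M) {x : Ω} (hx : x ∈ M) {N : ℕ} (hN : ¬ l ∣ N) :
    ∃ M' : IntermediateField K Ω, M ≤ M' ∧ FiniteDimensional K M' ∧
      ¬ l ∣ Module.finrank K M' ∧ ∃ y ∈ M', y ^ N = x := by
  have hco : ∀ i, (X ^ N - C x : Polynomial Ω).coeff i ∈ M := by
    intro i
    rw [coeff_sub, coeff_X_pow, coeff_C]
    refine M.sub_mem ?_ ?_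
    · split_ifs
      · exact M.one_mem
      · exact M.zero_mem
    · split_ifs
      · exact hx
      · exact M.zero_mem
  obtain ⟨θ, h1, h2, h3⟩ := exists_root hl M hM hco (by rwa [natDegree_X_pow_sub_C])
  refine ⟨M ⊔ K⟮θ⟯, le_sup_left, h2, h3, θ, ?_, ?_⟩
  · exact (le_sup_right : K⟮θ⟯ ≤ M ⊔ K⟮θ⟯) (IntermediateField.mem_adjoin_simple_self K θ)
  · simpa [sub_eq_zero] using h1

end ext

end QS
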