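import Pool.Agent.Lib.MP_f80667_ag.Qs.Lo
import Pool.Agent.Lib.MP_f80667_ag.Qs.Rt
import Pool.Agent.Lib.MP_f80667_ag.Qs.GdA
import Pool.Agent.Lib.MP_f80667_ag.Qs.GdB

/-! The good places. -/

open ZC BE PE CV Polynomial IntermediateField

namespace QS

section loc

variable {F : Type} [Field F] {K Ω : Type} [Field K] [CharZero K] [Field Ω] [Algebra K Ω]
  [Algebra F K] [Algebra F Ω] [IsScalarTower F K Ω] [IsAlgClosure K Ω]

/-- The condition on the ramification over an unramified extension. Proof: `ur_unr` (`Pe/Ur.lean`): the norms are powers of the norm of `p`; `l ≠ L.p`: `nat_unit`. -/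
theorem er_ur (L : Ld K Ω) [L.Unr] {l : ℕ} (hl : l.Prime) (h2 : L.p ≠ 2 ∨ l ≠ L.p) {N : ℕ}
    (hN : N ≠ 0) {M : IntermediateField K Ω} (hM : M ≤ L.Ur ⊥ N) {L' : Ld M Ω}
    (hL : ∀ x, L'.nm x = L.nm x) : Er L' l := by
  have hch : CharZero Ω := charZero_of_injective_algebraMap (algebraMap K Ω).injective
  have hl0 : 0 < L.nm (l : Ω) := L.pos (Nat.cast_ne_zero.2 hl.ne_zero)
  have hl1 : l - 1 ≠ 0 := by
    have := hl.two_le
    omega
  intro x hx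
  rw [hL] at hx ⊢
  rw [hL]
  by_cases hx0 : (algebraMap M Ω x) = 0
  · rw [hx0, L.zero, zero_pow hl1]
    exact hl0
  by_cases hlp : l = L.p
  · obtain ⟨n, hn⟩ := Ld.ur_unr (L := L) hN (hM x.2) hx0
    have hp0 : 0 < L.nm (L.p : Ω) := L.p_pos
    have hn' : L.nm (algebraMap M Ω x) = L.nm (L.p : Ω) ^ n := hn
    have hn1 : 0 < n := by
      rw [hn', ← zpow_zero (L.nm (L.p : Ω))] at hx
      exact (zpow_lt_zpow_iff_right_of_lt_one₀ hp0 L.lt).1 hx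
    have h3 : L.nm (algebraMap M Ω x) ≤ L.nm (L.p : Ω) := by
      rw [hn']
      calc L.nm (L.p : Ω) ^ n ≤ L.nm (L.p : Ω) ^ (1 : ℤ) :=
            (zpow_le_zpow_iff_right_of_lt_one₀ hp0 L.lt).2 (by omega)
        _ = L.nm (L.p : Ω) := zpow_one _
    have h4 : 2 ≤ l - 1 := by
      have h5 := hl.two_le
      have h6 : l ≠ 2 := fun h => by
        rcases h2 with h7 | h7
        · exact h7 (hlp.symm.trans h)
        · exact h7 hlp
      omega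
    calc L.nm (algebraMap M Ω x) ^ (l - 1) ≤ L.nm (L.p : Ω) ^ (l - 1) :=
          pow_le_pow_left₀ (L.nonneg _) h3 _
      _ ≤ L.nm (L.p : Ω) ^ 2 := pow_le_pow_of_le_one hp0.le L.lt.le h4
      _ < L.nm (L.p : Ω) := by
          rw [pow_two]
          exact mul_lt_of_lt_one_right hp0 L.lt
      _ = L.nm (l : Ω) := by rw [hlp]
  · have h3 : L.nm (l : Ω) = 1 := L.nat_unit fun h6 =>
      hlp ((Nat.prime_dvd_prime_iff_eq L.pp hl).1 h6).symm
    rw [h3]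
    exact pow_lt_one₀ (L.nonneg _) hx hl1

/-- A root of one of the polynomials. -/
private theorem Gd_step (L : Ld K Ω) {f : F[X]} (hf : Gf L f) {l : ℕ} (hl : l.Prime) {N : ℕ}
    (hd : f.natDegree + 1 = N ∨ f.natDegree = N ∧ ¬ l ∣ N) (M : IntermediateField K Ω)
    [FiniteDimensional K M] (hM : ¬ l ∣ Module.finrank K M)
    (hu : ∃ n : ℕ, n ≠ 0 ∧ M ≤ L.Ur ⊥ n) :
    ∃ M' : IntermediateField K Ω, M ≤ M' ∧ FiniteDimensional K M' ∧
      ¬ l ∣ Module.finrank K M' ∧ (∃ n : ℕ, n ≠ 0 ∧ M' ≤ L.Ur ⊥ n) ∧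
      (f.natDegree = N → ∃ e ∈ M', aeval e f = 0) := by
  rcases hd with h | ⟨h, hN⟩
  · exact ⟨M, le_rfl, inferInstance, hM, hu, fun h' => absurd (h'.trans h.symm) (by omega)⟩
  · obtain ⟨e, he, h1, h2⟩ := exists_root (Ω := Ω) hl M hM (f := f.map (algebraMap F Ω))
      (fun i => by
        rw [coeff_map, IsScalarTower.algebraMap_apply F K Ω]
        exact M.algebraMap_mem _) (by rw [natDegree_map, h]; exact hN)
    rw [eval_map_algebraMap] at he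
    obtain ⟨n, hn, hMn⟩ := hu
    obtain ⟨n', hn', hen⟩ := Ld.keR_ur hf.co hf.lc hf.bz he
    refine ⟨M ⊔ K⟮e⟯, le_sup_left, h1, h2, ⟨n * n', mul_ne_zero hn hn', sup_le ?_ ?_⟩,
      fun _ => ⟨e, (le_sup_right : K⟮e⟯ ≤ M ⊔ K⟮e⟯) (mem_adjoin_simple_self K e), he⟩⟩
    · exact hMn.trans (Ld.ur_dvd ⊥ (dvd_mul_right n n'))
    · exact adjoin_simple_le_iff.2 (Ld.ur_dvd ⊥ (dvd_mul_left n' n) hen)

/-- **The good places.** Proof: `M = M₁ ⊔ K⟮e'⟯`, `M₁ = ⊥ ⊔ K⟮e⟯` for roots `e` of `f`, `e'` of `g` of degree prime to `l` (`exists_root`; no root if the degree is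
`n r - 1`, respectively `n s - 1`), `exists_bsL` (`Pe/Bs.lean`); `M` is unramified (`keR_ur`, `ur_dvd`): `er_ur`; `gf_one`, `kdt_good`. -/
theorem pgd_good {D : Dat F} (L : Ld K Ω) [L.Unr] (hn : 2 ≤ D.n) (hr : 1 ≤ D.n * D.r)
    (hs : 1 ≤ D.n * D.s) (hf : Gf L D.f) (hg : Gf L D.g) (hnn : L.nm (D.n : Ω) = 1)
    {l : ℕ} (hl : l.Prime) (h2 : L.p ≠ 2 ∨ l ≠ L.p)
    (hd : D.f.natDegree + 1 = D.n * D.r ∨ D.f.natDegree = D.n * D.r ∧ ¬ l ∣ D.n * D.r)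
    (hd' : D.g.natDegree + 1 = D.n * D.s ∨ D.g.natDegree = D.n * D.s ∧ ¬ l ∣ D.n * D.s) :
    Pgd D L l := by
  have hb : ¬ l ∣ Module.finrank K (⊥ : IntermediateField K Ω) := by
    rw [IntermediateField.finrank_bot]
    exact hl.one_lt.ne' ∘ Nat.dvd_one.1
  obtain ⟨M₁, -, h1, h3, h4, h5⟩ := Gd_step L hf hl hd ⊥ hb ⟨1, one_ne_zero, bot_le⟩
  obtain ⟨M, hle, h6, h7, ⟨N, hN, h8⟩, h9⟩ := Gd_step L hg hl hd' M₁ h3 h4
  obtain ⟨L', -, hL'⟩ := L.exists_bsL M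
  obtain ⟨a₀, ha, la, sa, qa⟩ := gf_one (N := D.n * D.r) hf hr (hd.elim Or.inr fun h => Or.inl h.1)
    hL' fun h => by
      obtain ⟨e, he, h10⟩ := h5 h
      exact ⟨e, hle he, h10⟩
  obtain ⟨b₀, hb₀, lb, sb, qb⟩ := gf_one (N := D.n * D.s) hg hs
    (hd'.elim Or.inr fun h => Or.inl h.1) hL' h9
  have hcM : CharZero M := charZero_of_injective_algebraMap (algebraMap K M).injective
  have hu : IsUnit (D.n : Ok L') := by
    have h11 : (D.n : Ω) ≠ 0 := L.ne_zero (by rw [hnn]; exact one_pos)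
    have h12 : (D.n : M) ≠ 0 := fun e => h11 (by rw [← map_natCast (algebraMap M Ω), e, map_zero])
    have h13 : (D.n : M)⁻¹ ∈ Ok L' := by
      change L'.nm (algebraMap M Ω (D.n : M)⁻¹) ≤ 1
      rw [map_inv₀, map_natCast, hL', L.inv, hnn, inv_one]
    exact IsUnit.of_mul_eq_one (⟨(D.n : M)⁻¹, h13⟩ : Ok L') (Subtype.ext (mul_inv_cancel₀ h12))
  obtain ⟨κ, m₁, m₂⟩ := kdt_good (F := F) (M := M) (D := D) (O := Ok L') hn hu ha hb₀ la lb sa sb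
    qa qb
  exact ⟨M, h6, L', κ, h7, hL', er_ur L hl h2 hN h8 hL', m₁, m₂⟩

end loc

end QS
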