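import Pool.Agent.Lib.MP_f80667_ag.Qs.GlA
import Pool.Agent.Lib.MP_f80667_ag.Qs.Gd

/-! The good places of a number field. -/

open ZC BE PE CV Polynomial IntermediateField IsDedekindDomain NumberField

namespace QS

section nf

variable {F : Type} [Field F] [NumberField F]

private theorem glp_le {v : HeightOneSpectrum (𝓞 F)} {L : Ld (FK F v) (AlgebraicClosure (FK F v))}
    (hL : ∀ (x : F) (n : ℤ), v.valuation F x = WithZero.exp (-n) →
      L.nm (algebraMap F _ x) = L.nm (L.p : AlgebraicClosure (FK F v)) ^ n) {x : F}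
    (hx : v.valuation F x ≤ 1) : L.nm (algebraMap F _ x) ≤ 1 := by
  have hc : CharZero (FK F v) := charZero_of_injective_algebraMap (algebraMap F (FK F v)).injective
  by_cases h0 : x = 0
  · rw [h0, map_zero, L.zero]
    exact zero_le_one
  · have h1 : v.valuation F x ≠ 0 := (Valuation.ne_zero_iff _).2 h0
    obtain ⟨n, hn⟩ : ∃ n : ℤ, v.valuation F x = WithZero.exp (-n) :=
      ⟨-(WithZero.log (v.valuation F x)), by rw [neg_neg, WithZero.exp_log h1]⟩
    rw [hL x n hn]
    have h2 : 0 ≤ n := by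
      rw [hn, ← WithZero.exp_zero, WithZero.exp_le_exp] at hx
      omega
    obtain ⟨m, rfl⟩ := Int.eq_ofNat_of_zero_le h2
    rw [zpow_natCast]
    exact pow_le_one₀ L.p_pos.le L.lt.le

/-- **The good places.** -/
theorem good_pl (hcp : Cpl) {D : Dat F} (hD : D.Ok) {v : HeightOneSpectrum (𝓞 F)} (hv : v ∉ Bad D)
    {l : ℕ} (hl : l.Prime) (hm : Pm D l) :
    Dq (Sv D) (FK F v) (AlgebraicClosure (FK F v)) l := by
  have hc : CharZero (FK F v) := charZero_of_injective_algebraMap (algebraMap F (FK F v)).injective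
  simp only [Bad, Set.mem_union, Set.mem_ofPred_eq, not_or, not_not] at hv
  obtain ⟨⟨⟨hf, hg⟩, ⟨p, hp, hpv⟩, h2⟩, hn⟩ := hv
  obtain ⟨L, hLu, hLp, hL⟩ := exists_ld F v p hp hpv
  have hone : ∀ x : F, v.valuation F x = 1 → L.nm (algebraMap F _ x) = 1 := by
    intro x hx
    have h0 : v.valuation F x = WithZero.exp (-0 : ℤ) := by
      rw [hx, neg_zero, WithZero.exp_zero]
    rw [hL x 0 h0, zpow_zero]
  have hL2 : L.p ≠ 2 := by
    intro h0
    rw [← hLp, h0, Nat.cast_ofNat, h2, ← WithZero.exp_zero] at hpv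
    have := WithZero.exp_injective hpv
    omega
  have hG : ∀ f : F[X], Gv v f → Gf L f := fun f hf =>
    { co := fun i => glp_le hL (hf.co i)
      lc := hone _ hf.lc
      bz := by
        obtain ⟨a, b, h1, h3⟩ := hf.bz
        exact ⟨a, b, h1, fun i => glp_le hL (h3 i)⟩ }
  have hnn : L.nm (D.n : AlgebraicClosure (FK F v)) = 1 := by
    rw [← hone _ hn, map_natCast]
  have hr : 1 ≤ D.n * D.r := Nat.mul_pos (by have := hD.hn; omega) hD.hr
  have hs : 1 ≤ D.n * D.s := Nat.mul_pos (by have := hD.hn; omega) hD.hs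
  refine dq_pgd hcp hl hm.n (pgd_good L hD.hn hr hs (hG _ hf) (hG _ hg) hnn hl (Or.inl hL2) ?_ ?_)
  · rcases hD.df with h | h
    · refine Or.inr ⟨h, fun hd => ?_⟩
      rcases (hl.dvd_mul).1 hd with h1 | h1
      · exact hm.n h1
      · rcases hm.r with h3 | h3
        · omega
        · exact h3 h1
    · exact Or.inl h
  · rcases hD.dg with h | h
    · refine Or.inr ⟨h, fun hd => ?_⟩
      rcases (hl.dvd_mul).1 hd with h1 | h1
      · exact hm.n h1
      · rcases hm.s with h3 | h3
        · omega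
        · exact h3 h1
    · exact Or.inl h

end nf

end QS
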