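import Pool.Agent.Lib.MP_f80667_ag.Qs.KfA

/-! The push-forwards of the pull-back of a cycle of degree `0` to the curves are rationally equivalent to `0`. -/

open ZC BE PE CV Polynomial IntermediateField

namespace QS

/-- The trace commutes with equivariant homomorphisms. -/
private theorem kf_tr {Γ X Y : Type} [Group Γ] [MulAction Γ X] [MulAction Γ Y]
    (φ : (X →₀ ℤ) →+ (Y →₀ ℤ)) (hφ : ∀ (γ : Γ) (z : X →₀ ℤ),
      φ (Finsupp.mapDomain (fun x => γ • x) z) = Finsupp.mapDomain (fun y => γ • y) (φ z))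
    {H : Subgroup Γ} (hH : H.FiniteIndex) (z : X →₀ ℤ) : φ (trG X H z) = trG Y H (φ z) := by
  classical
  let _ : Fintype (Γ ⧸ H) := Fintype.ofFinite _
  rw [trG_apply hH, trG_apply hH, finsum_eq_sum_of_fintype, finsum_eq_sum_of_fintype, map_sum]
  exact Finset.sum_congr rfl fun q _ => hφ _ _

private theorem kf_deg {F : Type} [Field F] (V : Vr F) (Ω : Type) [Field Ω] [Algebra F Ω]
    (f : V.pt Ω → V.pt Ω) (z : V.pt Ω →₀ ℤ) : V.deg Ω (Finsupp.mapDomain f z) = V.deg Ω z := by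
  have h : ((V.deg Ω).comp (Finsupp.mapDomain.addMonoidHom (M := ℤ) f)) = V.deg Ω := by
    refine Finsupp.addHom_ext fun a n => ?_
    rw [AddMonoidHom.comp_apply, Finsupp.mapDomain.addMonoidHom_apply, Finsupp.mapDomain_single,
      Vr.deg, Finsupp.liftAddHom_apply_single, Finsupp.liftAddHom_apply_single]
  exact DFunLike.congr_fun h z

namespace Kdt

variable {F M : Type} [Field F] [Field M] [Algebra F M] {D : Dat F} (κ : Kdt D M) {K : Type}
  [Field K] [CharZero K] [Algebra F K] [Algebra M K] [IsScalarTower F M K] {Ω : Type} [Field Ω]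
  [CharZero Ω] [IsAlgClosed Ω] [Algebra K Ω] [Algebra F Ω] [Algebra M Ω] [IsScalarTower F K Ω]
  [IsScalarTower M K Ω] [IsScalarTower F M Ω] [IsAlgClosure K Ω]

/-- The common part: `f` is a projection, `C` the curve. -/
private theorem kf_main (C : Crv M) (f : (Vpr κ.C₁.V κ.C₂.V).pt Ω → C.V.pt Ω)
    (hf : ∀ (γ : Ω ≃ₐ[K] Ω) (x : (Vpr κ.C₁.V κ.C₂.V).pt Ω),
      f ((Vpr κ.C₁.V κ.C₂.V).act γ x) = C.V.act γ (f x))
    (h1 : ∀ (M' : IntermediateField K Ω) (x : (Sv D).pt Ω),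
      (∀ σ ∈ M'.fixingSubgroup, (Sv D).act σ x = x) →
      Finsupp.mapDomain f (κ.kpb x) - D.n • Finsupp.single (C.bp.o Ω) 1 ∈ C.V.ratEq M' Ω)
    {z : (Sv D).pt Ω →₀ ℤ} (hz : z ∈ (Sv D).D0 K Ω) :
    Finsupp.mapDomain f (κ.kpull z) ∈ C.V.ratEq K Ω := by
  classical
  let iA := vact (Crv.fct C) K Ω
  have hX : ∀ x : (Sv D).pt Ω, (MulAction.stabilizer (Ω ≃ₐ[K] Ω) x).FiniteIndex :=
    fun x => opn_fin _ (sv_stab x)
  let c : C.V.pt Ω →₀ ℤ := D.n • Finsupp.single (C.bp.o Ω) 1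
  let φ : ((Sv D).pt Ω →₀ ℤ) →+ (C.V.pt Ω →₀ ℤ) :=
    (Finsupp.mapDomain.addMonoidHom f).comp κ.kpull - (zmultiplesHom _ c).comp ((Sv D).deg Ω)
  have hφ : ∀ y, φ y = Finsupp.mapDomain f (κ.kpull y) - (Sv D).deg Ω y • c := fun y => rfl
  have hc : ∀ γ : Ω ≃ₐ[K] Ω, Finsupp.mapDomain (fun y : C.V.pt Ω => γ • y) c = c := by
    intro γ
    change Finsupp.mapDomain.addMonoidHom (fun y : C.V.pt Ω => γ • y)
      (D.n • Finsupp.single (C.bp.o Ω) 1) = D.n • Finsupp.single (C.bp.o Ω) 1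
    rw [map_nsmul, Finsupp.mapDomain.addMonoidHom_apply, Finsupp.mapDomain_single]
    rfl
  have hact : ∀ (γ : Ω ≃ₐ[K] Ω) (y : (Sv D).pt Ω →₀ ℤ),
      φ (Finsupp.mapDomain (fun x => γ • x) y) = Finsupp.mapDomain (fun x => γ • x) (φ y) := by
    intro γ y
    have e1 : φ (Finsupp.mapDomain (fun x => γ • x) y) =
        Finsupp.mapDomain f (Finsupp.mapDomain ((Vpr κ.C₁.V κ.C₂.V).act γ) (κ.kpull y)) -
          (Sv D).deg Ω y • c := by
      rw [hφ]
      congr 1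
      · exact congrArg _ (κ.kpull_act γ y)
      · exact congrArg (fun n : ℤ => n • c) (kf_deg (Sv D) Ω _ y)
    have e2 : Finsupp.mapDomain (fun x : C.V.pt Ω => γ • x) (φ y) =
        Finsupp.mapDomain (fun x : C.V.pt Ω => γ • x) (Finsupp.mapDomain f (κ.kpull y)) -
          (Sv D).deg Ω y • c := by
      rw [hφ]
      change Finsupp.mapDomain.addMonoidHom (fun x : C.V.pt Ω => γ • x) _ = _
      rw [map_sub, map_zsmul, Finsupp.mapDomain.addMonoidHom_apply,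
        Finsupp.mapDomain.addMonoidHom_apply, hc]
    rw [e1, e2, ← Finsupp.mapDomain_comp, ← Finsupp.mapDomain_comp]
    congr 2
    funext x
    exact hf γ x
  have h2 : AddSubgroup.closure {z | ∃ x : (Sv D).pt Ω, z = trG ((Sv D).pt Ω)
      (MulAction.stabilizer (Ω ≃ₐ[K] Ω) x) (Finsupp.single x 1)} ≤
      (C.V.ratEq K Ω).comap φ := by
    rw [AddSubgroup.closure_le]
    rintro _ ⟨x, rfl⟩
    obtain ⟨M', hM, hMe⟩ := exists_fix (sv_stab (K := K) x)
    have h4 : trG (C.V.pt Ω) M'.fixingSubgroup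
        (Finsupp.mapDomain f (κ.kpb x) - D.n • Finsupp.single (C.bp.o Ω) 1) ∈ C.V.ratEq K Ω := by
      refine tr_ratEqV (Crv.fct C) M' (h1 M' x fun σ h3 => ?_)
      rw [hMe] at h3
      exact h3
    change φ (trG ((Sv D).pt Ω) (MulAction.stabilizer (Ω ≃ₐ[K] Ω) x) (Finsupp.single x 1)) ∈
      C.V.ratEq K Ω
    rw [kf_tr φ hact (hX x), ← hMe, hφ, kpull_single]
    have e3 : (Sv D).deg Ω (Finsupp.single x 1) = 1 := by
      rw [Vr.deg, Finsupp.liftAddHom_apply_single]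
      rfl
    rw [e3, one_zsmul]
    exact h4
  have h5 : z ∈ (C.V.ratEq K Ω).comap φ := h2 (inv_gen hX hz.1)
  have h6 : (Sv D).deg Ω z = 0 := hz.2
  have h7 : φ z ∈ C.V.ratEq K Ω := h5
  rwa [hφ, h6, zero_zsmul, sub_zero] at h7

/-- Proof: `inv_gen`: `z` is a combination of traces of points `x` (over `M' = K(x)`); `φ z = pr_* π^* z - n deg(z) [∞]` commutes with traces
(`kpull_act`), the trace of `one_fst` over `M'` is in `ratEq K` (`tr_ratEqV (Crv.fct _)`); see `nu_ratEq` in `Qs/Nu.lean`. -/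
theorem kpull_fst {z : (Sv D).pt Ω →₀ ℤ} (hz : z ∈ (Sv D).D0 K Ω) :
    Finsupp.mapDomain Prod.fst (κ.kpull z) ∈ κ.C₁.V.ratEq K Ω := by
  refine κ.kf_main κ.C₁ Prod.fst (fun γ x => rfl) (fun M' x hx => ?_) hz
  have i1 : IsAlgClosure M' Ω := ⟨IsAlgClosure.isAlgClosed K, inferInstance⟩
  have i2 : IsScalarTower F M' Ω := IsScalarTower.of_algebraMap_eq fun _ => rfl
  have i3 : IsScalarTower F M M' := IsScalarTower.of_algebraMap_eq fun a =>
    Subtype.ext (IsScalarTower.algebraMap_apply F M Ω a)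
  have i4 : IsScalarTower M M' Ω := IsScalarTower.of_algebraMap_eq fun _ => rfl
  exact κ.one_fst (K := M') x fun σ => hx (σ.restrictScalars K) (sia_mem_fix M' σ)

theorem kpull_snd {z : (Sv D).pt Ω →₀ ℤ} (hz : z ∈ (Sv D).D0 K Ω) :
    Finsupp.mapDomain Prod.snd (κ.kpull z) ∈ κ.C₂.V.ratEq K Ω := by
  refine κ.kf_main κ.C₂ Prod.snd (fun γ x => rfl) (fun M' x hx => ?_) hz
  have i1 : IsAlgClosure M' Ω := ⟨IsAlgClosure.isAlgClosed K, inferInstance⟩
  have i2 : IsScalarTower F M' Ω := IsScalarTower.of_algebraMap_eq fun _ => rfl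
  have i3 : IsScalarTower F M M' := IsScalarTower.of_algebraMap_eq fun a =>
    Subtype.ext (IsScalarTower.algebraMap_apply F M Ω a)
  have i4 : IsScalarTower M M' Ω := IsScalarTower.of_algebraMap_eq fun _ => rfl
  exact κ.one_snd (K := M') x fun σ => hx (σ.restrictScalars K) (sia_mem_fix M' σ)

end Kdt

end QS
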