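import Pool.Agent.Lib.MP_f80667_ag.Qs.Kl
import Pool.Agent.Lib.MP_f80667_ag.Qs.Fib

/-! The push-forwards of the pull-back of a point over `K` to the curves. -/

open ZC BE PE CV Polynomial IntermediateField

namespace QS

namespace Kdt

variable {F M : Type} [Field F] [Field M] [Algebra F M] {D : Dat F} (κ : Kdt D M) {K : Type}
  [Field K] [CharZero K] [Algebra F K] [Algebra M K] [IsScalarTower F M K] {Ω : Type} [Field Ω]
  [CharZero Ω] [IsAlgClosed Ω] [Algebra K Ω] [Algebra F Ω] [Algebra M Ω] [IsScalarTower F K Ω]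
  [IsScalarTower M K Ω] [IsScalarTower F M Ω] [IsAlgClosure K Ω]

omit [CharZero K] [Algebra F M] [Algebra F K] [IsScalarTower F M K] [CharZero Ω] [IsAlgClosed Ω] [Algebra F Ω] [IsScalarTower F K Ω] [IsScalarTower F M Ω] [IsAlgClosure K Ω] in
private theorem qa_desc [Algebra F M] {m : ℕ} {f : F[X]} {a : M[X]} (Q : Qa m f a) (w : K × K) (hw : w ≠ 0)
    (u : Ω × Ω) (c : Ω) (h : (algebraMap K Ω w.1, algebraMap K Ω w.2) = (c * (Q.mv u).1, c * (Q.mv u).2)) :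
    ∃ (v : K × K) (b : Ω), v ≠ 0 ∧
      (algebraMap K Ω v.1, algebraMap K Ω v.2) = (b * u.1, b * u.2) := by
  obtain ⟨v, hv⟩ := Q.mv_surj w
  refine ⟨v, c, ?_, ?_⟩
  · rintro rfl
    apply hw
    rw [← hv]
    unfold Qa.mv
    refine Prod.ext ?_ ?_ <;> simp
  · apply Q.mv_inj
    rw [← h, ← hv]
    exact Q.mv_map (IsScalarTower.toAlgHom M K Ω) v

omit [Algebra M K] [IsScalarTower F M K] [IsScalarTower M K Ω] in
private theorem pt_desc (x : (Sv D).pt Ω) (hx : ∀ σ : Ω ≃ₐ[K] Ω, (Sv D).act σ x = x) :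
    (∃ (w : K × K) (c : Ω), w ≠ 0 ∧ (algebraMap K Ω w.1, algebraMap K Ω w.2) =
      (c * (κ.m₁.mv (κ.c₁.xh (κ.kpt x).1)).1, c * (κ.m₁.mv (κ.c₁.xh (κ.kpt x).1)).2)) ∧
    (∃ (w : K × K) (c : Ω), w ≠ 0 ∧ (algebraMap K Ω w.1, algebraMap K Ω w.2) =
      (c * (κ.m₂.mv (κ.c₂.xh (κ.kpt x).2)).1, c * (κ.m₂.mv (κ.c₂.xh (κ.kpt x).2)).2)) := by
  classical
  have hk := κ.kpi_kpt x
  obtain ⟨ξ, hξ⟩ := exists_qdesc hx
  induction ξ using Quotient.inductionOn with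
  | h Q =>
    let σ : K →ₐ[F] Ω := IsScalarTower.toAlgHom F K Ω
    have h1 : knu x = Quotient.mk _ (Qc.nu (Q.mp σ)) := by
      rw [hξ]
      rfl
    rw [h1] at hk
    obtain ⟨a, b, c, ha, hb, hc, e1, e2, e3⟩ := (Quotient.exact hk : (κ.kpc (κ.kpt x)).Rel _)
    have nx : (Q.mp σ).nu.x = (Q.mp σ).x := by
      unfold Qc.nu
      split_ifs <;> rfl
    have ny : (Q.mp σ).nu.y = (Q.mp σ).y := by
      unfold Qc.nu
      split_ifs <;> rfl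
    rw [nx] at e1
    rw [ny] at e2
    exact ⟨⟨Q.x, a, Q.hx, e1⟩, ⟨Q.y, b, Q.hy, e2⟩⟩

/-- The push-forward of the pull-back of a point over `K`. Proof: `kpb_eq` for a point above, `fib_ratEq`: the `x`-coordinate of the point is
in `K` (`exists_qdesc`). -/
theorem one_fst (x : (Sv D).pt Ω) (hx : ∀ σ : Ω ≃ₐ[K] Ω, (Sv D).act σ x = x) :
    Finsupp.mapDomain Prod.fst (κ.kpb x) - D.n • Finsupp.single (κ.C₁.bp.o Ω) 1 ∈
      κ.C₁.V.ratEq K Ω := by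
  classical
  have : NeZero D.n := ⟨by have := κ.hn; omega⟩
  let fi : Fintype (rootsOfUnity D.n Ω) := Fintype.ofFinite _
  obtain ⟨w, c, hw, h⟩ := (κ.pt_desc x hx).1
  have h1 := fib_ratEq (K := K) κ.c₁ κ.hn κ.sa (κ.kpt x).1
    (qa_desc κ.m₁ w hw (κ.c₁.xh (κ.kpt x).1) c h)
  rw [finsum_eq_sum_of_fintype] at h1
  have e : Finsupp.mapDomain (Prod.fst : κ.C₁.V.pt Ω × κ.C₂.V.pt Ω → κ.C₁.V.pt Ω) (κ.kpb x) =
      ∑ ζ : rootsOfUnity D.n Ω, Finsupp.single (κ.c₁.zm ζ (κ.kpt x).1) (1 : ℤ) := by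
    have e0 : κ.kpb x = ∑ ζ : rootsOfUnity D.n Ω, Finsupp.single (κ.zz ζ (κ.kpt x)) (1 : ℤ) :=
      finsum_eq_sum_of_fintype _
    rw [e0]
    refine Eq.trans (Finsupp.mapDomain_finsetSum (f := (Prod.fst : κ.C₁.V.pt Ω × κ.C₂.V.pt Ω → _))
      (s := Finset.univ)
      (v := fun ζ : rootsOfUnity D.n Ω => Finsupp.single (κ.zz ζ (κ.kpt x)) (1 : ℤ))) ?_
    exact Finset.sum_congr rfl fun ζ _ => Finsupp.mapDomain_single
  exact (congrArg (fun z => z - D.n • Finsupp.single (κ.C₁.bp.o Ω) 1 ∈ κ.C₁.V.ratEq K Ω) e).mpr h1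

/-- The same for the second curve. -/
theorem one_snd (x : (Sv D).pt Ω) (hx : ∀ σ : Ω ≃ₐ[K] Ω, (Sv D).act σ x = x) :
    Finsupp.mapDomain Prod.snd (κ.kpb x) - D.n • Finsupp.single (κ.C₂.bp.o Ω) 1 ∈
      κ.C₂.V.ratEq K Ω := by
  classical
  have : NeZero D.n := ⟨by have := κ.hn; omega⟩
  let fi : Fintype (rootsOfUnity D.n Ω) := Fintype.ofFinite _
  obtain ⟨w, c, hw, h⟩ := (κ.pt_desc x hx).2
  have h1 := fib_ratEq (K := K) κ.c₂ κ.hn κ.sb (κ.kpt x).2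
    (qa_desc κ.m₂ w hw (κ.c₂.xh (κ.kpt x).2) c h)
  rw [finsum_eq_sum_of_fintype] at h1
  have e : Finsupp.mapDomain (Prod.snd : κ.C₁.V.pt Ω × κ.C₂.V.pt Ω → κ.C₂.V.pt Ω) (κ.kpb x) =
      ∑ ζ : rootsOfUnity D.n Ω, Finsupp.single (κ.c₂.zm ζ (κ.kpt x).2) (1 : ℤ) := by
    have e0 : κ.kpb x = ∑ ζ : rootsOfUnity D.n Ω, Finsupp.single (κ.zz ζ (κ.kpt x)) (1 : ℤ) :=
      finsum_eq_sum_of_fintype _
    rw [e0]
    refine Eq.trans (Finsupp.mapDomain_finsetSum (f := (Prod.snd : κ.C₁.V.pt Ω × κ.C₂.V.pt Ω → _))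
      (s := Finset.univ)
      (v := fun ζ : rootsOfUnity D.n Ω => Finsupp.single (κ.zz ζ (κ.kpt x)) (1 : ℤ))) ?_
    exact Finset.sum_congr rfl fun ζ _ => Finsupp.mapDomain_single
  exact (congrArg (fun z => z - D.n • Finsupp.single (κ.C₂.bp.o Ω) 1 ∈ κ.C₂.V.ratEq K Ω) e).mpr h1

end Kdt

end QS
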