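import Pool.Agent.Lib.MP_f80667_ag.Qs.Kr

/-! The pull-back of cycles from the surface to the product of the curves. -/

open ZC BE PE CV Polynomial

namespace QS

namespace Kdt

section pull

variable {F M : Type} [Field F] [Field M] [Algebra F M] {D : Dat F} (κ : Kdt D M) {Ω : Type}
  [Field Ω] [CharZero Ω] [IsAlgClosed Ω] [Algebra F Ω] [Algebra M Ω] [IsScalarTower F M Ω]

/-- A point above. -/
noncomputable def kpt (x : (Sv D).pt Ω) : κ.C₁.V.pt Ω × κ.C₂.V.pt Ω :=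
  (κ.kpi_surj x).choose

theorem kpi_kpt (x : (Sv D).pt Ω) : κ.kpi (κ.kpt x) = knu x :=
  (κ.kpi_surj x).choose_spec

/-- The orbit of a point. -/
noncomputable def orb (P : κ.C₁.V.pt Ω × κ.C₂.V.pt Ω) : (Vpr κ.C₁.V κ.C₂.V).pt Ω →₀ ℤ :=
  ∑ᶠ ζ : rootsOfUnity D.n Ω, Finsupp.single (κ.zz ζ P) 1

/-- The pull-back of a point. -/
noncomputable def kpb (x : (Sv D).pt Ω) : (Vpr κ.C₁.V κ.C₂.V).pt Ω →₀ ℤ := κ.orb (κ.kpt x)

private noncomputable instance kl_ft (n : ℕ) [NeZero n] : Fintype (rootsOfUnity n Ω) :=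
  Fintype.ofFinite _

private noncomputable def kl_p (P : κ.C₁.V.pt Ω × κ.C₂.V.pt Ω) (ζ : rootsOfUnity D.n Ω) :
    (Vpr κ.C₁.V κ.C₂.V).pt Ω := κ.zz ζ P

private theorem kl_sum [NeZero D.n] (P : κ.C₁.V.pt Ω × κ.C₂.V.pt Ω) :
    κ.orb P = ∑ ζ : rootsOfUnity D.n Ω, Finsupp.single (κ.kl_p P ζ) 1 :=
  finsum_eq_sum_of_fintype _

private theorem kl_zz (ζ ζ' : rootsOfUnity D.n Ω) (P : κ.C₁.V.pt Ω × κ.C₂.V.pt Ω) :
    κ.zz ζ (κ.zz ζ' P) = κ.zz (ζ * ζ') P :=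
  Prod.ext (κ.c₁.zm_mul ζ ζ' P.1).symm (κ.c₂.zm_mul ζ ζ' P.2).symm

private theorem kl_card {n : ℕ} [NeZero n] : Fintype.card (rootsOfUnity n Ω) = n := by
  rw [← Nat.card_eq_fintype_card]
  exact HasEnoughRootsOfUnity.natCard_rootsOfUnity Ω n

/-- Proof: `Cu.zm_mul`, the sum over the group is invariant under translations. -/
theorem orb_zz (ζ : rootsOfUnity D.n Ω) (P : κ.C₁.V.pt Ω × κ.C₂.V.pt Ω) :
    κ.orb (κ.zz ζ P) = κ.orb P := by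
  have h : κ.orb (κ.zz ζ P) = ∑ᶠ ζ' : rootsOfUnity D.n Ω,
      Finsupp.single (κ.zz (Equiv.mulRight ζ ζ') P) 1 :=
    finsum_congr fun ζ' => congrArg (fun x => Finsupp.single x 1) (κ.kl_zz ζ' ζ P)
  rw [h]
  exact finsum_comp_equiv (Equiv.mulRight ζ)
    (f := fun ζ' => (Finsupp.single (κ.zz ζ' P) 1 : (Vpr κ.C₁.V κ.C₂.V).pt Ω →₀ ℤ))

theorem kpb_eq {x : (Sv D).pt Ω} {P : κ.C₁.V.pt Ω × κ.C₂.V.pt Ω} (h : κ.kpi P = knu x) :
    κ.kpb x = κ.orb P := by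
  obtain ⟨ζ, e⟩ := κ.kpi_inj ((κ.kpi_kpt x).trans h.symm)
  rw [kpb, e, orb_zz]

/-- The pull-back of cycles. -/
noncomputable def kpull : ((Sv D).pt Ω →₀ ℤ) →+ ((Vpr κ.C₁.V κ.C₂.V).pt Ω →₀ ℤ) :=
  Finsupp.liftAddHom fun x => zmultiplesHom _ (κ.kpb x)

theorem kpull_single (x : (Sv D).pt Ω) : κ.kpull (Finsupp.single x 1) = κ.kpb x := by
  rw [kpull, Finsupp.liftAddHom_apply_single, zmultiplesHom_apply, one_zsmul]

/-- Proof: `kpi_zz`, `kpi_kpt`; there are `n` roots of unity in `Ω`. -/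
theorem kpull_push (z : (Sv D).pt Ω →₀ ℤ) :
    Finsupp.mapDomain κ.kpi (κ.kpull z) = D.n • Finsupp.mapDomain knu z := by
  have i1 : NeZero D.n := ⟨κ.n_pos.ne'⟩
  have h : (Finsupp.mapDomain.addMonoidHom (M := ℤ) κ.kpi).comp κ.kpull =
      D.n • Finsupp.mapDomain.addMonoidHom (M := ℤ) (knu : (Sv D).pt Ω → _) := by
    ext x : 2
    change Finsupp.mapDomain κ.kpi (κ.kpull (Finsupp.single x 1)) =
      D.n • Finsupp.mapDomain knu (Finsupp.single x 1)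
    rw [kpull_single, kpb, kl_sum, Finsupp.mapDomain_single]
    refine (Finsupp.mapDomain_finsetSum (f := κ.kpi) (s := Finset.univ)
      (v := fun ζ : rootsOfUnity D.n Ω => Finsupp.single (κ.zz ζ (κ.kpt x)) (1 : ℤ))).trans ?_
    have h1 : ∀ ζ ∈ (Finset.univ : Finset (rootsOfUnity D.n Ω)),
        Finsupp.mapDomain κ.kpi (Finsupp.single (κ.zz ζ (κ.kpt x)) (1 : ℤ)) =
          Finsupp.single (knu x) 1 := fun ζ _ => by
      rw [Finsupp.mapDomain_single, kpi_zz, kpi_kpt]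
    rw [Finset.sum_congr rfl h1, Finset.sum_const, Finset.card_univ, kl_card]
  exact DFunLike.congr_fun h z

/-- Proof: there are `n` roots of unity in `Ω`. -/
theorem kpull_dg (z : (Sv D).pt Ω →₀ ℤ) :
    (Vpr κ.C₁.V κ.C₂.V).deg Ω (κ.kpull z) = D.n * (Sv D).deg Ω z := by
  have i1 : NeZero D.n := ⟨κ.n_pos.ne'⟩
  have h0 : ∀ (V : Vr M) (x : V.pt Ω), V.deg Ω (Finsupp.single x 1) = 1 := fun V x => by
    simp [Vr.deg]
  have h0' : ∀ (V : Vr F) (x : V.pt Ω), V.deg Ω (Finsupp.single x 1) = 1 := fun V x => by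
    simp [Vr.deg]
  have h : ((Vpr κ.C₁.V κ.C₂.V).deg Ω).comp κ.kpull = D.n • (Sv D).deg Ω := by
    ext x : 2
    change (Vpr κ.C₁.V κ.C₂.V).deg Ω (κ.kpull (Finsupp.single x 1)) =
      D.n • (Sv D).deg Ω (Finsupp.single x 1)
    rw [kpull_single, kpb, kl_sum, h0', map_sum]
    rw [Finset.sum_congr rfl fun ζ _ => h0 _ _, Finset.sum_const, Finset.card_univ, kl_card]
  have h1 := DFunLike.congr_fun h z
  refine Eq.trans h1 ?_
  change D.n • (Sv D).deg Ω z = D.n * (Sv D).deg Ω z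
  rw [nsmul_eq_mul]

end pull

section act

variable {F M : Type} [Field F] [Field M] [Algebra F M] {D : Dat F} (κ : Kdt D M) {K : Type}
  [Field K] [CharZero K] [Algebra F K] [Algebra M K] [IsScalarTower F M K] {Ω : Type} [Field Ω]
  [CharZero Ω] [IsAlgClosed Ω] [Algebra K Ω] [Algebra F Ω] [Algebra M Ω] [IsScalarTower F K Ω]
  [IsScalarTower M K Ω] [IsScalarTower F M Ω]

private theorem kl_orb (σ : Ω ≃ₐ[K] Ω) (P : κ.C₁.V.pt Ω × κ.C₂.V.pt Ω) :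
    κ.orb ((Vpr κ.C₁.V κ.C₂.V).act σ P) =
      Finsupp.mapDomain ((Vpr κ.C₁.V κ.C₂.V).act σ) (κ.orb P) := by
  have i1 : NeZero D.n := ⟨κ.n_pos.ne'⟩
  let τ : Ω →ₐ[M] Ω := (σ.restrictScalars M : Ω →ₐ[M] Ω)
  rw [kl_sum, kl_sum, Finsupp.mapDomain_finsetSum]
  symm
  refine Fintype.sum_bijective (restrictRootsOfUnity (τ : Ω →+* Ω) D.n)
    (Finite.injective_iff_bijective.1 fun ζ ζ' h => ?_) _ _ fun ζ => ?_
  · have h1 := congrArg (fun x : rootsOfUnity D.n Ω => ((x : Ωˣ) : Ω)) h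
    exact Subtype.ext (Units.ext (τ.injective h1))
  · rw [Finsupp.mapDomain_single]
    refine congrArg (fun x => Finsupp.single x 1) ?_
    exact Prod.ext (κ.c₁.zm_map τ ζ P.1) (κ.c₂.zm_map τ ζ P.2)

/-- The points above are moved by the Galois group. Proof: `kpull_act` in `Pe/Kl.lean`; `Cu.zm_map`, `σ` permutes the roots of unity. -/
theorem kpull_act (σ : Ω ≃ₐ[K] Ω) (z : (Sv D).pt Ω →₀ ℤ) :
    κ.kpull (Finsupp.mapDomain ((Sv D).act σ) z) =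
      Finsupp.mapDomain ((Vpr κ.C₁.V κ.C₂.V).act σ) (κ.kpull z) := by
  have h : κ.kpull.comp (Finsupp.mapDomain.addMonoidHom (M := ℤ) ((Sv D).act σ)) =
      (Finsupp.mapDomain.addMonoidHom (M := ℤ) ((Vpr κ.C₁.V κ.C₂.V).act σ)).comp κ.kpull := by
    ext x : 2
    change κ.kpull (Finsupp.mapDomain ((Sv D).act σ) (Finsupp.single x 1)) =
      Finsupp.mapDomain ((Vpr κ.C₁.V κ.C₂.V).act σ) (κ.kpull (Finsupp.single x 1))
    rw [Finsupp.mapDomain_single, kpull_single, kpull_single]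
    have h1 : κ.kpi ((Vpr κ.C₁.V κ.C₂.V).act σ (κ.kpt x)) = knu ((Sv D).act σ x) := by
      have h2 := κ.kpi_map (σ.restrictScalars M : Ω →ₐ[M] Ω) (κ.kpt x)
      rw [kpi_kpt] at h2
      refine Eq.trans h2.symm ?_
      exact (knu_map (σ.restrictScalars F : Ω →ₐ[F] Ω) x).symm
    have h3 := κ.kpb_eq h1
    refine h3.trans ?_
    rw [kpb, kl_orb]
  exact DFunLike.congr_fun h z

theorem kpull_mem {z : (Sv D).pt Ω →₀ ℤ} (hz : z ∈ (Sv D).D0 K Ω) :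
    κ.kpull z ∈ (Vpr κ.C₁.V κ.C₂.V).D0 K Ω := by
  refine ⟨fun σ => ?_, ?_⟩
  · exact (κ.kpull_act σ z).symm.trans (congrArg _ (hz.1 σ))
  · have h1 : (Sv D).deg Ω z = 0 := hz.2
    have h2 := κ.kpull_dg z
    rw [h1, mul_zero] at h2
    exact h2

/-- Proof: `kpi_mem` in `Pe/Kl.lean`. -/
theorem kpi_mem {z : (Vpr κ.C₁.V κ.C₂.V).pt Ω →₀ ℤ} (hz : z ∈ (Vpr κ.C₁.V κ.C₂.V).D0 K Ω) :
    Finsupp.mapDomain κ.kpi z ∈ (Sv D).D0 K Ω := by
  refine ⟨fun σ => ?_, ?_⟩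
  · let α : κ.C₁.V.pt Ω × κ.C₂.V.pt Ω → κ.C₁.V.pt Ω × κ.C₂.V.pt Ω :=
      (Vpr κ.C₁.V κ.C₂.V).act σ
    have h0 : ∀ P : κ.C₁.V.pt Ω × κ.C₂.V.pt Ω, (Sv D).act σ (κ.kpi P) = κ.kpi (α P) := fun P =>
      κ.kpi_map (σ.restrictScalars M : Ω →ₐ[M] Ω) P
    have h1 : (Sv D).act σ ∘ κ.kpi = κ.kpi ∘ α := funext h0
    have h2 : Finsupp.mapDomain α z = z := hz.1 σ
    rw [← Finsupp.mapDomain_comp, h1, Finsupp.mapDomain_comp, h2]
  · have h1 : (Vpr κ.C₁.V κ.C₂.V).deg Ω z = 0 := hz.2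
    have h2 : ((Sv D).deg Ω).comp (Finsupp.mapDomain.addMonoidHom (M := ℤ) κ.kpi) =
        (Vpr κ.C₁.V κ.C₂.V).deg Ω := by
      ext x : 2
      change (Sv D).deg Ω (Finsupp.mapDomain κ.kpi (Finsupp.single x 1)) =
        (Vpr κ.C₁.V κ.C₂.V).deg Ω (Finsupp.single x 1)
      rw [Finsupp.mapDomain_single]
      simp [Vr.deg]
    exact (DFunLike.congr_fun h2 z).trans h1

end act

end Kdt

end QS
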