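import Pool.Agent.Lib.MP_f80667_ag.Qs.Rat
import Pool.Agent.Lib.MP_f80667_ag.Pe.Kn

/-!
The retraction `knu` of the exceptional curves `f(x) = g(y) = 0` of the surface `f(x) s ^ n = g(y) t ^ n` to their points
`(1 : 0)` does not change classes of cycles.
-/

open ZC BE PE CV Polynomial

namespace QS

section nu

variable {F : Type} [Field F] {D : Dat F} {L : Type} [Field L] [Algebra F L]

open Classical in
/-- The retraction on coordinates. -/
noncomputable def Qc.nu (P : Qc D L) : Qc D L :=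
  if h : fm (D.n * D.r) D.f P.x = 0 ∧ fm (D.n * D.s) D.g P.y = 0 then
    { P with
      t := (1, 0)
      ht := fun h0 => one_ne_zero (congrArg Prod.fst h0)
      eq := by rw [h.1, h.2, zero_mul, zero_mul] }
  else P

theorem Qc.rel_fx {P Q : Qc D L} (h : P.Rel Q) :
    (fm (D.n * D.r) D.f Q.x = 0 ↔ fm (D.n * D.r) D.f P.x = 0) ∧
      (fm (D.n * D.s) D.g Q.y = 0 ↔ fm (D.n * D.s) D.g P.y = 0) := by
  obtain ⟨a, b, c, ha, hb, hc, h1, h2, h3⟩ := h
  rw [h1, h2, fm_mul, fm_mul]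
  refine ⟨?_, ?_⟩
  · rw [mul_eq_zero, or_iff_right (pow_ne_zero _ ha)]
  · rw [mul_eq_zero, or_iff_right (pow_ne_zero _ hb)]

theorem Qc.nu_rel {P Q : Qc D L} (h : P.Rel Q) : P.nu.Rel Q.nu := by
  classical
  have hq := Qc.rel_fx h
  obtain ⟨a, b, c, ha, hb, hc, h1, h2, h3⟩ := h
  by_cases h0 : fm (D.n * D.r) D.f P.x = 0 ∧ fm (D.n * D.s) D.g P.y = 0
  · have h0' : fm (D.n * D.r) D.f Q.x = 0 ∧ fm (D.n * D.s) D.g Q.y = 0 :=
      ⟨hq.1.2 h0.1, hq.2.2 h0.2⟩
    refine ⟨a, b, (b ^ D.s)⁻¹, ha, hb, inv_ne_zero (pow_ne_zero _ hb), ?_, ?_, ?_⟩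
    · rw [Qc.nu, Qc.nu, dif_pos h0, dif_pos h0']
      exact h1
    · rw [Qc.nu, Qc.nu, dif_pos h0, dif_pos h0']
      exact h2
    · rw [Qc.nu, Qc.nu, dif_pos h0, dif_pos h0']
      change ((1, 0) : L × L) = ((b ^ D.s)⁻¹ * b ^ D.s * 1, (b ^ D.s)⁻¹ * a ^ D.r * 0)
      rw [inv_mul_cancel₀ (pow_ne_zero _ hb), mul_one, mul_zero]
  · have h0' : ¬ (fm (D.n * D.r) D.f Q.x = 0 ∧ fm (D.n * D.s) D.g Q.y = 0) :=
      fun h' => h0 ⟨hq.1.1 h'.1, hq.2.1 h'.2⟩
    rw [Qc.nu, Qc.nu, dif_neg h0, dif_neg h0']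
    exact ⟨a, b, c, ha, hb, hc, h1, h2, h3⟩

/-- The retraction. -/
noncomputable def knu : (Sv D).pt L → (Sv D).pt L :=
  Quotient.map Qc.nu fun _ _ h => Qc.nu_rel h

theorem knu_map {N : Type} [Field N] [Algebra F N] (σ : L →ₐ[F] N) (x : (Sv D).pt L) :
    knu ((Sv D).map σ x) = (Sv D).map σ (knu x) := by
  classical
  induction x using Quotient.inductionOn with
  | h P =>
    change (Quotient.mk (Qc.sd D N) (Qc.nu (Qc.mp σ P)) : Quotient (Qc.sd D N)) =
      Quotient.mk (Qc.sd D N) (Qc.mp σ (Qc.nu P))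
    congr 1
    have e1 : fm (D.n * D.r) D.f (Qc.mp σ P).x = σ (fm (D.n * D.r) D.f P.x) := fm_map _ D.f σ P.x
    have e2 : fm (D.n * D.s) D.g (Qc.mp σ P).y = σ (fm (D.n * D.s) D.g P.y) := fm_map _ D.g σ P.y
    by_cases h0 : fm (D.n * D.r) D.f P.x = 0 ∧ fm (D.n * D.s) D.g P.y = 0
    · have h0' : fm (D.n * D.r) D.f (Qc.mp σ P).x = 0 ∧ fm (D.n * D.s) D.g (Qc.mp σ P).y = 0 := by
        rw [e1, e2, h0.1, h0.2, map_zero]
        exact ⟨rfl, rfl⟩
      rw [Qc.nu, Qc.nu, dif_pos h0, dif_pos h0']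
      unfold Qc.mp
      simp only [map_one, map_zero]
    · have h0' : ¬ (fm (D.n * D.r) D.f (Qc.mp σ P).x = 0 ∧
          fm (D.n * D.s) D.g (Qc.mp σ P).y = 0) := by
        rw [e1, e2]
        exact fun h' => h0 ⟨(map_eq_zero σ).1 h'.1, (map_eq_zero σ).1 h'.2⟩
      rw [Qc.nu, Qc.nu, dif_neg h0, dif_neg h0']

theorem knu_nu (x : (Sv D).pt L) : knu (knu x) = knu x := by
  classical
  induction x using Quotient.inductionOn with
  | h P =>
    by_cases h0 : fm (D.n * D.r) D.f P.x = 0 ∧ fm (D.n * D.s) D.g P.y = 0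
    · have e1 : (Qc.nu P).x = P.x := by rw [Qc.nu, dif_pos h0]
      have e2 : (Qc.nu P).y = P.y := by rw [Qc.nu, dif_pos h0]
      have e3 : (Qc.nu P).t = (1, 0) := by rw [Qc.nu, dif_pos h0]
      change (Quotient.mk (Qc.sd D L) (Qc.nu (Qc.nu P)) : Quotient (Qc.sd D L)) =
        Quotient.mk (Qc.sd D L) (Qc.nu P)
      obtain ⟨R, hR⟩ : ∃ R, R = Qc.nu P := ⟨_, rfl⟩
      rw [← hR] at e1 e2 e3 ⊢
      have h1 : fm (D.n * D.r) D.f R.x = 0 ∧ fm (D.n * D.s) D.g R.y = 0 := by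
        rw [e1, e2]
        exact h0
      have f1 : (Qc.nu R).x = R.x := by rw [Qc.nu, dif_pos h1]
      have f2 : (Qc.nu R).y = R.y := by rw [Qc.nu, dif_pos h1]
      have f3 : (Qc.nu R).t = (1, 0) := by rw [Qc.nu, dif_pos h1]
      exact mk_eq D f1.symm f2.symm (e3.trans f3.symm)
    · have e : Qc.nu P = P := by rw [Qc.nu, dif_neg h0]
      change (Quotient.mk (Qc.sd D L) (Qc.nu (Qc.nu P)) : Quotient (Qc.sd D L)) =
        Quotient.mk (Qc.sd D L) (Qc.nu P)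
      rw [e, e]

end nu

variable {F : Type} [Field F] {D : Dat F} {K : Type} [Field K] [CharZero K] [Algebra F K]
  {Ω : Type} [Field Ω] [Algebra K Ω] [Algebra F Ω] [IsScalarTower F K Ω] [IsAlgClosure K Ω]

/-- The points of an exceptional curve. -/
theorem exc_ratEq (x : (Sv D).pt K) :
    Finsupp.single (knu ((Sv D).map (IsScalarTower.toAlgHom F K Ω) x)) 1 -
      Finsupp.single ((Sv D).map (IsScalarTower.toAlgHom F K Ω) x) 1 ∈ (Sv D).ratEq K Ω := by
  classical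
  induction x using Quotient.inductionOn with
  | h P =>
    have hac : IsAlgClosed Ω := IsAlgClosure.isAlgClosed K
    let σ : K →ₐ[F] Ω := IsScalarTower.toAlgHom F K Ω
    have hσ : ∀ a : K, σ a = algebraMap K Ω a := fun a => rfl
    by_cases h0 : fm (D.n * D.r) D.f (P.mp σ).x = 0 ∧ fm (D.n * D.s) D.g (P.mp σ).y = 0
    swap
    · have e : knu ((Sv D).map σ (Quotient.mk _ P)) = (Sv D).map σ (Quotient.mk _ P) := by
        change (Quotient.mk (Qc.sd D Ω) (P.mp σ).nu : Quotient (Qc.sd D Ω)) =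
          Quotient.mk (Qc.sd D Ω) (P.mp σ)
        rw [Qc.nu, dif_neg h0]
      change Finsupp.single (knu ((Sv D).map σ (Quotient.mk _ P))) 1 -
        Finsupp.single ((Sv D).map σ (Quotient.mk _ P)) 1 ∈ _
      rw [e, sub_self]
      exact zero_mem _
    have nx : (P.mp σ).nu.x = (P.mp σ).x := by rw [Qc.nu, dif_pos h0]
    have ny : (P.mp σ).nu.y = (P.mp σ).y := by rw [Qc.nu, dif_pos h0]
    have nt : (P.mp σ).nu.t = (1, 0) := by rw [Qc.nu, dif_pos h0]
    by_cases h1 : P.t.2 = 0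
    · have ht0 : P.t.1 ≠ 0 := fun h => P.ht (Prod.ext h h1)
      have e : knu ((Sv D).map σ (Quotient.mk _ P)) = (Sv D).map σ (Quotient.mk _ P) := by
        refine Quotient.sound (s := Qc.sd D Ω) ?_
        refine ⟨1, 1, σ P.t.1, one_ne_zero, one_ne_zero, (map_ne_zero σ).2 ht0, ?_, ?_, ?_⟩
        · rw [nx, one_mul, one_mul]
        · rw [ny, one_mul, one_mul]
        · rw [nt]
          change (σ P.t.1, σ P.t.2) = (σ P.t.1 * 1 ^ D.s * 1, σ P.t.1 * 1 ^ D.r * 0)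
          rw [h1, map_zero, one_pow, mul_one, mul_one, mul_zero]
      change Finsupp.single (knu ((Sv D).map σ (Quotient.mk _ P))) 1 -
        Finsupp.single ((Sv D).map σ (Quotient.mk _ P)) 1 ∈ _
      rw [e, sub_self]
      exact zero_mem _
    -- the exceptional curve
    obtain ⟨c, hc⟩ : ∃ c : K, c = P.t.1 / P.t.2 := ⟨_, rfl⟩
    obtain ⟨E, i1, i2, θ, w₀, w₁, hE, hne, hw, ho0, ho1, hv0, hv1, hu⟩ :=
      exists_p1 (K := K) (Ω := Ω) c
    let i3 : Algebra F E := ((algebraMap K E).comp (algebraMap F K)).toAlgebra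
    have i4 : IsScalarTower F K E := IsScalarTower.of_algebraMap_eq fun _ => rfl
    have hθ : θ ≠ 0 := by
      intro h
      rw [h] at hv0
      have h2 : algebraMap K Ω c = 0 := hv0.uniq Hv.zero
      have h3 : c = 0 := (map_eq_zero _).1 h2
      apply hne
      rw [h, h3, map_zero, sub_zero]
    let τ : K →ₐ[F] E := IsScalarTower.toAlgHom F K E
    have hq : ∀ (v : K × K) (d : ℕ) (p : F[X]), fm d p (σ v.1, σ v.2) = 0 →
        fm d p (τ v.1, τ v.2) = 0 := by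
      intro v d p h
      rw [fm_map] at h ⊢
      rw [(map_eq_zero σ).1 h, map_zero]
    have hfx : fm (D.n * D.r) D.f (P.mp τ).x = 0 := hq P.x _ D.f h0.1
    have hgy : fm (D.n * D.s) D.g (P.mp τ).y = 0 := hq P.y _ D.g h0.2
    -- the generic point of the curve, in two coordinate systems
    let A : Qc D E :=
      { x := (P.mp τ).x
        y := (P.mp τ).y
        t := (θ, 1)
        hx := (P.mp τ).hx
        hy := (P.mp τ).hy
        ht := fun h => one_ne_zero (congrArg Prod.snd h)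
        eq := by rw [hfx, hgy, zero_mul, zero_mul] }
    let B : Qc D E :=
      { x := (P.mp τ).x
        y := (P.mp τ).y
        t := (1, θ⁻¹)
        hx := (P.mp τ).hx
        hy := (P.mp τ).hy
        ht := fun h => one_ne_zero (congrArg Prod.fst h)
        eq := by rw [hfx, hgy, zero_mul, zero_mul] }
    let C : Qc D Ω :=
      { x := (P.mp σ).x
        y := (P.mp σ).y
        t := (algebraMap K Ω c, 1)
        hx := (P.mp σ).hx
        hy := (P.mp σ).hy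
        ht := fun h => one_ne_zero (congrArg Prod.snd h)
        eq := by rw [h0.1, h0.2, zero_mul, zero_mul] }
    have hAB : (Quotient.mk (Qc.sd D E) A) = Quotient.mk (Qc.sd D E) B := by
      refine Quotient.sound (s := Qc.sd D E) ?_
      refine ⟨1, 1, θ⁻¹, one_ne_zero, one_ne_zero, inv_ne_zero hθ, ?_, ?_, ?_⟩
      · change (P.mp τ).x = (1 * (P.mp τ).x.1, 1 * (P.mp τ).x.2)
        rw [one_mul, one_mul]
      · change (P.mp τ).y = (1 * (P.mp τ).y.1, 1 * (P.mp τ).y.2)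
        rw [one_mul, one_mul]
      · change ((1 : E), θ⁻¹) = (θ⁻¹ * 1 ^ D.s * θ, θ⁻¹ * 1 ^ D.r * 1)
        rw [one_pow, one_pow, mul_one, mul_one, inv_mul_cancel₀ hθ]
    have hCP : (Quotient.mk (Qc.sd D Ω) C) = Quotient.mk (Qc.sd D Ω) (P.mp σ) := by
      refine Quotient.sound (s := Qc.sd D Ω) ?_
      refine ⟨1, 1, σ P.t.2, one_ne_zero, one_ne_zero, (map_ne_zero σ).2 h1, ?_, ?_, ?_⟩
      · change (P.mp σ).x = (1 * (P.mp σ).x.1, 1 * (P.mp σ).x.2)
        rw [one_mul, one_mul]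
      · change (P.mp σ).y = (1 * (P.mp σ).y.1, 1 * (P.mp σ).y.2)
        rw [one_mul, one_mul]
      · change (σ P.t.1, σ P.t.2) = (σ P.t.2 * 1 ^ D.s * algebraMap K Ω c, σ P.t.2 * 1 ^ D.r * 1)
        rw [one_pow, one_pow, mul_one, mul_one, ← hσ, ← map_mul, hc, mul_div_cancel₀ _ h1]
    have hrd : ∀ (w : Place K E Ω) (v : K × K), Rd w (τ v.1, τ v.2) (σ v.1, σ v.2) := by
      intro w v
      exact ⟨w.mem v.1, w.mem v.2, w.res_k v.1, w.res_k v.2⟩
    obtain ⟨m, hm0, hm1⟩ : ∃ m : Place K E Ω → ℤ, m w₀ = 1 ∧ m w₁ = -1 :=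
      ⟨fun w => if w = w₀ then 1 else -1, if_pos rfl, if_neg hw.symm⟩
    obtain ⟨X0, hX0⟩ : ∃ X0 : (Sv D).pt Ω, X0 = (Sv D).map σ (Quotient.mk _ P) := ⟨_, rfl⟩
    obtain ⟨y, hy0, hy1⟩ : ∃ y : Place K E Ω → (Sv D).pt Ω, y w₀ = X0 ∧ y w₁ = knu X0 :=
      ⟨fun w => if w = w₀ then X0 else knu X0, if_pos rfl, if_neg hw.symm⟩
    have key : Pv (Sv D) K Ω (Finsupp.single X0 1 - Finsupp.single (knu X0) 1) := by
      refine ⟨E, i1, i2, i3, i4, hE, θ - algebraMap K E c, Quotient.mk (Qc.sd D E) A, hne,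
        {w₀, w₁}, m, y, ?_, ?_, ?_⟩
      · intro w hw'
        rw [Finset.mem_insert, Finset.mem_singleton, not_or] at hw'
        exact hu w hw'.1 hw'.2
      · intro w hw'
        rw [Finset.mem_insert, Finset.mem_singleton] at hw'
        rcases hw' with h | h
        · subst h
          refine ⟨by rw [hm0]; exact ho0, A, C, rfl, ?_, hrd _ P.x, hrd _ P.y, ?_⟩
          · rw [hy0, hX0]
            exact hCP.symm
          · exact (rd_iff _ _ _).2 ⟨hv0, Hv.one⟩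
        · subst h
          refine ⟨by rw [hm1]; exact ho1, B, (P.mp σ).nu, hAB, ?_, ?_, ?_, ?_⟩
          · rw [hy1, hX0]
            rfl
          · rw [nx]
            exact hrd _ P.x
          · rw [ny]
            exact hrd _ P.y
          · rw [nt]
            exact (rd_iff _ _ _).2 ⟨Hv.one, hv1⟩
      · rw [Finset.sum_pair hw, hm0, hm1, hy0, hy1, Finsupp.single_neg, sub_eq_add_neg]
    have h3 := neg_mem (pv_ratEq' key)
    rw [neg_sub, hX0] at h3
    exact h3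

/-- The retraction does not change classes. -/
theorem nu_ratEq {z : (Sv D).pt Ω →₀ ℤ} (hz : z ∈ (Sv D).cyc K Ω) :
    Finsupp.mapDomain knu z - z ∈ (Sv D).ratEq K Ω := by
  classical
  have hX : ∀ x : (Sv D).pt Ω, (MulAction.stabilizer (Ω ≃ₐ[K] Ω) x).FiniteIndex :=
    fun x => opn_fin _ (sv_stab x)
  let φ : ((Sv D).pt Ω →₀ ℤ) →+ ((Sv D).pt Ω →₀ ℤ) :=
    Finsupp.mapDomain.addMonoidHom knu - AddMonoidHom.id _
  have nu_act : ∀ (σ : Ω ≃ₐ[K] Ω) (x : (Sv D).pt Ω), knu (σ • x) = σ • knu x := fun σ x =>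
    knu_map _ x
  have h2 : AddSubgroup.closure {z | ∃ x : (Sv D).pt Ω, z = trG ((Sv D).pt Ω)
      (MulAction.stabilizer (Ω ≃ₐ[K] Ω) x) (Finsupp.single x 1)} ≤
      ((Sv D).ratEq K Ω).comap φ := by
    rw [AddSubgroup.closure_le]
    rintro _ ⟨x, rfl⟩
    obtain ⟨M, hM, hMe⟩ := exists_fix (sv_stab (K := K) x)
    have i1 : IsAlgClosure M Ω := ⟨IsAlgClosure.isAlgClosed K, inferInstance⟩
    have i2 : IsScalarTower F M Ω := IsScalarTower.of_algebraMap_eq fun _ => rfl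
    obtain ⟨P, hP⟩ : ∃ P : (Sv D).pt M, x = (Sv D).map (IsScalarTower.toAlgHom F M Ω) P := by
      refine exists_qdesc fun σ => ?_
      have h3 : σ.restrictScalars K ∈ M.fixingSubgroup := sia_mem_fix M σ
      rw [hMe] at h3
      exact h3
    have h4 : trG ((Sv D).pt Ω) M.fixingSubgroup (Finsupp.single (knu ((Sv D).map
        (IsScalarTower.toAlgHom F M Ω) P)) 1 - Finsupp.single ((Sv D).map
        (IsScalarTower.toAlgHom F M Ω) P) 1) ∈ (Sv D).ratEq K Ω :=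
      tr_ratEqV (sv_fct D) M (exc_ratEq P)
    rw [← hP, map_sub, hMe] at h4
    change Finsupp.mapDomain knu (trG ((Sv D).pt Ω) (MulAction.stabilizer (Ω ≃ₐ[K] Ω) x)
      (Finsupp.single x 1)) - trG ((Sv D).pt Ω) (MulAction.stabilizer (Ω ≃ₐ[K] Ω) x)
      (Finsupp.single x 1) ∈ (Sv D).ratEq K Ω
    rw [sib_map nu_act (hX x), Finsupp.mapDomain_single]
    exact h4
  exact h2 (inv_gen hX hz)

end QS
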