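import Pool.Agent.Lib.MP_f80667_ag.Qs.Cu
import Pool.Agent.Lib.MP_f80667_ag.Qs.Nu

/-!
The surface `f(x) s ^ n = g(y) t ^ n` and the product of the curves `u ^ n = a(x)`, `v ^ n = b(y)`.

* `Qa m f a`: a linear change of coordinates which moves the form of degree `m` of `a` to that of `f`.
* `Kdt D M`: the curves, their equations and the changes of coordinates over `M`.
* `kpi (P, Q)`: the point `(x(P), x(Q), (eta Q : eta P))` of the surface (`(1 : 0)` if both are `0`).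
-/

open ZC BE PE CV Polynomial

namespace QS

/-- A linear change of coordinates. -/
structure Qa {F M : Type} [Field F] [Field M] [Algebra F M] (m : ℕ) (f : F[X]) (a : M[X]) where
  /-- a coefficient of the matrix -/
  p : M
  /-- a coefficient of the matrix -/
  q : M
  /-- a coefficient of the matrix -/
  r : M
  /-- a coefficient of the matrix -/
  s : M
  det : p * s - q * r ≠ 0
  eq : ∀ (L : Type) [Field L] [Algebra F L] [Algebra M L] [IsScalarTower F M L] (v : L × L),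
    fm m f (algebraMap M L p * v.1 + algebraMap M L q * v.2,
      algebraMap M L r * v.1 + algebraMap M L s * v.2) = fm m a v

/-- The curves `u ^ n = a(x)`, `v ^ n = b(y)` over `M`. -/
structure Kdt {F : Type} [Field F] (D : Dat F) (M : Type) [Field M] [Algebra F M] where
  hn : 2 ≤ D.n
  /-- the first curve -/
  C₁ : Crv M
  /-- the second curve -/
  C₂ : Crv M
  a : M[X]
  b : M[X]
  c₁ : Cu C₁ D.n a
  c₂ : Cu C₂ D.n b
  sa : a.Separable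
  sb : b.Separable
  da : a.natDegree + 1 = D.n * D.r
  db : b.natDegree + 1 = D.n * D.s
  m₁ : Qa (D.n * D.r) D.f a
  m₂ : Qa (D.n * D.s) D.g b

namespace Qa

variable {F M : Type} [Field F] [Field M] [Algebra F M] {m : ℕ} {f : F[X]} {a : M[X]} (Q : Qa m f a)
  {L : Type} [Field L] [Algebra M L]

/-- The linear map. -/
def mv (v : L × L) : L × L :=
  (algebraMap M L Q.p * v.1 + algebraMap M L Q.q * v.2,
    algebraMap M L Q.r * v.1 + algebraMap M L Q.s * v.2)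

private theorem dne : algebraMap M L Q.p * algebraMap M L Q.s -
    algebraMap M L Q.q * algebraMap M L Q.r ≠ 0 := by
  rw [← map_mul, ← map_mul, ← map_sub]
  exact (map_ne_zero (algebraMap M L)).2 Q.det

private theorem inj' {v v' : L × L}
    (h1 : algebraMap M L Q.p * v'.1 + algebraMap M L Q.q * v'.2 =
      algebraMap M L Q.p * v.1 + algebraMap M L Q.q * v.2)
    (h2 : algebraMap M L Q.r * v'.1 + algebraMap M L Q.s * v'.2 =
      algebraMap M L Q.r * v.1 + algebraMap M L Q.s * v.2) : v' = v := by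
  have hd := Q.dne (L := L)
  refine Prod.ext ?_ ?_
  · refine mul_left_cancel₀ hd ?_
    linear_combination algebraMap M L Q.s * h1 - algebraMap M L Q.q * h2
  · refine mul_left_cancel₀ hd ?_
    linear_combination algebraMap M L Q.p * h2 - algebraMap M L Q.r * h1

/-- Proof: `Qm.mv_ne`. -/
theorem mv_ne {v : L × L} (hv : v ≠ 0) : Q.mv v ≠ 0 := by
  intro h
  apply hv
  have h1 : algebraMap M L Q.p * v.1 + algebraMap M L Q.q * v.2 = 0 := congrArg Prod.fst h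
  have h2 : algebraMap M L Q.r * v.1 + algebraMap M L Q.s * v.2 = 0 := congrArg Prod.snd h
  refine Q.inj' (v := (0 : L × L)) ?_ ?_
  · rw [h1]
    change (0 : L) = _ * 0 + _ * 0
    ring
  · rw [h2]
    change (0 : L) = _ * 0 + _ * 0
    ring

/-- Proof: `Qm.mv_surj`. -/
theorem mv_surj (u : L × L) : ∃ v, Q.mv v = u := by
  have hd := Q.dne (L := L)
  obtain ⟨d, hd'⟩ : ∃ d : L, d = algebraMap M L Q.p * algebraMap M L Q.s -
    algebraMap M L Q.q * algebraMap M L Q.r := ⟨_, rfl⟩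
  rw [← hd'] at hd
  refine ⟨((algebraMap M L Q.s * u.1 - algebraMap M L Q.q * u.2) / d,
    (algebraMap M L Q.p * u.2 - algebraMap M L Q.r * u.1) / d), ?_⟩
  unfold mv
  refine Prod.ext ?_ ?_
  · dsimp only
    field_simp
    rw [hd']
    ring
  · dsimp only
    field_simp
    rw [hd']
    ring

/-- Proof: `Qm.mv_inj`. -/
theorem mv_inj {v v' : L × L} {b : L} (h : Q.mv v' = (b * (Q.mv v).1, b * (Q.mv v).2)) :
    v' = (b * v.1, b * v.2) := by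
  have h1 : algebraMap M L Q.p * v'.1 + algebraMap M L Q.q * v'.2 =
    b * (algebraMap M L Q.p * v.1 + algebraMap M L Q.q * v.2) := congrArg Prod.fst h
  have h2 : algebraMap M L Q.r * v'.1 + algebraMap M L Q.s * v'.2 =
    b * (algebraMap M L Q.r * v.1 + algebraMap M L Q.s * v.2) := congrArg Prod.snd h
  refine Q.inj' ?_ ?_
  · dsimp only
    rw [h1]
    ring
  · dsimp only
    rw [h2]
    ring

theorem mv_smul (b : L) (v : L × L) : Q.mv (b * v.1, b * v.2) = (b * (Q.mv v).1, b * (Q.mv v).2) := by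
  unfold mv
  refine Prod.ext ?_ ?_
  · dsimp only
    ring
  · dsimp only
    ring

theorem mv_map {N : Type} [Field N] [Algebra M N] (σ : L →ₐ[M] N) (v : L × L) :
    Q.mv (σ v.1, σ v.2) = (σ (Q.mv v).1, σ (Q.mv v).2) := by
  unfold mv
  refine Prod.ext ?_ ?_
  · dsimp only
    rw [map_add, map_mul, map_mul, AlgHom.commutes, AlgHom.commutes]
  · dsimp only
    rw [map_add, map_mul, map_mul, AlgHom.commutes, AlgHom.commutes]

end Qa

namespace Kdt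

variable {F M : Type} [Field F] [Field M] [Algebra F M] {D : Dat F} (κ : Kdt D M) {L : Type}
  [Field L] [Algebra F L] [Algebra M L] [IsScalarTower F M L]

/-- The product of the curves. -/
def X : Vr M := Vpr κ.C₁.V κ.C₂.V

omit [Algebra F L] [IsScalarTower F M L] [Algebra M L] [Field L] in
include κ in
theorem n_pos : 0 < D.n := by
  have := κ.hn
  omega

/-- Proof: `Qa.eq`, `Cu.eta_pow`. -/
theorem pow₁ (P : κ.C₁.V.pt L) :
    fm (D.n * D.r) D.f (κ.m₁.mv (κ.c₁.xh P)) = κ.c₁.eta P ^ D.n := by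
  rw [κ.c₁.eta_pow κ.da P]
  exact κ.m₁.eq L (κ.c₁.xh P)

/-- Proof: `Qa.eq`, `Cu.eta_pow`. -/
theorem pow₂ (P : κ.C₂.V.pt L) :
    fm (D.n * D.s) D.g (κ.m₂.mv (κ.c₂.xh P)) = κ.c₂.eta P ^ D.n := by
  rw [κ.c₂.eta_pow κ.db P]
  exact κ.m₂.eq L (κ.c₂.xh P)

open Classical in
/-- The coordinates `(s, t)` of `kpi (P, Q)`. -/
noncomputable def kt (P : κ.C₁.V.pt L × κ.C₂.V.pt L) : L × L :=
  if κ.c₁.eta P.1 = 0 ∧ κ.c₂.eta P.2 = 0 then (1, 0) else (κ.c₂.eta P.2, κ.c₁.eta P.1)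

omit [Algebra F L] [IsScalarTower F M L] in
theorem kt_ne (P : κ.C₁.V.pt L × κ.C₂.V.pt L) : κ.kt P ≠ 0 := by
  classical
  rw [kt]
  split_ifs with h
  · exact fun h0 => one_ne_zero (congrArg Prod.fst h0)
  · intro h0
    exact h ⟨congrArg Prod.snd h0, congrArg Prod.fst h0⟩

/-- Proof: `pow₁`, `pow₂` (see `kpc` in `Pe/Kp.lean`; `0 ^ n = 0`). -/
theorem kt_eq (P : κ.C₁.V.pt L × κ.C₂.V.pt L) :
    fm (D.n * D.r) D.f (κ.m₁.mv (κ.c₁.xh P.1)) * (κ.kt P).1 ^ D.n =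
      fm (D.n * D.s) D.g (κ.m₂.mv (κ.c₂.xh P.2)) * (κ.kt P).2 ^ D.n := by
  classical
  rw [κ.pow₁, κ.pow₂, kt]
  split_ifs with h
  · rw [h.1, h.2, zero_pow κ.n_pos.ne', zero_mul, zero_mul]
  · exact mul_comm _ _

/-- The coordinates of `kpi (P, Q)`. -/
noncomputable def kpc (P : κ.C₁.V.pt L × κ.C₂.V.pt L) : Qc D L where
  x := κ.m₁.mv (κ.c₁.xh P.1)
  y := κ.m₂.mv (κ.c₂.xh P.2)
  t := κ.kt P
  hx := κ.m₁.mv_ne (κ.c₁.xh_ne _)
  hy := κ.m₂.mv_ne (κ.c₂.xh_ne _)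
  ht := κ.kt_ne _
  eq := κ.kt_eq P

/-- The map from the product to the surface. -/
noncomputable def kpi (P : κ.C₁.V.pt L × κ.C₂.V.pt L) : (Sv D).pt L :=
  Quotient.mk _ (κ.kpc P)

/-- The action of the roots of unity. -/
noncomputable def zz (ζ : rootsOfUnity D.n L) (P : κ.C₁.V.pt L × κ.C₂.V.pt L) :
    κ.C₁.V.pt L × κ.C₂.V.pt L :=
  (κ.c₁.zm ζ P.1, κ.c₂.zm ζ P.2)

/-- Proof: `Cu.xh_map`, `Cu.eta_map`; see `kpi_map` in `Pe/Kp.lean`. -/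
theorem kpi_map {N : Type} [Field N] [Algebra F N] [Algebra M N] [IsScalarTower F M N]
    (σ : L →ₐ[M] N) (P : κ.C₁.V.pt L × κ.C₂.V.pt L) :
    (Sv D).map (σ.restrictScalars F) (κ.kpi P) =
      κ.kpi (κ.C₁.V.map σ P.1, κ.C₂.V.map σ P.2) := by
  classical
  change (Quotient.mk (Qc.sd D N) (Qc.mp (σ.restrictScalars F) (κ.kpc P)) :
      Quotient (Qc.sd D N)) =
    Quotient.mk (Qc.sd D N) (κ.kpc (κ.C₁.V.map σ P.1, κ.C₂.V.map σ P.2))
  have hx : (κ.kpc (κ.C₁.V.map σ P.1, κ.C₂.V.map σ P.2)).x =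
      (Qc.mp (σ.restrictScalars F) (κ.kpc P)).x := by
    change κ.m₁.mv (κ.c₁.xh (κ.C₁.V.map σ P.1)) =
      (σ (κ.m₁.mv (κ.c₁.xh P.1)).1, σ (κ.m₁.mv (κ.c₁.xh P.1)).2)
    rw [Cu.xh_map, Qa.mv_map]
  have hy : (κ.kpc (κ.C₁.V.map σ P.1, κ.C₂.V.map σ P.2)).y =
      (Qc.mp (σ.restrictScalars F) (κ.kpc P)).y := by
    change κ.m₂.mv (κ.c₂.xh (κ.C₂.V.map σ P.2)) =
      (σ (κ.m₂.mv (κ.c₂.xh P.2)).1, σ (κ.m₂.mv (κ.c₂.xh P.2)).2)
    rw [Cu.xh_map, Qa.mv_map]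
  have ht : (κ.kpc (κ.C₁.V.map σ P.1, κ.C₂.V.map σ P.2)).t =
      (Qc.mp (σ.restrictScalars F) (κ.kpc P)).t := by
    change κ.kt (κ.C₁.V.map σ P.1, κ.C₂.V.map σ P.2) = (σ (κ.kt P).1, σ (κ.kt P).2)
    rw [kt, kt]
    simp only [Cu.eta_map, map_eq_zero]
    split_ifs with h
    · simp only [map_one, map_zero]
    · rfl
  exact mk_eq D hx hy ht

/-- Proof: both forms vanish if and only if both `eta` do. -/
theorem knu_kpi (P : κ.C₁.V.pt L × κ.C₂.V.pt L) : knu (κ.kpi P) = κ.kpi P := by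
  classical
  change (Quotient.mk (Qc.sd D L) (κ.kpc P).nu : Quotient (Qc.sd D L)) =
    Quotient.mk (Qc.sd D L) (κ.kpc P)
  by_cases h0 : fm (D.n * D.r) D.f (κ.kpc P).x = 0 ∧ fm (D.n * D.s) D.g (κ.kpc P).y = 0
  · have h1 : κ.c₁.eta P.1 = 0 ∧ κ.c₂.eta P.2 = 0 := by
      refine ⟨?_, ?_⟩
      · have h2 : fm (D.n * D.r) D.f (κ.m₁.mv (κ.c₁.xh P.1)) = 0 := h0.1
        rw [κ.pow₁] at h2
        exact (pow_eq_zero_iff κ.n_pos.ne').1 h2
      · have h2 : fm (D.n * D.s) D.g (κ.m₂.mv (κ.c₂.xh P.2)) = 0 := h0.2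
        rw [κ.pow₂] at h2
        exact (pow_eq_zero_iff κ.n_pos.ne').1 h2
    have e1 : (κ.kpc P).nu.x = (κ.kpc P).x := by rw [Qc.nu, dif_pos h0]
    have e2 : (κ.kpc P).nu.y = (κ.kpc P).y := by rw [Qc.nu, dif_pos h0]
    have e3 : (κ.kpc P).nu.t = (1, 0) := by rw [Qc.nu, dif_pos h0]
    have e4 : (κ.kpc P).t = (1, 0) := by
      change κ.kt P = (1, 0)
      rw [kt, if_pos h1]
    exact mk_eq D e1.symm e2.symm (e4.trans e3.symm)
  · rw [Qc.nu, dif_neg h0]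

/-- Proof: the coordinates `s`, `t` are multiplied by `ζ`. -/
theorem kpi_zz (ζ : rootsOfUnity D.n L) (P : κ.C₁.V.pt L × κ.C₂.V.pt L) :
    κ.kpi (κ.zz ζ P) = κ.kpi P := by
  classical
  obtain ⟨z, hz⟩ : ∃ z : L, z = ((ζ : Lˣ) : L) := ⟨_, rfl⟩
  have hz0 : z ≠ 0 := by
    rw [hz]
    exact Units.ne_zero _
  have hx1 : κ.c₁.xh (κ.zz ζ P).1 = κ.c₁.xh P.1 := κ.c₁.xh_zm ζ P.1
  have hx2 : κ.c₂.xh (κ.zz ζ P).2 = κ.c₂.xh P.2 := κ.c₂.xh_zm ζ P.2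
  have he1 : κ.c₁.eta (κ.zz ζ P).1 = z * κ.c₁.eta P.1 := by
    rw [hz]
    exact κ.c₁.eta_zm ζ P.1
  have he2 : κ.c₂.eta (κ.zz ζ P).2 = z * κ.c₂.eta P.2 := by
    rw [hz]
    exact κ.c₂.eta_zm ζ P.2
  refine Quotient.sound (s := Qc.sd D L) ?_
  by_cases h : κ.c₁.eta P.1 = 0 ∧ κ.c₂.eta P.2 = 0
  · have h' : κ.c₁.eta (κ.zz ζ P).1 = 0 ∧ κ.c₂.eta (κ.zz ζ P).2 = 0 := by
      rw [he1, he2, h.1, h.2, mul_zero]
      exact ⟨rfl, rfl⟩
    refine ⟨1, 1, 1, one_ne_zero, one_ne_zero, one_ne_zero, ?_, ?_, ?_⟩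
    · change κ.m₁.mv (κ.c₁.xh P.1) = (1 * (κ.m₁.mv (κ.c₁.xh (κ.zz ζ P).1)).1,
        1 * (κ.m₁.mv (κ.c₁.xh (κ.zz ζ P).1)).2)
      rw [hx1, one_mul, one_mul]
    · change κ.m₂.mv (κ.c₂.xh P.2) = (1 * (κ.m₂.mv (κ.c₂.xh (κ.zz ζ P).2)).1,
        1 * (κ.m₂.mv (κ.c₂.xh (κ.zz ζ P).2)).2)
      rw [hx2, one_mul, one_mul]
    · change κ.kt P = (1 * 1 ^ D.s * (κ.kt (κ.zz ζ P)).1, 1 * 1 ^ D.r * (κ.kt (κ.zz ζ P)).2)
      rw [kt, kt, if_pos h, if_pos h']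
      simp only [one_pow, mul_one, mul_zero]
  · have h' : ¬ (κ.c₁.eta (κ.zz ζ P).1 = 0 ∧ κ.c₂.eta (κ.zz ζ P).2 = 0) := by
      intro h1
      rw [he1, he2] at h1
      exact h ⟨(mul_eq_zero.1 h1.1).resolve_left hz0, (mul_eq_zero.1 h1.2).resolve_left hz0⟩
    refine ⟨1, 1, z⁻¹, one_ne_zero, one_ne_zero, inv_ne_zero hz0, ?_, ?_, ?_⟩
    · change κ.m₁.mv (κ.c₁.xh P.1) = (1 * (κ.m₁.mv (κ.c₁.xh (κ.zz ζ P).1)).1,
        1 * (κ.m₁.mv (κ.c₁.xh (κ.zz ζ P).1)).2)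
      rw [hx1, one_mul, one_mul]
    · change κ.m₂.mv (κ.c₂.xh P.2) = (1 * (κ.m₂.mv (κ.c₂.xh (κ.zz ζ P).2)).1,
        1 * (κ.m₂.mv (κ.c₂.xh (κ.zz ζ P).2)).2)
      rw [hx2, one_mul, one_mul]
    · change κ.kt P = (z⁻¹ * 1 ^ D.s * (κ.kt (κ.zz ζ P)).1,
        z⁻¹ * 1 ^ D.r * (κ.kt (κ.zz ζ P)).2)
      rw [kt, kt, if_neg h, if_neg h', he1, he2]
      simp only [one_pow, mul_one, inv_mul_cancel_left₀ hz0]

end Kdt

end QS
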