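import Pool.Agent.Lib.MP_f80667_ag.Qs.Kp

/-! Every point of the surface is the image of a point of the product, up to the retraction. -/

open ZC BE PE CV Polynomial

namespace QS

namespace Kdt

variable {F M : Type} [Field F] [Field M] [Algebra F M] {D : Dat F} (κ : Kdt D M) {L : Type}
  [Field L] [Algebra F L] [Algebra M L] [IsScalarTower F M L]

omit [Algebra F L] [IsScalarTower F M L] in
private theorem kpa_zero {m : ℕ} {f : F[X]} {a : M[X]} (Q : Qa m f a) {v : L × L}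
    (h : Q.mv v ≠ 0) : v ≠ 0 := by
  intro h0
  apply h
  rw [h0]
  refine Prod.ext ?_ ?_
  · change algebraMap M L Q.p * 0 + algebraMap M L Q.q * 0 = 0
    rw [mul_zero, mul_zero, add_zero]
  · change algebraMap M L Q.r * 0 + algebraMap M L Q.s * 0 = 0
    rw [mul_zero, mul_zero, add_zero]

private theorem kpa_root {n : ℕ} (hn : n ≠ 0) {x y : L} (h : x ^ n = y ^ n) :
    ∃ ζ : rootsOfUnity n L, x = ((ζ : Lˣ) : L) * y := by
  by_cases hy : y = 0
  · refine ⟨1, ?_⟩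
    rw [hy, zero_pow hn] at h
    rw [hy, mul_zero]
    exact pow_eq_zero_iff hn |>.1 h
  · have i1 : NeZero n := ⟨hn⟩
    have h1 : (x / y) ^ n = 1 := by
      rw [div_pow, h, div_self (pow_ne_zero n hy)]
    refine ⟨rootsOfUnity.mkOfPowEq (x / y) h1, ?_⟩
    rw [rootsOfUnity.coe_mkOfPowEq, div_mul_cancel₀ _ hy]

/-- Proof: `kpi_surj` in `Pe/Kp.lean`. `(a ^ r eta P t₀) ^ n = (b ^ s eta Q t₁) ^ n`: multiply `Q` by a root of unity
(`Cu.zm`). -/
theorem kpi_surj [CharZero L] [IsAlgClosed L] (x : (Sv D).pt L) :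
    ∃ P : κ.C₁.V.pt L × κ.C₂.V.pt L, κ.kpi P = knu x := by
  classical
  have hn : D.n ≠ 0 := κ.n_pos.ne'
  induction x using Quotient.inductionOn with
  | h K =>
    obtain ⟨v, hv⟩ := κ.m₁.mv_surj K.x
    obtain ⟨w, hw⟩ := κ.m₂.mv_surj K.y
    have hv0 : v ≠ 0 := kpa_zero κ.m₁ (by rw [hv]; exact K.hx)
    have hw0 : w ≠ 0 := kpa_zero κ.m₂ (by rw [hw]; exact K.hy)
    obtain ⟨P, a, ha, hP⟩ := κ.c₁.xh_surj κ.n_pos hv0
    obtain ⟨Q, b, hb, hQ⟩ := κ.c₂.xh_surj κ.n_pos hw0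
    have ex : K.x = (a * (κ.m₁.mv (κ.c₁.xh P)).1, a * (κ.m₁.mv (κ.c₁.xh P)).2) := by
      rw [← hv, hP, κ.m₁.mv_smul]
    have ey : K.y = (b * (κ.m₂.mv (κ.c₂.xh Q)).1, b * (κ.m₂.mv (κ.c₂.xh Q)).2) := by
      rw [← hw, hQ, κ.m₂.mv_smul]
    have e1 : fm (D.n * D.r) D.f K.x = (a ^ D.r * κ.c₁.eta P) ^ D.n := by
      rw [ex, fm_mul, κ.pow₁, mul_pow, ← pow_mul, mul_comm D.r D.n]
    have e2 : fm (D.n * D.s) D.g K.y = (b ^ D.s * κ.c₂.eta Q) ^ D.n := by
      rw [ey, fm_mul, κ.pow₂, mul_pow, ← pow_mul, mul_comm D.s D.n]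
    by_cases h0 : fm (D.n * D.r) D.f K.x = 0 ∧ fm (D.n * D.s) D.g K.y = 0
    · refine ⟨(P, Q), ?_⟩
      refine Quotient.sound (s := Qc.sd D L) ?_
      have h1 : κ.c₁.eta P = 0 := by
        have h2 := h0.1
        rw [e1] at h2
        exact (mul_eq_zero.1 (pow_eq_zero_iff hn |>.1 h2)).resolve_left (pow_ne_zero _ ha)
      have h2 : κ.c₂.eta Q = 0 := by
        have h2 := h0.2
        rw [e2] at h2
        exact (mul_eq_zero.1 (pow_eq_zero_iff hn |>.1 h2)).resolve_left (pow_ne_zero _ hb)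
      rw [Qc.nu, dif_pos h0]
      refine ⟨a, b, (b ^ D.s)⁻¹, ha, hb, inv_ne_zero (pow_ne_zero _ hb), ex, ey, ?_⟩
      change ((1, 0) : L × L) = ((b ^ D.s)⁻¹ * b ^ D.s * (κ.kt (P, Q)).1,
        (b ^ D.s)⁻¹ * a ^ D.r * (κ.kt (P, Q)).2)
      rw [kt, if_pos ⟨h1, h2⟩]
      change ((1, 0) : L × L) = ((b ^ D.s)⁻¹ * b ^ D.s * 1, (b ^ D.s)⁻¹ * a ^ D.r * 0)
      rw [inv_mul_cancel₀ (pow_ne_zero _ hb), mul_one, mul_zero]
    · have hK := K.eq
      rw [e1, e2, ← mul_pow, ← mul_pow] at hK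
      obtain ⟨ζ, hζ⟩ := kpa_root hn hK
      obtain ⟨R, hR⟩ : ∃ R, R = κ.c₂.zm ζ Q := ⟨_, rfl⟩
      have hR1 : κ.c₂.xh R = κ.c₂.xh Q := by rw [hR, κ.c₂.xh_zm]
      have hR2 : κ.c₂.eta R = ((ζ : Lˣ) : L) * κ.c₂.eta Q := by rw [hR, κ.c₂.eta_zm]
      have hR3 : a ^ D.r * κ.c₁.eta P * K.t.1 = b ^ D.s * κ.c₂.eta R * K.t.2 := by
        rw [hζ, hR2]
        ring
      refine ⟨(P, R), ?_⟩
      refine Quotient.sound (s := Qc.sd D L) ?_
      rw [Qc.nu, dif_neg h0]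
      have hR4 : ¬ (κ.c₁.eta P = 0 ∧ κ.c₂.eta R = 0) := by
        intro h1
        apply h0
        rw [e1, e2]
        have h2 : κ.c₂.eta Q = 0 := by
          have h3 := h1.2
          rw [hR2] at h3
          exact (mul_eq_zero.1 h3).resolve_left (ζ : Lˣ).ne_zero
        rw [h1.1, h2, mul_zero, mul_zero, zero_pow hn]
        exact ⟨rfl, rfl⟩
      obtain ⟨c, hc⟩ : ∃ c : L, K.t = (c * b ^ D.s * κ.c₂.eta R, c * a ^ D.r * κ.c₁.eta P) := by
        by_cases hP0 : κ.c₁.eta P = 0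
        · have hR0 : κ.c₂.eta R ≠ 0 := fun h => hR4 ⟨hP0, h⟩
          have hne : b ^ D.s * κ.c₂.eta R ≠ 0 := mul_ne_zero (pow_ne_zero _ hb) hR0
          have ht2 : K.t.2 = 0 := by
            rw [hP0, mul_zero, zero_mul] at hR3
            exact (mul_eq_zero.1 hR3.symm).resolve_left hne
          refine ⟨K.t.1 / (b ^ D.s * κ.c₂.eta R), Prod.ext ?_ ?_⟩
          · dsimp only
            rw [mul_assoc, div_mul_cancel₀ _ hne]
          · dsimp only
            rw [hP0, mul_zero]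
            exact ht2
        · have hne : a ^ D.r * κ.c₁.eta P ≠ 0 := mul_ne_zero (pow_ne_zero _ ha) hP0
          refine ⟨K.t.2 / (a ^ D.r * κ.c₁.eta P), Prod.ext ?_ ?_⟩
          · dsimp only
            refine mul_left_cancel₀ hne ?_
            rw [hR3, mul_assoc (K.t.2 / _), ← mul_assoc (a ^ D.r * _), mul_div_cancel₀ _ hne]
            ring
          · dsimp only
            rw [mul_assoc, div_mul_cancel₀ _ hne]
      have hc0 : c ≠ 0 := by
        intro h1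
        apply K.ht
        rw [hc, h1, zero_mul, zero_mul, zero_mul, zero_mul]
        rfl
      refine ⟨a, b, c, ha, hb, hc0, ex, ?_, ?_⟩
      · change K.y = (b * (κ.m₂.mv (κ.c₂.xh R)).1, b * (κ.m₂.mv (κ.c₂.xh R)).2)
        rw [hR1]
        exact ey
      · change K.t = (c * b ^ D.s * (κ.kt (P, R)).1, c * a ^ D.r * (κ.kt (P, R)).2)
        rw [kt, if_neg hR4]
        exact hc

end Kdt

end QS
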