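import Pool.Agent.Lib.MP_f80667_ag.Qs.Kp

/-! The points of the product with the same image. -/

open ZC BE PE CV Polynomial

namespace QS

namespace Kdt

variable {F M : Type} [Field F] [Field M] [Algebra F M] {D : Dat F} (κ : Kdt D M) {L : Type}
  [Field L] [Algebra F L] [Algebra M L] [IsScalarTower F M L]

private theorem kpb_fix {C : Crv M} {n : ℕ} {a : M[X]} (c : Cu C n a) (ζ ζ' : rootsOfUnity n L)
    {P : C.V.pt L} (h : c.eta P = 0) : c.zm ζ P = c.zm ζ' P := by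
  refine c.ext ?_ ?_
  · rw [c.xh_zm, c.xh_zm]
  · rw [c.eta_zm, c.eta_zm, h, mul_zero, mul_zero]

/-- Proof: `mv_inj`, `Cu.xh_eq`: `P' = (ζ₁ P₁, ζ₂ P₂)`, the factors `a`, `b` are `1`; compare `(s : t)`: `ζ₁ = ζ₂` or one of `eta P₁`, `eta P₂`
vanishes (then `ζ₁ P₁ = ζ₂ P₁` or `ζ₁ P₂ = ζ₂ P₂`: `Cu.ext`). -/
theorem kpi_inj {P P' : κ.C₁.V.pt L × κ.C₂.V.pt L} (h : κ.kpi P' = κ.kpi P) :
    ∃ ζ : rootsOfUnity D.n L, P' = κ.zz ζ P := by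
  classical
  have hn : D.n ≠ 0 := κ.n_pos.ne'
  obtain ⟨a, b, c, ha, hb, hc, h1, h2, h3⟩ : (κ.kpc P).Rel (κ.kpc P') :=
    Quotient.exact (s := Qc.sd D L) h.symm
  have h1' : κ.m₁.mv (κ.c₁.xh P'.1) =
      (a * (κ.m₁.mv (κ.c₁.xh P.1)).1, a * (κ.m₁.mv (κ.c₁.xh P.1)).2) := h1
  have h2' : κ.m₂.mv (κ.c₂.xh P'.2) =
      (b * (κ.m₂.mv (κ.c₂.xh P.2)).1, b * (κ.m₂.mv (κ.c₂.xh P.2)).2) := h2
  obtain ⟨ea, ζ₁, hP⟩ := κ.c₁.xh_eq hn (κ.m₁.mv_inj h1')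
  obtain ⟨eb, ζ₂, hQ⟩ := κ.c₂.xh_eq hn (κ.m₂.mv_inj h2')
  subst ea eb
  have h3' : κ.kt P' = (c * 1 ^ D.s * (κ.kt P).1, c * 1 ^ D.r * (κ.kt P).2) := h3
  rw [one_pow, one_pow, mul_one] at h3'
  by_cases hz1 : κ.c₁.eta P.1 = 0
  · exact ⟨ζ₂, Prod.ext (hP.trans (kpb_fix κ.c₁ ζ₁ ζ₂ hz1)) hQ⟩
  · by_cases hz2 : κ.c₂.eta P.2 = 0
    · exact ⟨ζ₁, Prod.ext hP (hQ.trans (kpb_fix κ.c₂ ζ₂ ζ₁ hz2))⟩
    · have n1 : ¬ (κ.c₁.eta P.1 = 0 ∧ κ.c₂.eta P.2 = 0) := fun h => hz1 h.1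
      have e1 : κ.c₁.eta P'.1 = ((ζ₁ : Lˣ) : L) * κ.c₁.eta P.1 := by rw [hP, κ.c₁.eta_zm]
      have e2 : κ.c₂.eta P'.2 = ((ζ₂ : Lˣ) : L) * κ.c₂.eta P.2 := by rw [hQ, κ.c₂.eta_zm]
      have n2 : ¬ (κ.c₁.eta P'.1 = 0 ∧ κ.c₂.eta P'.2 = 0) := by
        intro h
        have h0 := h.1
        rw [e1] at h0
        rcases mul_eq_zero.1 h0 with h4 | h4
        · exact (ζ₁ : Lˣ).ne_zero h4
        · exact hz1 h4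
      rw [kt, kt, if_neg n1, if_neg n2] at h3'
      have t1 : κ.c₂.eta P'.2 = c * κ.c₂.eta P.2 := congrArg Prod.fst h3'
      have t2 : κ.c₁.eta P'.1 = c * κ.c₁.eta P.1 := congrArg Prod.snd h3'
      rw [e2] at t1
      rw [e1] at t2
      have u1 : ((ζ₂ : Lˣ) : L) = c := mul_right_cancel₀ hz2 t1
      have u2 : ((ζ₁ : Lˣ) : L) = c := mul_right_cancel₀ hz1 t2
      have u3 : ζ₁ = ζ₂ := Subtype.ext (Units.ext (u2.trans u1.symm))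
      subst u3
      exact ⟨ζ₁, Prod.ext hP hQ⟩

end Kdt

end QS
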