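import Pool.Agent.Lib.MP_f80667_ag.Qs.KpA
import Pool.Agent.Lib.MP_f80667_ag.Qs.KpB
import Pool.Agent.Lib.MP_f80667_ag.Qs.CuR

/-! The map from the product of the curves to the surface and rational equivalence. -/

open ZC BE PE CV Polynomial

namespace QS

namespace Kdt

section val

variable {F M : Type} [Field F] [Field M] [Algebra F M] {D : Dat F} (κ : Kdt D M)
  {K L Ω : Type} [Field K] [Field L] [Field Ω] [Algebra K L] [Algebra K Ω] [Algebra M K]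
  [Algebra M L] [Algebra M Ω] [IsScalarTower M K L] [IsScalarTower M K Ω] [Algebra F K]
  [Algebra F L] [Algebra F Ω] [IsScalarTower F K L] [IsScalarTower F K Ω] [IsScalarTower F M L]
  [IsScalarTower F M Ω]

omit [Algebra F K] [Algebra F L] [Algebra F Ω] [IsScalarTower F K L] [IsScalarTower F K Ω]
  [IsScalarTower F M L] [IsScalarTower F M Ω] in
/-- Proof: `mv_red` in `Pe/Kr.lean`. -/
theorem mv_red {m : ℕ} {f : F[X]} {a : M[X]} (w : Place K L Ω) (Q : Qa m f a) {v : L × L}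
    {u : Ω × Ω} (h : Rd w v u) : Rd w (Q.mv v) (Q.mv u) := by
  rw [rd_iff] at h
  obtain ⟨k₁, k₂⟩ := h
  exact (rd_iff _ _ _).2 ⟨((plr_hv w Q.p).mul k₁).add ((plr_hv w Q.q).mul k₂),
    ((plr_hv w Q.r).mul k₁).add ((plr_hv w Q.s).mul k₂)⟩

private theorem kr_ne {N : Type} [Field N] {a : N} (ha : a ≠ 0) {v : N × N} (hv : v ≠ 0) :
    ((a * v.1, a * v.2) : N × N) ≠ 0 := by
  intro h0
  apply hv
  exact Prod.ext ((mul_eq_zero.1 (congrArg Prod.fst h0)).resolve_left ha)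
    ((mul_eq_zero.1 (congrArg Prod.snd h0)).resolve_left ha)

private theorem kr_prop {N : Type} [Field N] {u t : N × N} (hu : u ≠ 0) (ht : t ≠ 0)
    (h : t.1 * u.2 = t.2 * u.1) : ∃ e : N, e ≠ 0 ∧ u = (e * t.1, e * t.2) := by
  by_cases h1 : t.1 = 0
  · have h2 : t.2 ≠ 0 := fun h2 => ht (Prod.ext h1 h2)
    have h3 : u.1 = 0 := by
      rw [h1, zero_mul] at h
      exact (mul_eq_zero.1 h.symm).resolve_left h2
    have h4 : u.2 ≠ 0 := fun h4 => hu (Prod.ext h3 h4)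
    refine ⟨u.2 / t.2, div_ne_zero h4 h2, Prod.ext ?_ ?_⟩
    · change u.1 = u.2 / t.2 * t.1
      rw [h1, mul_zero, h3]
    · change u.2 = u.2 / t.2 * t.2
      rw [div_mul_cancel₀ _ h2]
  · have h4 : u.1 ≠ 0 := by
      intro h4
      rw [h4, mul_zero] at h
      exact hu (Prod.ext h4 ((mul_eq_zero.1 h).resolve_left h1))
    refine ⟨u.1 / t.1, div_ne_zero h4 h1, Prod.ext ?_ ?_⟩
    · change u.1 = u.1 / t.1 * t.1
      rw [div_mul_cancel₀ _ h1]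
    · change u.2 = u.1 / t.1 * t.2
      rw [div_mul_eq_mul_div, eq_div_iff h1, mul_comm u.1, ← h, mul_comm]

/-- The value of `kpi P`. Proof: as `kpi_red` in `Pe/Kr.lean`. `Cu.red` for both components with factors `a`, `b`; choose `c` with
`(T₀, T₁) = (c b ^ s t₀, c a ^ r t₁)` primitive with value `(τ₀, τ₁)` (`rd_prim`, `(t₀, t₁) = kt P`); `y` has the coordinates `mv (xh P'.1)`, `mv (xh P'.2)`,
`(τ₀, τ₁)`. `T₀ (a ^ r eta P.1) = T₁ (b ^ s eta P.2)`, hence `τ₀ eta P'.1 = τ₁ eta P'.2`. If `eta P'.1 = eta P'.2 = 0` then `knu y` has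
`t = (1, 0)`; otherwise (`(τ₀, τ₁)` is a multiple of `kt P'`) `knu y = y` is `kpi P'`. -/
theorem kpi_red (w : Place K L Ω) {P : κ.C₁.V.pt L × κ.C₂.V.pt L}
    {P' : κ.C₁.V.pt Ω × κ.C₂.V.pt Ω} (h₁ : κ.C₁.V.red w P.1 P'.1) (h₂ : κ.C₂.V.red w P.2 P'.2) :
    ∃ y, (Sv D).red w (κ.kpi P) y ∧ knu y = κ.kpi P' := by
  classical
  have hn : D.n ≠ 0 := κ.n_pos.ne'
  obtain ⟨a, ha, hax, hae⟩ := κ.c₁.red κ.n_pos κ.da w h₁
  obtain ⟨b, hb, hbx, hbe⟩ := κ.c₂.red κ.n_pos κ.db w h₂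
  have ht0 : ((b ^ D.s * (κ.kt P).1, a ^ D.r * (κ.kt P).2) : L × L) ≠ 0 := by
    intro h0
    apply κ.kt_ne P
    exact Prod.ext ((mul_eq_zero.1 (congrArg Prod.fst h0)).resolve_left (pow_ne_zero _ hb))
      ((mul_eq_zero.1 (congrArg Prod.snd h0)).resolve_left (pow_ne_zero _ ha))
  obtain ⟨c, τ, hc, hτ, hct⟩ := rd_prim w ht0
  obtain ⟨hct1, hct2⟩ := (rd_iff w _ _).1 hct
  dsimp only at hct1 hct2
  have rx : Rd w (a * (κ.m₁.mv (κ.c₁.xh P.1)).1, a * (κ.m₁.mv (κ.c₁.xh P.1)).2)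
      (κ.m₁.mv (κ.c₁.xh P'.1)) := by
    rw [← Qa.mv_smul]
    exact mv_red w κ.m₁ hax
  have ry : Rd w (b * (κ.m₂.mv (κ.c₂.xh P.2)).1, b * (κ.m₂.mv (κ.c₂.xh P.2)).2)
      (κ.m₂.mv (κ.c₂.xh P'.2)) := by
    rw [← Qa.mv_smul]
    exact mv_red w κ.m₂ hbx
  have ePL : fm (D.n * D.r) D.f (κ.m₁.mv (κ.c₁.xh P.1)) * (κ.kt P).1 ^ D.n =
      fm (D.n * D.s) D.g (κ.m₂.mv (κ.c₂.xh P.2)) * (κ.kt P).2 ^ D.n := κ.kt_eq P
  have eL : fm (D.n * D.r) D.f (a * (κ.m₁.mv (κ.c₁.xh P.1)).1,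
        a * (κ.m₁.mv (κ.c₁.xh P.1)).2) * (c * (b ^ D.s * (κ.kt P).1)) ^ D.n =
      fm (D.n * D.s) D.g (b * (κ.m₂.mv (κ.c₂.xh P.2)).1,
        b * (κ.m₂.mv (κ.c₂.xh P.2)).2) * (c * (a ^ D.r * (κ.kt P).2)) ^ D.n := by
    rw [fm_mul, fm_mul, mul_pow c, mul_pow c, mul_pow (b ^ D.s), mul_pow (a ^ D.r), ← pow_mul,
      ← pow_mul, mul_comm D.s D.n, mul_comm D.r D.n]
    linear_combination (a ^ (D.n * D.r) * b ^ (D.n * D.s) * c ^ D.n) * ePL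
  have eO : fm (D.n * D.r) D.f (κ.m₁.mv (κ.c₁.xh P'.1)) * τ.1 ^ D.n =
      fm (D.n * D.s) D.g (κ.m₂.mv (κ.c₂.xh P'.2)) * τ.2 ^ D.n := by
    have k1 := (rd_fm w (D.n * D.r) D.f rx).mul (hct1.pow D.n)
    have k2 := (rd_fm w (D.n * D.s) D.g ry).mul (hct2.pow D.n)
    rw [eL] at k1
    exact k1.uniq k2
  let R : Qc D L :=
    { x := (a * (κ.m₁.mv (κ.c₁.xh P.1)).1, a * (κ.m₁.mv (κ.c₁.xh P.1)).2)
      y := (b * (κ.m₂.mv (κ.c₂.xh P.2)).1, b * (κ.m₂.mv (κ.c₂.xh P.2)).2)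
      t := (c * (b ^ D.s * (κ.kt P).1), c * (a ^ D.r * (κ.kt P).2))
      hx := kr_ne ha (κ.m₁.mv_ne (κ.c₁.xh_ne _))
      hy := kr_ne hb (κ.m₂.mv_ne (κ.c₂.xh_ne _))
      ht := kr_ne hc ht0
      eq := eL }
  let Y : Qc D Ω :=
    { x := κ.m₁.mv (κ.c₁.xh P'.1)
      y := κ.m₂.mv (κ.c₂.xh P'.2)
      t := τ
      hx := κ.m₁.mv_ne (κ.c₁.xh_ne _)
      hy := κ.m₂.mv_ne (κ.c₂.xh_ne _)
      ht := hτ
      eq := eO }
  have hR : (κ.kpc P).Rel R := by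
    refine ⟨a, b, c, ha, hb, hc, rfl, rfl, ?_⟩
    change ((c * (b ^ D.s * (κ.kt P).1), c * (a ^ D.r * (κ.kt P).2)) : L × L) =
      (c * b ^ D.s * (κ.kt P).1, c * a ^ D.r * (κ.kt P).2)
    rw [mul_assoc, mul_assoc]
  refine ⟨Quotient.mk _ Y, ⟨R, Y, Quotient.sound (s := Qc.sd D L) hR, rfl, rx, ry, hct⟩, ?_⟩
  change (Quotient.mk (Qc.sd D Ω) (Qc.nu Y) : Quotient (Qc.sd D Ω)) =
    Quotient.mk (Qc.sd D Ω) (κ.kpc P')
  have qx : fm (D.n * D.r) D.f Y.x = κ.c₁.eta P'.1 ^ D.n := κ.pow₁ P'.1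
  have qy : fm (D.n * D.s) D.g Y.y = κ.c₂.eta P'.2 ^ D.n := κ.pow₂ P'.2
  by_cases h0 : κ.c₁.eta P'.1 = 0 ∧ κ.c₂.eta P'.2 = 0
  · have h1 : fm (D.n * D.r) D.f Y.x = 0 ∧ fm (D.n * D.s) D.g Y.y = 0 := by
      rw [qx, qy, h0.1, h0.2]
      exact ⟨zero_pow hn, zero_pow hn⟩
    refine Quotient.sound (s := Qc.sd D Ω)
      ⟨1, 1, 1, one_ne_zero, one_ne_zero, one_ne_zero, ?_, ?_, ?_⟩
    · rw [Qc.nu, dif_pos h1]
      change κ.m₁.mv (κ.c₁.xh P'.1) =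
        (1 * (κ.m₁.mv (κ.c₁.xh P'.1)).1, 1 * (κ.m₁.mv (κ.c₁.xh P'.1)).2)
      rw [one_mul, one_mul]
    · rw [Qc.nu, dif_pos h1]
      change κ.m₂.mv (κ.c₂.xh P'.2) =
        (1 * (κ.m₂.mv (κ.c₂.xh P'.2)).1, 1 * (κ.m₂.mv (κ.c₂.xh P'.2)).2)
      rw [one_mul, one_mul]
    · rw [Qc.nu, dif_pos h1]
      change κ.kt P' = (1 * 1 ^ D.s * 1, 1 * 1 ^ D.r * 0)
      rw [kt, if_pos h0, one_pow, mul_one, mul_one, mul_zero]
  · have h1 : ¬ (fm (D.n * D.r) D.f Y.x = 0 ∧ fm (D.n * D.s) D.g Y.y = 0) := by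
      rintro ⟨h2, h3⟩
      rw [qx] at h2
      rw [qy] at h3
      exact h0 ⟨(pow_eq_zero_iff hn).1 h2, (pow_eq_zero_iff hn).1 h3⟩
    have kO : κ.kt P' = (κ.c₂.eta P'.2, κ.c₁.eta P'.1) := by
      rw [kt, if_neg h0]
    have eT : c * (b ^ D.s * (κ.kt P).1) * (a ^ D.r * κ.c₁.eta P.1) =
        c * (a ^ D.r * (κ.kt P).2) * (b ^ D.s * κ.c₂.eta P.2) := by
      rw [kt]
      split_ifs with h
      · rw [h.1, h.2]
        ring
      · dsimp only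
        ring
    have eτ : τ.1 * (κ.kt P').2 = τ.2 * (κ.kt P').1 := by
      rw [kO]
      have k1 := hct1.mul hae
      have k2 := hct2.mul hbe
      rw [eT] at k1
      exact k1.uniq k2
    obtain ⟨e, he, hte⟩ := kr_prop (κ.kt_ne P') hτ eτ
    refine Quotient.sound (s := Qc.sd D Ω) ⟨1, 1, e, one_ne_zero, one_ne_zero, he, ?_, ?_, ?_⟩
    · rw [Qc.nu, dif_neg h1]
      change κ.m₁.mv (κ.c₁.xh P'.1) =
        (1 * (κ.m₁.mv (κ.c₁.xh P'.1)).1, 1 * (κ.m₁.mv (κ.c₁.xh P'.1)).2)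
      rw [one_mul, one_mul]
    · rw [Qc.nu, dif_neg h1]
      change κ.m₂.mv (κ.c₂.xh P'.2) =
        (1 * (κ.m₂.mv (κ.c₂.xh P'.2)).1, 1 * (κ.m₂.mv (κ.c₂.xh P'.2)).2)
      rw [one_mul, one_mul]
    · rw [Qc.nu, dif_neg h1]
      change κ.kt P' = (e * 1 ^ D.s * τ.1, e * 1 ^ D.r * τ.2)
      rw [one_pow, one_pow, mul_one, hte]

end val

section rat

variable {F M : Type} [Field F] [Field M] [Algebra F M] {D : Dat F} (κ : Kdt D M)
  {K : Type} [Field K] [CharZero K] [Algebra F K] [Algebra M K] [IsScalarTower F M K] {Ω : Type}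
  [Field Ω] [Algebra K Ω] [Algebra F Ω] [Algebra M Ω] [IsScalarTower F K Ω] [IsScalarTower M K Ω]
  [IsScalarTower F M Ω] [IsAlgClosure K Ω]

/-- The push-forward of a cycle rationally equivalent to `0`. -/
theorem kpi_ratEq {z : (Vpr κ.C₁.V κ.C₂.V).pt Ω →₀ ℤ} (hz : z ∈ (Vpr κ.C₁.V κ.C₂.V).ratEq K Ω) :
    Finsupp.mapDomain κ.kpi z ∈ (Sv D).ratEq K Ω := by
  classical
  have h : (Vpr κ.C₁.V κ.C₂.V).ratEq K Ω ≤ ((Sv D).ratEq K Ω).comap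
      (Finsupp.mapDomain.addMonoidHom κ.kpi) := by
    rw [Vr.ratEq, AddSubgroup.closure_le]
    rintro _ ⟨E, i1, i2, i3, i4, hE, G, x, hG, hx, S, m, y, hS, hv, rfl⟩
    change Finsupp.mapDomain κ.kpi _ ∈ (Sv D).ratEq K Ω
    let i5 : Algebra F E := ((algebraMap K E).comp (algebraMap F K)).toAlgebra
    have i6 : IsScalarTower F K E := IsScalarTower.of_algebraMap_eq fun _ => rfl
    have i7 : IsScalarTower F M E := by
      refine IsScalarTower.of_algebraMap_eq fun a => ?_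
      rw [IsScalarTower.algebraMap_apply F K E, IsScalarTower.algebraMap_apply M K E,
        ← IsScalarTower.algebraMap_apply F M K]
    have i8 : IsScalarTower F M (AlgebraicClosure E) := by
      refine IsScalarTower.of_algebraMap_eq fun a => ?_
      rw [IsScalarTower.algebraMap_apply F E (AlgebraicClosure E),
        IsScalarTower.algebraMap_apply M E (AlgebraicClosure E),
        ← IsScalarTower.algebraMap_apply F M E]
    let x' : κ.C₁.V.pt (AlgebraicClosure E) × κ.C₂.V.pt (AlgebraicClosure E) := x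
    let y' : Place K E Ω → κ.C₁.V.pt Ω × κ.C₂.V.pt Ω := y
    have h1 : ∀ w ∈ S, ∃ u : (Sv D).pt Ω, (Sv D).IsVal w (κ.kpi x') u ∧
        knu u = κ.kpi (y' w) := by
      intro w hw
      obtain ⟨W, h2, h3, h4⟩ := (hv w hw).2
      obtain ⟨u, hu, hu'⟩ := κ.kpi_red W (P := x') (P' := y' w) h4.1 h4.2
      exact ⟨u, ⟨W, h2, h3, hu⟩, hu'⟩
    have hne : Nonempty ((Sv D).pt Ω) :=
      ⟨κ.kpi ((none, none) : Option (κ.C₁.A →ₐ[M] Ω) × Option (κ.C₂.A →ₐ[M] Ω))⟩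
    choose! u hu hu' using h1
    have h2 : ∑ w ∈ S, Finsupp.single (u w) (m w) ∈ (Sv D).ratEq K Ω := by
      refine AddSubgroup.subset_closure ⟨E, i1, i2, i5, i6, hE, G, κ.kpi x', hG, fun σ => ?_, S,
        m, u, hS, fun w hw => ⟨(hv w hw).1, hu w hw⟩, rfl⟩
      have h3 := κ.kpi_map (σ.restrictScalars M : AlgebraicClosure E →ₐ[M] AlgebraicClosure E) x'
      refine Eq.trans h3 ?_
      exact congrArg κ.kpi (hx σ)
    have h3 := add_mem (nu_ratEq (ratEq_cyc h2)) h2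
    rw [sub_add_cancel] at h3
    have e : Finsupp.mapDomain κ.kpi (∑ w ∈ S, Finsupp.single (y' w) (m w)) =
        Finsupp.mapDomain knu (∑ w ∈ S, Finsupp.single (u w) (m w)) := by
      rw [Finsupp.mapDomain_finsetSum, Finsupp.mapDomain_finsetSum]
      refine Finset.sum_congr rfl fun w hw => ?_
      rw [Finsupp.mapDomain_single, Finsupp.mapDomain_single, hu' w hw]
    exact e ▸ h3
  exact h hz

end rat

end Kdt

end QS
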