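import Pool.Agent.Lib.MP_f80667_ag.Qs.Kf

/-! From the product of the curves to the surface. -/

open ZC BE PE CV Polynomial IntermediateField

namespace QS

/-- The classes of the zero-cycles of degree `0` are divisible by `m`. -/
def Dq {F : Type} [Field F] (V : Vr F) (K Ω : Type) [Field K] [Algebra F K] [Field Ω] [Algebra K Ω]
    [Algebra F Ω] [IsScalarTower F K Ω] (m : ℕ) : Prop :=
  ∀ z ∈ V.D0 K Ω, ∃ z' ∈ V.D0 K Ω, z - m • z' ∈ V.ratEq K Ω

/-- The Albanese kernel of the product of two curves over `K` is `m`-divisible. -/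
def Dvr {M : Type} [Field M] (V W : Vr M) (K Ω : Type) [Field K] [Field Ω] [Algebra K Ω]
    [Algebra M K] [Algebra M Ω] [IsScalarTower M K Ω] (m : ℕ) : Prop :=
  ∀ z ∈ (Vpr V W).D0 K Ω, Finsupp.mapDomain Prod.fst z ∈ V.ratEq K Ω →
    Finsupp.mapDomain Prod.snd z ∈ W.ratEq K Ω →
    ∃ z' ∈ (Vpr V W).D0 K Ω, z - m • z' ∈ (Vpr V W).ratEq K Ω

namespace Kdt

variable {F M : Type} [Field F] [Field M] [Algebra F M] {D : Dat F} (κ : Kdt D M) {K : Type}
  [Field K] [CharZero K] [Algebra F K] [Algebra M K] [IsScalarTower F M K] {Ω : Type} [Field Ω]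
  [CharZero Ω] [IsAlgClosed Ω] [Algebra K Ω] [Algebra F Ω] [Algebra M Ω] [IsScalarTower F K Ω]
  [IsScalarTower M K Ω] [IsScalarTower F M Ω] [IsAlgClosure K Ω]

private theorem ks_alg {G : Type} [AddCommGroup G] (z a w : G) (m n : ℕ) (j k : ℤ)
    (h : j * m + k * n = 1) :
    z - m • (j • z + k • w) = k • (n • a - m • w) + -((k * n) • (a - z)) := by
  have h1 : (k * n : ℤ) = 1 - j * m := by linarith
  have h2 : z - m • (j • z + k • w) - (k • (n • a - m • w) + -((k * n) • (a - z))) =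
      (1 - j * m - k * n) • z := by
    simp only [← natCast_zsmul]
    module
  rw [h1, sub_self, zero_zsmul] at h2
  rw [← h1] at h2
  exact sub_eq_zero.1 h2

/-- **From the product to the surface.** Proof: `ks_X` in `Pe/Kl.lean`: `1 = j m + k n`; `n z ~ π_* π^* z ~ m π_* y` for `y` of `kpull z` (`kpull_push`,
`nu_ratEq`, `kpi_ratEq`), so `z ~ m (j z + k π_* y)`. -/
theorem dq_of {m : ℕ} (hm : m.Coprime D.n) (h : Dvr κ.C₁.V κ.C₂.V K Ω m) : Dq (Sv D) K Ω m := by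
  intro z hz
  obtain ⟨y, hy, hr⟩ := h _ (κ.kpull_mem hz) (κ.kpull_fst hz) (κ.kpull_snd hz)
  have h1 := κ.kpi_ratEq hr
  have h2 : Finsupp.mapDomain κ.kpi (κ.kpull z - m • y) =
      D.n • Finsupp.mapDomain knu z - m • Finsupp.mapDomain κ.kpi y := by
    rw [← κ.kpull_push z]
    have e := map_sub (Finsupp.mapDomain.addMonoidHom (M := ℤ) (κ.kpi (L := Ω)))
      (κ.kpull z) (m • y)
    rw [map_nsmul] at e
    exact e
  rw [h2] at h1
  have h3 := nu_ratEq hz.1
  have h5 : m.gcdA D.n * m + m.gcdB D.n * D.n = (1 : ℤ) := by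
    have h6 := Nat.gcd_eq_gcd_ab m D.n
    rw [Nat.Coprime.gcd_eq_one hm] at h6
    push_cast at h6
    linarith
  refine ⟨m.gcdA D.n • z + m.gcdB D.n • Finsupp.mapDomain κ.kpi y,
    add_mem (zsmul_mem hz _) (zsmul_mem (κ.kpi_mem hy) _), ?_⟩
  have h4 := add_mem (zsmul_mem h1 (m.gcdB D.n)) (neg_mem (zsmul_mem h3 (m.gcdB D.n * D.n)))
  rw [← ks_alg z (Finsupp.mapDomain knu z) (Finsupp.mapDomain κ.kpi y) m D.n _ _ h5] at h4
  exact h4

end Kdt

end QS
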