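import Pool.Agent.Lib.MP_f80667_ag.Qs.Ks
import Pool.Agent.Lib.MP_f80667_ag.Pe.Bs

/-!
Local theorems for the surface `f(x) s ^ n = g(y) t ^ n`.

* `Er L l`: `e(K / ℚ_l) < l - 1` or `l` is not the residue characteristic.
* `Cpl`: the local theorem for products of two curves with good reduction.
* `Pgd D L l`: the two curves have good reduction over an extension `M` of `K` of degree prime to `l` with `Er`.
-/

open ZC BE PE CV Polynomial IntermediateField

namespace QS

/-- `e(K / ℚ_l) < l - 1` or `l` is not the residue characteristic. -/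
def Er {K Ω : Type} [Field K] [Field Ω] [Algebra K Ω] (L : Ld K Ω) (l : ℕ) : Prop :=
  ∀ x : K, L.nm (algebraMap K Ω x) < 1 → L.nm (algebraMap K Ω x) ^ (l - 1) < L.nm (l : Ω)

/-- The local theorem for products of two curves. -/
def Cpl : Prop :=
  ∀ (K Ω : Type) [Field K] [CharZero K] [Field Ω] [Algebra K Ω] [IsAlgClosure K Ω] (L : Ld K Ω)
    (C₁ C₂ : Crv K), Nonempty (Mod C₁ (Ok L) K) → Nonempty (Mod C₂ (Ok L) K) →
    ∀ l : ℕ, l.Prime → Er L l → Dvr C₁.V C₂.V K Ω l

section tr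

variable {F : Type} [Field F] {V : Vr F} {K Ω : Type} [Field K] [CharZero K] [Field Ω]
  [Algebra K Ω] [Algebra F K] [Algebra F Ω] [IsScalarTower F K Ω] [IsAlgClosure K Ω]

/-- From an extension of degree prime to `m`. Proof: `dk_tr` in `Pe/Ke.lean`, `dvG_tr` in `Cv/Tc.lean` (`vtr`, `vtr_D0`, `vtr_res`, `tr_ratEqV`). -/
theorem dq_tr (hV : Fct V) (M : IntermediateField K Ω) [FiniteDimensional K M]
    [IsScalarTower F M Ω] {m : ℕ} (hc : (Module.finrank K M).Coprime m) (h : Dq V M Ω m) :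
    Dq V K Ω m := by
  intro z hz
  obtain ⟨z', hz', hr⟩ := h z (D0_res hz)
  set t := vtr hV K M z' with ht
  have h3 : t ∈ V.D0 K Ω := vtr_D0 hV M hz'
  have h1 : vtr hV K M (z - m • z') ∈ V.ratEq K Ω := tr_ratEqV hV M hr
  rw [map_sub, map_nsmul, vtr_res hV M hz.1] at h1
  have hb := Nat.gcd_eq_gcd_ab (Module.finrank K M) m
  rw [hc.gcd_eq_one, Nat.cast_one] at hb
  set a : ℤ := (Module.finrank K M).gcdA m
  set b : ℤ := (Module.finrank K M).gcdB m
  refine ⟨a • t + b • z, AddSubgroup.add_mem _ (AddSubgroup.zsmul_mem _ h3 _)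
    (AddSubgroup.zsmul_mem _ hz _), ?_⟩
  have h4 : z - m • (a • t + b • z) = a • (Module.finrank K M • z - m • t) := by
    have h5 : z - m • (a • t + b • z) - a • (Module.finrank K M • z - m • t) =
        (1 - ((Module.finrank K M : ℤ) * a + m * b)) • z := by
      simp only [← natCast_zsmul]
      module
    rw [← hb, sub_self, zero_smul] at h5
    exact sub_eq_zero.1 h5
  rw [h4]
  exact AddSubgroup.zsmul_mem _ h1 _

omit [CharZero K] [IsAlgClosure K Ω] in
theorem dq_mul {m m' : ℕ} (h : Dq V K Ω m) (h' : Dq V K Ω m') : Dq V K Ω (m * m') := by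
  intro z hz
  obtain ⟨z', hz', hr⟩ := h z hz
  obtain ⟨z'', hz'', hr'⟩ := h' z' hz'
  refine ⟨z'', hz'', ?_⟩
  have e : z - (m * m') • z'' = (z - m • z') + m • (z' - m' • z'') := by
    rw [smul_sub, smul_smul]
    abel
  rw [e]
  exact add_mem hr (nsmul_mem hr' m)

omit [CharZero K] [IsAlgClosure K Ω] in
/-- Proof: induction on `m`, `dq_mul`. -/
theorem dq_prime {m : ℕ} (hm : m ≠ 0) (h : ∀ l : ℕ, l.Prime → l ∣ m → Dq V K Ω l) :
    Dq V K Ω m := by
  induction m using induction_on_primes with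
  | zero => exact absurd rfl hm
  | one =>
    intro z hz
    refine ⟨z, hz, ?_⟩
    rw [one_smul, sub_self]
    exact zero_mem _
  | prime_mul p a hp ih =>
    refine dq_mul (h p hp (dvd_mul_right p a)) (ih ?_ fun l hl hla => h l hl (hla.mul_left p))
    rintro rfl
    exact hm (mul_zero p)

end tr

section pgd

variable {F : Type} [Field F] {K Ω : Type} [Field K] [CharZero K] [Field Ω] [Algebra K Ω]
  [Algebra F K] [Algebra F Ω] [IsScalarTower F K Ω] [IsAlgClosure K Ω]

/-- The two curves have good reduction over an extension of degree prime to `l`. -/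
def Pgd (D : Dat F) (L : Ld K Ω) (l : ℕ) : Prop :=
  ∃ (M : IntermediateField K Ω) (_ : FiniteDimensional K M) (L' : Ld M Ω) (κ : Kdt D M),
    ¬ l ∣ Module.finrank K M ∧ (∀ x, L'.nm x = L.nm x) ∧ Er L' l ∧
    Nonempty (Mod κ.C₁ (Ok L') M) ∧ Nonempty (Mod κ.C₂ (Ok L') M)

/-- Proof: `Cpl` over `M`, `Kdt.dq_of`, `dq_tr`. -/
theorem dq_pgd (hcp : Cpl) {D : Dat F} {L : Ld K Ω} {l : ℕ} (hl : l.Prime) (hln : ¬ l ∣ D.n)
    (h : Pgd D L l) : Dq (Sv D) K Ω l := by
  obtain ⟨M, hMf, L', κ, hlM, _, hEr, hm1, hm2⟩ := h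
  have hcl : IsAlgClosed Ω := IsAlgClosure.isAlgClosed K
  have halg : Algebra.IsAlgebraic K Ω := IsAlgClosure.isAlgebraic
  have hac : IsAlgClosure M Ω := ⟨hcl, Algebra.IsAlgebraic.tower_top (K := K) M⟩
  have hT : IsScalarTower F M Ω := IsScalarTower.of_algebraMap_eq fun _ => rfl
  have hc0 : CharZero Ω := charZero_of_injective_algebraMap (algebraMap K Ω).injective
  have hc1 : CharZero M := charZero_of_injective_algebraMap (algebraMap K M).injective
  have h1 : Dvr κ.C₁.V κ.C₂.V M Ω l := hcp M Ω L' κ.C₁ κ.C₂ hm1 hm2 l hl hEr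
  have h2 : Dq (Sv D) M Ω l := κ.dq_of ((Nat.Prime.coprime_iff_not_dvd hl).2 hln) h1
  exact dq_tr (sv_fct D) M ((Nat.Prime.coprime_iff_not_dvd hl).2 hlM).symm h2

end pgd

end QS
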