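import Pool.Agent.Lib.MP_f80667_ag.Qs.Val
import Pool.Agent.Lib.MP_f80667_ag.Fa.Inv
import Pool.Agent.Lib.MP_f80667_ag.Cv.Tc

/-! Rational equivalence on the surface `f(x) s ^ n = g(y) t ^ n`. -/

open ZC BE PE CV Polynomial

namespace QS

section fct

variable {F : Type} [Field F] (D : Dat F)

theorem mk_eq {L : Type} [Field L] [Algebra F L] {P Q : Qc D L} (hx : Q.x = P.x) (hy : Q.y = P.y)
    (ht : Q.t = P.t) : (Quotient.mk (Qc.sd D L) P : (Sv D).pt L) = Quotient.mk (Qc.sd D L) Q := by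
  refine Quotient.sound ⟨1, 1, 1, one_ne_zero, one_ne_zero, one_ne_zero, ?_, ?_, ?_⟩
  · rw [hx, one_mul, one_mul]
  · rw [hy, one_mul, one_mul]
  · rw [ht, one_pow, one_pow, mul_one, one_mul, one_mul]

/-- The maps of points are functorial. -/
theorem sv_fct : Fct (Sv D) where
  id L _ _ x := by
    induction x using Quotient.inductionOn with
    | h P => exact (mk_eq D rfl rfl rfl).symm
  comp L M N _ _ _ _ _ _ σ τ x := by
    induction x using Quotient.inductionOn with
    | h P => rfl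
  gal K Ω _ _ _ _ _ _ M E _ _ _ _ _ γ w x y h := by
    obtain ⟨P, Q, rfl, rfl, h1, h2, h3⟩ := h
    have key : ∀ {v : E × E} {u : Ω × Ω}, Rd w v u → Rd (temb γ w) v (γ u.1, γ u.2) := by
      rintro v u ⟨m1, m2, e1, e2⟩
      exact ⟨m1, m2, congrArg γ e1, congrArg γ e2⟩
    exact ⟨P, Q.mp (γ.restrictScalars F : Ω →ₐ[F] Ω), rfl, rfl, key h1, key h2, key h3⟩

end fct

variable {F : Type} [Field F] {D : Dat F} {K : Type} [Field K] [CharZero K] [Algebra F K]
  {Ω : Type} [Field Ω] [Algebra K Ω] [Algebra F Ω] [IsScalarTower F K Ω]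

/-- The cycles rationally equivalent to `0` are cycles over `K`. -/
theorem ratEq_cyc : (Sv D).ratEq K Ω ≤ (Sv D).cyc K Ω := by
  refine (AddSubgroup.closure_le _).2 ?_
  rintro z ⟨E, _, _, _, _, hE, G, x, hG, hx, S, m, y, h1, h2, rfl⟩
  have hc : CharZero E := charZero_of_injective_algebraMap (algebraMap K E).injective
  obtain ⟨ξ, rfl⟩ := exists_qdesc (D := D) (K := E) (Ω := AlgebraicClosure E) hx
  have hval : ∀ w ∈ S, (Sv D).red w ξ (y w) := by
    intro w hw
    obtain ⟨W, hW1, hW2, hred⟩ := (h2 w hw).2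
    obtain ⟨y', hy'⟩ := qred_ex w ξ
    have h3 := qred_up (D := D) (w := w) (W := W) ⟨hW1, hW2⟩ hy'
    have e : y w = y' := qred_uniq W hred h3
    rw [e]
    exact hy'
  intro σ
  refine sum_inv σ ((Sv D).act σ) S m y h1 (fun v hv => (h2 v hv).1) fun v hv hv' => ?_
  have h3 := qred_act (D := D) (w := v) (w' := v.gal σ)
    (σ := (σ.restrictScalars F : Ω ≃ₐ[F] Ω)) rfl (fun a h h' => rfl) (hval v hv)
  exact qred_uniq _ (hval _ hv') h3

omit [CharZero K] [Algebra F K] [IsScalarTower F K Ω] [Algebra K Ω] [Field K]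
  [Algebra F Ω] [Field Ω] in
/-- An automorphism over `E` fixes the points over `E`. -/
theorem qs_fix {E : Type} [Field E] [Algebra F E]
    (σ : AlgebraicClosure E ≃ₐ[E] AlgebraicClosure E) (x : (Sv D).pt E) :
    (Sv D).map (σ.restrictScalars F : AlgebraicClosure E →ₐ[F] AlgebraicClosure E)
      ((Sv D).map (IsScalarTower.toAlgHom F E (AlgebraicClosure E)) x) =
      (Sv D).map (IsScalarTower.toAlgHom F E (AlgebraicClosure E)) x := by
  induction x using Quotient.inductionOn with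
  | h P =>
    have e : ∀ a : E, σ (algebraMap E (AlgebraicClosure E) a) = algebraMap E (AlgebraicClosure E) a :=
      fun a => σ.commutes a
    exact mk_eq D (Prod.ext (e P.x.1) (e P.x.2)).symm (Prod.ext (e P.y.1) (e P.y.2)).symm
      (Prod.ext (e P.t.1) (e P.t.2)).symm

variable [IsAlgClosure K Ω]

/-- The sum of the divisors of `G` on the curve `E` for a point over `E`. -/
theorem pv_ratEq' {z : (Sv D).pt Ω →₀ ℤ} (h : Pv (Sv D) K Ω z) : z ∈ (Sv D).ratEq K Ω := by
  have hac : IsAlgClosed Ω := IsAlgClosure.isAlgClosed K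
  obtain ⟨E, i1, i2, i3, i4, hE, G, ξ, hG, S, m, y, hS, hv, rfl⟩ := h
  refine AddSubgroup.subset_closure ⟨E, i1, i2, i3, i4, hE, G,
    (Sv D).map (IsScalarTower.toAlgHom F E (AlgebraicClosure E)) ξ, hG, fun σ => qs_fix σ ξ,
    S, m, y, hS, fun w hw => ⟨(hv w hw).1, ?_⟩, rfl⟩
  obtain ⟨W', hW'⟩ := exists_above w
  exact ⟨W', hW'.1, hW'.2, qred_up hW' (hv w hw).2⟩

end QS
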