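import Pool.Agent.Lib.MP_f80667_ag.Qs.Kp

/-!
Moving a root `e` of `f` to infinity: `sh N f e = X ^ N f(e + 1 / X)`, a polynomial of degree `N - 1` if `f` has degree `≤ N`, `f(e) = 0`,
`f'(e) ≠ 0`.
-/

open Polynomial

namespace QS

/-- The polynomial `X ^ N f(e + 1 / X)`. -/
noncomputable def sh {O : Type} [CommRing O] (N : ℕ) (f : O[X]) (e : O) : O[X] :=
  (f.comp (X + C e)).reflect N

section ring

variable {O : Type} [CommRing O] {N : ℕ} {f : O[X]} {e : O}

theorem sh_map {O' : Type} [CommRing O'] (φ : O →+* O') (hf : f.natDegree ≤ N) :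
    (sh N f e).map φ = sh N (f.map φ) (φ e) := by
  have _ := hf
  ext i
  simp only [sh, coeff_map, coeff_reflect]
  rw [← coeff_map, Polynomial.map_comp, Polynomial.map_add, map_X, map_C]

/-- Proof: the coefficient of `X ^ N` is `f(e) = 0`, the coefficient of `X ^ (N - 1)` is `f'(e)` (`coeff_reflect`, `taylor`). -/
theorem sh_deg [IsDomain O] (hN : 1 ≤ N) (hf : f.natDegree ≤ N) (he : f.eval e = 0)
    (he' : (derivative f).eval e ≠ 0) :
    (sh N f e).natDegree + 1 = N ∧ (sh N f e).leadingCoeff = (derivative f).eval e := by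
  have hc : ∀ i, (sh N f e).coeff i = (taylor e f).coeff (revAt N i) := fun i => by
    rw [sh, coeff_reflect]
    rfl
  have h1 : (sh N f e).coeff (N - 1) = (derivative f).eval e := by
    rw [hc, revAt_le (Nat.sub_le N 1), Nat.sub_sub_self hN, taylor_coeff_one]
  have h2 : ∀ i, N - 1 < i → (sh N f e).coeff i = 0 := by
    intro i hi
    rw [hc]
    rcases Nat.lt_or_ge N i with h3 | h3
    · rw [revAt_eq_self_of_lt h3]
      refine coeff_eq_zero_of_natDegree_lt ?_
      rw [natDegree_taylor]
      omega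
    · have h4 : i = N := by omega
      rw [h4, revAt_le le_rfl, Nat.sub_self, taylor_coeff_zero, he]
  have h5 : (sh N f e).natDegree = N - 1 := by
    refine le_antisymm (natDegree_le_iff_coeff_eq_zero.2 h2) (le_natDegree_of_ne_zero ?_)
    rw [h1]
    exact he'
  refine ⟨by omega, ?_⟩
  rw [leadingCoeff, h5, h1]

end ring

end QS
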