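import Pool.Agent.Lib.MP_f80667_ag.Qs.Sh

/-! The discriminant of `X ^ N f(e + 1 / X)`. -/

open Polynomial

namespace QS

variable {O : Type} [CommRing O] {N : ℕ} {f : O[X]} {e : O}

private theorem shS_der (n : ℕ) (g : O[X]) (hg : g.natDegree ≤ n + 1) :
    X * derivative (g.reflect (n + 1)) =
      C ((n : O) + 1) * g.reflect (n + 1) - (derivative g).reflect n := by
  ext k
  rw [coeff_sub, coeff_C_mul, coeff_reflect, coeff_reflect]
  have h1 : (X * derivative (g.reflect (n + 1))).coeff k = (k : O) * (g.reflect (n + 1)).coeff k := by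
    cases k with
    | zero => simp
    | succ j =>
      rw [coeff_X_mul, coeff_derivative]
      push_cast
      ring
  rw [h1, coeff_reflect]
  by_cases hk : k ≤ n
  · rw [revAt_le hk, revAt_le (by omega : k ≤ n + 1), coeff_derivative]
    have e1 : n - k + 1 = n + 1 - k := by omega
    have e2 : ((n - k : ℕ) : O) = (n : O) - k := by
      rw [Nat.cast_sub hk]
    rw [e1, e2]
    ring
  · rcases Nat.lt_or_ge (n + 1) k with hk2 | hk2
    · have e1 : g.coeff k = 0 := coeff_eq_zero_of_natDegree_lt (by omega)
      have e2 : g.coeff (k + 1) = 0 := coeff_eq_zero_of_natDegree_lt (by omega)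
      rw [revAt_eq_self_of_lt hk2, revAt_eq_self_of_lt (by omega : n < k), coeff_derivative, e1, e2]
      ring
    · have e0 : k = n + 1 := by omega
      subst e0
      have e2 : g.coeff (n + 1 + 1) = 0 := coeff_eq_zero_of_natDegree_lt (by omega)
      rw [revAt_le le_rfl, revAt_eq_self_of_lt (by omega : n < n + 1), coeff_derivative, e2]
      push_cast
      ring

/-- Proof: `f(X + e) = X h`, `h(0) = f'(e)`. `b f + c f' = 1` gives a relation between `h` and `h'`, hence (`reflect_mul`) `X ^ k` is in the ideal generated by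
`a = sh N f e` and `a'`: `X a' = (N - 1) a - reflect h'..`. And `a(0)` is the leading coefficient of `f` (a unit, degree `N`), so `a` and `X ^ k` generate `1`. (If it
is easier: over a local ring with `nak` of `Cv/SeD.lean` or by resultants.) -/
theorem sh_sep [IsDomain O] (hN : 1 ≤ N) (hf : f.natDegree = N) (hl : IsUnit f.leadingCoeff)
    (hs : ∃ b c : O[X], b * f + c * derivative f = 1) (he : f.eval e = 0) :
    ∃ b c : O[X], b * sh N f e + c * derivative (sh N f e) = 1 := by
  obtain ⟨n, rfl⟩ : ∃ n, N = n + 1 := ⟨N - 1, by omega⟩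
  obtain ⟨b, c, hbc⟩ := hs
  set g : O[X] := f.comp (X + C e) with hg
  have hsh : sh (n + 1) f e = g.reflect (n + 1) := rfl
  have hgd : g.natDegree = n + 1 := by
    rw [hg, natDegree_comp, natDegree_X_add_C, mul_one, hf]
  have hgd' : (derivative g).natDegree ≤ n := by
    have := natDegree_derivative_le g
    omega
  have hgl : g.coeff (n + 1) = f.leadingCoeff := by
    have h1 : g.leadingCoeff = f.leadingCoeff := by
      rw [hg, leadingCoeff_comp (by rw [natDegree_X_add_C]; exact one_ne_zero), leadingCoeff_X_add_C,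
        one_pow, mul_one]
    rw [← h1, leadingCoeff, hgd]
  have hder : derivative g = (derivative f).comp (X + C e) := by
    rw [hg, derivative_comp]
    simp
  set B : O[X] := b.comp (X + C e) with hB
  set D : O[X] := c.comp (X + C e) with hD
  have hrel : B * g + D * derivative g = 1 := by
    rw [hB, hD, hder, hg, ← mul_comp, ← mul_comp, ← add_comp, hbc, one_comp]
  -- a power of `X`
  set m : ℕ := B.natDegree + D.natDegree with hm
  have hpow : (X : O[X]) ^ (m + (n + 1)) =
      B.reflect m * g.reflect (n + 1) + D.reflect (m + 1) * (derivative g).reflect n := by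
    rw [← reflect_mul B g (by omega : B.natDegree ≤ m) hgd.le,
      ← reflect_mul D (derivative g) (by omega : D.natDegree ≤ m + 1) hgd']
    have e1 : m + 1 + n = m + (n + 1) := by ring
    rw [e1, ← reflect_add, hrel]
    have e2 : (1 : O[X]) = C 1 := by simp
    rw [e2, reflect_C]
    simp
  have hco1 : IsCoprime (g.reflect (n + 1)) (X : O[X]) := by
    obtain ⟨u, hu⟩ := hl
    have h0 : (g.reflect (n + 1)).coeff 0 = u := by
      rw [coeff_reflect, revAt_le (Nat.zero_le _), Nat.sub_zero, hgl, hu]
    refine ⟨C ((u⁻¹ : Oˣ) : O), - C ((u⁻¹ : Oˣ) : O) * (g.reflect (n + 1)).divX, ?_⟩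
    have h1 := divX_mul_X_add (g.reflect (n + 1))
    rw [h0] at h1
    calc C ((u⁻¹ : Oˣ) : O) * g.reflect (n + 1) +
          - C ((u⁻¹ : Oˣ) : O) * (g.reflect (n + 1)).divX * X
        = C ((u⁻¹ : Oˣ) : O) * (g.reflect (n + 1) - (g.reflect (n + 1)).divX * X) := by ring
      _ = C ((u⁻¹ : Oˣ) : O) * C (u : O) := by
          congr 1
          nth_rewrite 1 [← h1]
          ring
      _ = 1 := by
          rw [← C_mul, Units.inv_mul, C_1]
  have hco2 : IsCoprime (g.reflect (n + 1)) ((X : O[X]) ^ (m + (n + 1))) := hco1.pow_right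
  have hr : (derivative g).reflect n =
      C ((n : O) + 1) * g.reflect (n + 1) - X * derivative (g.reflect (n + 1)) := by
    rw [shS_der n g hgd.le]
    ring
  rw [hsh]
  obtain ⟨p, q, hpq⟩ := hco2
  refine ⟨p + q * (B.reflect m + D.reflect (m + 1) * C ((n : O) + 1)), - (q * D.reflect (m + 1) * X), ?_⟩
  rw [hpow, hr] at hpq
  rw [← hpq]
  ring

end QS
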